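import Mathlib

/-! The 5-adic orders of the cross-ratio forms. -/

set_option autoImplicit false

namespace Pool.Agent.Lib.MP_f61260_nt.Ab

open Polynomial

variable {R : Type*} [CommRing R]

def ex : Fin 4 → ℕ := ![1, 2, 4, 3]

def dd (x y : Fin 4 → R) (k l : Fin 4) : R := x k * y l - x l * y k

def fA (x y : Fin 4 → R) : R := dd x y 0 1 * dd x y 2 3

def fC (x y : Fin 4 → R) : R := dd x y 0 3 * dd x y 1 2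

def tw (ζ : R) (j : ℕ) (x : Fin 4 → R) : Fin 4 → R := fun k => ζ ^ (j * ex k) * x k

def Phi (ζ : R) : Prop := 1 + ζ + ζ ^ 2 + ζ ^ 3 + ζ ^ 4 = 0

theorem Phi.five {ζ : R} (h : Phi ζ) : ζ ^ 5 = 1 := by
  rw [Phi] at h
  linear_combination (ζ - 1) * h

def Adm (ζ : R) (x : Fin 4 → R) : Prop :=
  ∃ a b c : R, ∀ k, (ζ - 1) ^ 3 ∣ x k - (a + b * (ζ ^ ex k - 1) + c * (ζ ^ ex k - 1) ^ 2)

variable {ζ : R} {x y : Fin 4 → R}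

theorem eps (ζ : R) (k : Fin 4) : ζ - 1 ∣ ζ ^ ex k - 1 := by
  simpa using sub_dvd_pow_sub_pow ζ 1 (ex k)

theorem Adm.const (ζ a : R) : Adm ζ fun _ => a := ⟨a, 0, 0, fun _ => by simp⟩

theorem Adm.gen (ζ : R) : Adm ζ fun k => ζ ^ ex k := ⟨1, 1, 0, fun _ => by simp⟩

theorem Adm.add (h : Adm ζ x) (h' : Adm ζ y) : Adm ζ fun k => x k + y k := by
  obtain ⟨a, b, c, h⟩ := h
  obtain ⟨a', b', c', h'⟩ := h'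
  refine ⟨a + a', b + b', c + c', fun k => ?_⟩
  obtain ⟨r, hr⟩ := h k
  obtain ⟨r', hr'⟩ := h' k
  exact ⟨r + r', by linear_combination hr + hr'⟩

theorem Adm.mul (h : Adm ζ x) (h' : Adm ζ y) : Adm ζ fun k => x k * y k := by
  obtain ⟨a, b, c, h⟩ := h
  obtain ⟨a', b', c', h'⟩ := h'
  refine ⟨a * a', a * b' + b * a', a * c' + b * b' + c * a', fun k => ?_⟩
  obtain ⟨r, hr⟩ := h k
  obtain ⟨r', hr'⟩ := h' k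
  obtain ⟨n, hn⟩ := eps ζ k
  rw [hn] at hr hr' ⊢
  refine ⟨r * y k + (a + b * ((ζ - 1) * n) + c * ((ζ - 1) * n) ^ 2) * r' +
    n ^ 3 * (b * c' + c * b' + c * c' * ((ζ - 1) * n)), ?_⟩
  linear_combination y k * hr + (a + b * ((ζ - 1) * n) + c * ((ζ - 1) * n) ^ 2) * hr'

theorem Adm.pow (h : Adm ζ x) (n : ℕ) : Adm ζ fun k => x k ^ n := by
  induction n with
  | zero => simpa using Adm.const ζ 1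
  | succ n ih => simpa [pow_succ] using ih.mul h

theorem Adm.tw (h : Adm ζ x) (j : ℕ) : Adm ζ (tw ζ j x) := by
  have := ((Adm.gen ζ).pow j).mul h
  simp only [← pow_mul, mul_comm (ex _) j] at this
  exact this

def Ad5 (ζ : R) (x : Fin 4 → R) : Prop :=
  Adm ζ x ∧ ∃ (a : R) (P : Fin 4 → R), Adm ζ P ∧ ∀ k, x k ^ 5 = a + 5 * P k

theorem ad5_poly (h : Phi ζ) (ρ : R) (f : ℤ[X]) : Ad5 ζ fun k => aeval (ρ * ζ ^ ex k) f := by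
  induction f using Polynomial.induction_on' with
  | add p q hp hq =>
    obtain ⟨h1, a, P, h2, h3⟩ := hp
    obtain ⟨h4, b, Q, h5, h6⟩ := hq
    simp only [map_add]
    refine ⟨h1.add h4, a + b, _, (h2.add h5).add ((h1.mul h4).mul (((h1.pow 3).add (h4.pow 3)).add
      ((Adm.const ζ 2).mul ((h1.mul h4).mul (h1.add h4))))), fun k => ?_⟩
    linear_combination h3 k + h6 k
  | monomial n a =>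
    simp only [aeval_monomial]
    refine ⟨(Adm.const ζ _).mul (((Adm.const ζ ρ).mul (Adm.gen ζ)).pow n),
      (algebraMap ℤ R a * ρ ^ n) ^ 5, _, Adm.const ζ 0, fun k => ?_⟩
    have : (ζ ^ ex k) ^ (n * 5) = 1 := by
      rw [← pow_mul, ← mul_assoc, mul_comm, pow_mul, h.five, one_pow]
    rw [mul_pow, mul_pow, mul_pow, mul_pow, ← pow_mul (ζ ^ ex k), this]
    ring

theorem Adm.dd (h : Adm ζ x) (h' : Adm ζ y) : ∃ a b : R, ∀ k l, ∃ r, dd x y k l =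
    a * (ζ ^ ex l - ζ ^ ex k) + b * ((ζ ^ ex l - 1) ^ 2 - (ζ ^ ex k - 1) ^ 2) + (ζ - 1) ^ 3 * r := by
  obtain ⟨a, b, c, h⟩ := h
  obtain ⟨a', b', c', h'⟩ := h'
  refine ⟨a * b' - b * a', a * c' - c * a', fun k l => ?_⟩
  obtain ⟨r, hr⟩ := h k
  obtain ⟨r', hr'⟩ := h' k
  obtain ⟨t, ht⟩ := h l
  obtain ⟨t', ht'⟩ := h' l
  obtain ⟨n, hn⟩ := eps ζ k
  obtain ⟨m, hm⟩ := eps ζ l
  rw [show ζ ^ ex l - ζ ^ ex k = ζ ^ ex l - 1 - (ζ ^ ex k - 1) by ring, Ab.dd]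
  rw [hn] at hr hr' ⊢
  rw [hm] at ht ht' ⊢
  rw [sub_eq_iff_eq_add] at hr hr' ht ht'
  refine ⟨r * y l + (a + b * ((ζ - 1) * n) + c * ((ζ - 1) * n) ^ 2) * t' - t * y k -
    (a + b * ((ζ - 1) * m) + c * ((ζ - 1) * m) ^ 2) * r' +
    (b * c' - c * b') * n * m * (m - n), ?_⟩
  rw [hr, ht, hr', ht']
  ring

theorem Adm.dvd (h : Adm ζ x) (h' : Adm ζ y) (k l : Fin 4) : ζ - 1 ∣ Ab.dd x y k l := by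
  obtain ⟨a, b, h⟩ := h.dd h'
  obtain ⟨r, hr⟩ := h k l
  obtain ⟨n, hn⟩ := eps ζ k
  obtain ⟨m, hm⟩ := eps ζ l
  rw [hr, show ζ ^ ex l - ζ ^ ex k = ζ ^ ex l - 1 - (ζ ^ ex k - 1) by ring, hn, hm]
  exact ⟨a * (m - n) + b * (ζ - 1) * (m ^ 2 - n ^ 2) + (ζ - 1) ^ 2 * r, by ring⟩

theorem Phi.l4 (h : Phi ζ) : (5 : R) ∣ (ζ - 1) ^ 4 :=
  ⟨-ζ + ζ ^ 2 - ζ ^ 3, by rw [Phi] at h; linear_combination h⟩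

theorem Phi.l2 (h : Phi ζ) : 1 + 2 * (ζ + ζ ^ 4) ∣ (ζ - 1) ^ 2 :=
  ⟨-ζ * (ζ + ζ ^ 4), by rw [Phi] at h; linear_combination (1 - 3 * ζ + 4 * ζ ^ 2 - 2 * ζ ^ 4 + 2 * ζ ^ 5) * h⟩

theorem Phi.ss (h : Phi ζ) : (ζ + ζ ^ 4) ^ 2 + (ζ + ζ ^ 4) = 1 := by
  rw [Phi] at h
  linear_combination (-1 + 2 * ζ - ζ ^ 3 + ζ ^ 4) * h

theorem Phi.mu (h : Phi ζ) : (1 + 2 * (ζ + ζ ^ 4)) ^ 2 = 5 := by
  linear_combination 4 * h.ss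

theorem Adm.harm (hζ : Phi ζ) (h : Adm ζ x) (h' : Adm ζ y) : (5 : R) ∣ fA x y - fC x y := by
  obtain ⟨a, b, hd⟩ := h.dd h'
  obtain ⟨r1, h1⟩ := hd 0 1
  obtain ⟨r2, h2⟩ := hd 2 3
  obtain ⟨r3, h3⟩ := hd 0 3
  obtain ⟨r4, h4⟩ := hd 1 2
  obtain ⟨d2, e2⟩ := h.dvd h' 2 3
  obtain ⟨d4, e4⟩ := h.dvd h' 1 2
  obtain ⟨u, hu⟩ := hζ.l4
  simp only [ex, Matrix.cons_val_zero, Matrix.cons_val_one, Matrix.cons_val] at h1 h2 h3 h4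
  rw [Phi] at hζ
  have k1 : (ζ ^ 2 - ζ) * (ζ ^ 3 - ζ ^ 4) - (ζ ^ 3 - ζ) * (ζ ^ 4 - ζ ^ 2) = 5 := by
    linear_combination (-5 + 5 * ζ - ζ ^ 3) * hζ
  refine ⟨(a + b * (ζ + ζ ^ 2 + ζ ^ 3 + ζ ^ 4 - 4)) * a +
    u * (b ^ 2 * ζ ^ 4 * (-(ζ + 2) * (ζ ^ 3 + 2 * ζ ^ 2 + 2 * ζ + 2) * 1) * 0 + r1 * d2 - r3 * d4 +
      (a * ζ + b * ζ * (ζ ^ 2 + ζ - 2)) * r2 -
      (a * ζ * (ζ + 1) + b * ζ * (ζ + 1) * (ζ ^ 3 + ζ - 2)) * r4 +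
      b ^ 2 * (-ζ ^ 4 * (ζ + 2) * (ζ ^ 3 + 2 * ζ ^ 2 + 2 * ζ + 2) -
        ζ ^ 3 * (ζ + 1) ^ 2 * (ζ ^ 2 + ζ + 2) * (ζ + 1) * (ζ ^ 2 + 2))), ?_⟩
  have f1 : fA x y = (a * (ζ ^ 2 - ζ ^ 1) + b * ((ζ ^ 2 - 1) ^ 2 - (ζ ^ 1 - 1) ^ 2)) *
      (a * (ζ ^ 3 - ζ ^ 4) + b * ((ζ ^ 3 - 1) ^ 2 - (ζ ^ 4 - 1) ^ 2) + (ζ - 1) ^ 3 * r2) +
      (ζ - 1) ^ 3 * r1 * ((ζ - 1) * d2) := by
    rw [fA, ← h2, ← e2, h1]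
    ring
  have f2 : fC x y = (a * (ζ ^ 3 - ζ ^ 1) + b * ((ζ ^ 3 - 1) ^ 2 - (ζ ^ 1 - 1) ^ 2)) *
      (a * (ζ ^ 4 - ζ ^ 2) + b * ((ζ ^ 4 - 1) ^ 2 - (ζ ^ 2 - 1) ^ 2) + (ζ - 1) ^ 3 * r4) +
      (ζ - 1) ^ 3 * r3 * ((ζ - 1) * d4) := by
    rw [fC, ← h4, ← e4, h3]
    ring
  rw [f1, f2]
  linear_combination ((a + b * (ζ + ζ ^ 2 + ζ ^ 3 + ζ ^ 4 - 4)) * a) * k1 +
    (r1 * d2 - r3 * d4 + (a * ζ + b * ζ * (ζ ^ 2 + ζ - 2)) * r2 -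
      (a * ζ * (ζ + 1) + b * ζ * (ζ + 1) * (ζ ^ 3 + ζ - 2)) * r4 +
      b ^ 2 * (-ζ ^ 4 * (ζ + 2) * (ζ ^ 3 + 2 * ζ ^ 2 + 2 * ζ + 2) -
        ζ ^ 3 * (ζ + 1) ^ 2 * (ζ ^ 2 + ζ + 2) * (ζ + 1) * (ζ ^ 2 + 2))) * hu

theorem mu_A (hζ : Phi ζ) (h : Adm ζ x) (h' : Adm ζ y) : 1 + 2 * (ζ + ζ ^ 4) ∣ fA x y :=
  hζ.l2.trans (by rw [sq]; exact mul_dvd_mul (h.dvd h' 0 1) (h.dvd h' 2 3))

theorem mu_C (hζ : Phi ζ) (h : Adm ζ x) (h' : Adm ζ y) : 1 + 2 * (ζ + ζ ^ 4) ∣ fC x y :=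
  hζ.l2.trans (by rw [sq]; exact mul_dvd_mul (h.dvd h' 0 3) (h.dvd h' 1 2))

theorem harm5 (hζ : Phi ζ) (h : Ad5 ζ x) (h' : Ad5 ζ y) :
    (125 : R) ∣ fA (fun k => x k ^ 5) (fun k => y k ^ 5) -
      fC (fun k => x k ^ 5) (fun k => y k ^ 5) := by
  obtain ⟨-, a, P, hP, h1⟩ := h
  obtain ⟨-, b, Q, hQ, h2⟩ := h'
  have hS := ((Adm.const ζ b).mul hP).add ((Adm.const ζ (-a)).mul hQ)
  obtain ⟨w, hw⟩ := hS.harm hζ (Adm.const ζ 1)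
  simp only [fA, fC, dd, h1, h2] at hw ⊢
  refine ⟨w + ((b * P 0 - a * Q 0 - (b * P 1 - a * Q 1)) * dd P Q 2 3 +
    dd P Q 0 1 * (b * P 2 - a * Q 2 - (b * P 3 - a * Q 3)) -
    (b * P 0 - a * Q 0 - (b * P 3 - a * Q 3)) * dd P Q 1 2 -
    dd P Q 0 3 * (b * P 1 - a * Q 1 - (b * P 2 - a * Q 2))) + 5 * (fA P Q - fC P Q), ?_⟩
  simp only [fA, fC, dd]
  linear_combination 25 * hw

theorem prod5 (h : Phi ζ) (X Y : R) : (X - Y) * (X - ζ * Y) * (X - ζ ^ 2 * Y) * (X - ζ ^ 3 * Y) *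
    (X - ζ ^ 4 * Y) = X ^ 5 - Y ^ 5 := by
  rw [Phi] at h
  linear_combination (-X ^ 4 * Y + X ^ 3 * Y ^ 2 * (ζ + ζ ^ 3) - X ^ 2 * Y ^ 3 * (ζ ^ 3 + ζ ^ 5) +
    X * Y ^ 4 * ζ ^ 6 - Y ^ 5 * (ζ ^ 6 - ζ ^ 5 + ζ - 1)) * h

end Pool.Agent.Lib.MP_f61260_nt.Ab
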