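import Pool.Agent.Lib.MP_f61260_nt.Ab.Real
import Pool.Agent.Lib.MP_f61260_nt.Ab.Adic

/-! Real coordinates for four points on the unit circle and their twists. -/

set_option autoImplicit false
set_option linter.unusedSimpArgs false

namespace Pool.Agent.Lib.MP_f61260_nt.Ab

open Complex

theorem two_re {Z T : ℂ} (h : ‖Z‖ = 1) (h' : Z * T = 1) : ((2 * Z.re : ℝ) : ℂ) = Z + T := by
  have h1 : Z * (starRingEnd ℂ) Z = 1 := by rw [mul_conj, normSq_eq_norm_sq, h]; simp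
  have h2 : Z ≠ 0 := left_ne_zero_of_mul_eq_one h'
  rw [mul_left_cancel₀ h2 (h'.trans h1.symm), add_conj]

theorem phi_norm {w : ℂ} (h : Phi w) : ‖w‖ = 1 := by
  have := congrArg norm h.five
  rw [norm_pow, norm_one] at this
  exact (pow_eq_one_iff_of_nonneg (norm_nonneg w) (by norm_num)).1 this

theorem coords {w : ℂ} (h : Phi w) (α : Fin 4 → ℂ) (hα : ∀ k, ‖α k‖ = 1) :
    ∃ r P Q : ℂ, ∃ C : ℝ, ‖r‖ = 1 ∧ ‖P‖ = 1 ∧ ‖Q‖ = 1 ∧ |C| ≤ 2 ∧ ∀ j : ℕ,
      fA (tw w j α) (fun _ => 1) = r * ((C - 2 * (w ^ (4 * j) * Q).re : ℝ) : ℂ) ∧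
      fC (tw w j α) (fun _ => 1) = r * ((2 * (w ^ (3 * j) * P).re - C : ℝ) : ℂ) := by
  obtain ⟨r, hr⟩ := IsAlgClosed.exists_pow_nat_eq (α 0 * α 1 * α 2 * α 3) two_pos
  have h1 : ‖r‖ = 1 := by
    have := congrArg norm hr
    simp only [norm_pow, norm_mul, hα, mul_one] at this
    exact (pow_eq_one_iff_of_nonneg (norm_nonneg r) (by norm_num)).1 this
  have h2 : r ≠ 0 := by
    rintro rfl
    simp at h1
  have hw := phi_norm h
  have nZ : ‖α 0 * α 2 / r‖ = 1 := by simp [hα, h1]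
  refine ⟨r, α 0 * α 1 / r, α 0 * α 3 / r, 2 * (α 0 * α 2 / r).re, h1, by simp [hα, h1],
    by simp [hα, h1], ?_, fun j => ?_⟩
  · have := abs_re_le_norm (α 0 * α 2 / r)
    rw [abs_mul, abs_two]
    linarith
  obtain ⟨W, hW⟩ : ∃ W, W = w ^ j := ⟨_, rfl⟩
  have h5 : W ^ 5 = 1 := by rw [hW, ← pow_mul, mul_comm, pow_mul, h.five, one_pow]
  have nW : ‖W‖ = 1 := by rw [hW, norm_pow, hw, one_pow]
  have e1 := two_re (T := α 1 * α 3 / r) nZ (by field_simp; linear_combination -hr)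
  have e2 := two_re (Z := W ^ 4 * (α 0 * α 3 / r)) (T := W * (α 1 * α 2 / r))
    (by simp [hα, h1, nW]) (by field_simp; linear_combination -hr + α 0 * α 1 * α 2 * α 3 * h5)
  have e3 := two_re (Z := W ^ 3 * (α 0 * α 1 / r)) (T := W ^ 2 * (α 2 * α 3 / r))
    (by simp [hα, h1, nW]) (by field_simp; linear_combination -hr + α 0 * α 1 * α 2 * α 3 * h5)
  rw [mul_comm 4 j, mul_comm 3 j, pow_mul, pow_mul, ← hW, ofReal_sub, ofReal_sub, e1, e2, e3]
  simp only [fA, fC, dd, tw, pow_mul, ← hW, ex, Matrix.cons_val_zero, Matrix.cons_val_one,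
    Matrix.cons_val]
  constructor
  · field_simp
    linear_combination (α 0 * α 2 + α 1 * α 3 - W * α 1 * α 2) * h5
  · field_simp
    linear_combination (-α 0 * α 2 - α 1 * α 3 + W ^ 2 * α 2 * α 3) * h5

theorem sq_re_im {P : ℂ} (h : ‖P‖ = 1) : P.re ^ 2 + P.im ^ 2 = 1 := by
  have := normSq_eq_norm_sq P
  rw [h, normSq_apply] at this
  linarith

theorem base {w : ℂ} (h : Phi w) (h1 : 0 < w.re) (h2 : 0 < w.im) :
    (2 * w.re) ^ 2 + 2 * w.re = 1 ∧ Cs (2 * w.re) w.im ∧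
    (∀ P : ℂ, ∀ j < 5, 2 * (w ^ (3 * j) * P).re = ra (2 * w.re) w.im P.re P.im j) ∧
    ∀ Q : ℂ, ∀ j < 5, 2 * (w ^ (4 * j) * Q).re = rb (2 * w.re) w.im Q.re Q.im j := by
  have h5 := h.five
  have n := sq_re_im (phi_norm h)
  have e := two_re (T := w ^ 4) (phi_norm h) (by linear_combination h5)
  have ss : (2 * w.re) ^ 2 + 2 * w.re = 1 := by
    have := h.ss
    rw [← e] at this
    exact_mod_cast this
  have e4 : w ^ 4 = ⟨w.re, -w.im⟩ := by
    have : w ^ 4 = ((2 * w.re : ℝ) : ℂ) - w := by rw [e]; ring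
    rw [this]
    apply Complex.ext <;> simp
    ring
  have e2 : w ^ 2 = ⟨-(1 + 2 * w.re) / 2, 2 * w.re * w.im⟩ := by
    rw [sq]
    apply Complex.ext <;> simp
    · linarith
    · ring
  have e3 : w ^ 3 = ⟨-(1 + 2 * w.re) / 2, -(2 * w.re * w.im)⟩ := by
    have : w ^ 3 = -1 - w - w ^ 2 - w ^ 4 := by rw [Phi] at h; linear_combination h
    rw [this, e2, e4]
    apply Complex.ext <;> simp <;> ring
  have p6 : w ^ 6 = w := by linear_combination w * h5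
  have p9 : w ^ 9 = w ^ 4 := by linear_combination w ^ 4 * h5
  have p12 : w ^ 12 = w ^ 2 := by linear_combination (w ^ 7 + w ^ 2) * h5
  have p8 : w ^ 8 = w ^ 3 := by linear_combination w ^ 3 * h5
  have p16 : w ^ 16 = w := by linear_combination (w ^ 11 + w ^ 6 + w) * h5
  refine ⟨ss, cs_of ss (by linarith) (by linarith) h2, fun P j hj => ?_, fun P j hj => ?_⟩
  · interval_cases j
    all_goals
      simp only [Nat.reduceMul, p6, p9, p12, p8, p16, e2, e3, e4, pow_zero, one_mul, mul_re, ra,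
        val, sa]
      push_cast
      ring
  · interval_cases j
    all_goals
      simp only [Nat.reduceMul, p6, p9, p12, p8, p16, e2, e3, e4, pow_zero, one_mul, mul_re, rb,
        val, sb]
      push_cast
      ring

def Pent (w P Q : ℂ) : Prop :=
  ∃ (s : ℝ) (a b : ℕ → ℝ), Cf s a b ∧
    ((w + w ^ 4 = s ∧ ∀ j < 5, 2 * (w ^ (3 * j) * P).re = a j ∧ 2 * (w ^ (4 * j) * Q).re = b j) ∨
     (w + w ^ 4 = -1 - s ∧ ∀ j < 5, 2 * (w ^ (3 * j) * P).re = b j ∧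
      2 * (w ^ (4 * j) * Q).re = a j))

theorem re_conj (w P : ℂ) (n : ℕ) :
    ((starRingEnd ℂ) w ^ n * (starRingEnd ℂ) P).re = (w ^ n * P).re := by
  rw [← map_pow, ← map_mul, conj_re]

theorem pent_pos {w P Q : ℂ} (h : Phi w) (hP : ‖P‖ = 1) (hQ : ‖Q‖ = 1) (h1 : 0 < w.re) :
    ∃ (s : ℝ) (a b : ℕ → ℝ), Cf s a b ∧ w + w ^ 4 = s ∧
      ∀ j < 5, 2 * (w ^ (3 * j) * P).re = a j ∧ 2 * (w ^ (4 * j) * Q).re = b j := by
  have e := two_re (T := w ^ 4) (phi_norm h) (by linear_combination h.five)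
  have key : ∀ w P Q : ℂ, Phi w → ‖P‖ = 1 → ‖Q‖ = 1 → 0 < w.re → 0 < w.im →
      ∃ a b : ℕ → ℝ, Cf (2 * w.re) a b ∧
        ∀ j < 5, 2 * (w ^ (3 * j) * P).re = a j ∧ 2 * (w ^ (4 * j) * Q).re = b j := by
    intro w P Q h hP hQ h1 h2
    obtain ⟨b1, b2, b3, b4⟩ := base h h1 h2
    exact ⟨_, _, ⟨b1, _, _, _, _, _, b2, sq_re_im hP, sq_re_im hQ, rfl, rfl⟩,
      fun j hj => ⟨b3 P j hj, b4 Q j hj⟩⟩
  rcases lt_trichotomy 0 w.im with h2 | h2 | h2
  · obtain ⟨a, b, h3, h4⟩ := key w P Q h hP hQ h1 h2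
    exact ⟨_, a, b, h3, e.symm, h4⟩
  · exfalso
    have n := sq_re_im (phi_norm h)
    have := h.ss
    rw [← e] at this
    have ss : (2 * w.re) ^ 2 + 2 * w.re = 1 := by exact_mod_cast this
    rw [← h2] at n
    nlinarith
  · obtain ⟨a, b, h3, h4⟩ := key ((starRingEnd ℂ) w) ((starRingEnd ℂ) P) ((starRingEnd ℂ) Q)
      (by simpa [Phi] using congrArg (starRingEnd ℂ) h) (by simpa using hP) (by simpa using hQ)
      (by simpa using h1) (by simpa using h2)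
    simp only [re_conj, conj_re] at h3 h4
    exact ⟨_, a, b, h3, e.symm, h4⟩

theorem Phi.pow {R : Type*} [CommRing R] {ζ : R} (h : Phi ζ) : Phi (ζ ^ 2) := by
  have h5 := h.five
  rw [Phi] at h ⊢
  linear_combination h + (ζ + ζ ^ 3) * h5

theorem pent {w P Q : ℂ} (h : Phi w) (hP : ‖P‖ = 1) (hQ : ‖Q‖ = 1) : Pent w P Q := by
  have h5 := h.five
  have e := two_re (T := w ^ 4) (phi_norm h) (by linear_combination h5)
  have ss : (2 * w.re) ^ 2 + 2 * w.re = 1 := by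
    have := h.ss
    rw [← e] at this
    exact_mod_cast this
  rcases lt_or_ge 0 w.re with h1 | h1
  · obtain ⟨s, a, b, h2, h3⟩ := pent_pos h hP hQ h1
    exact ⟨s, a, b, h2, Or.inl h3⟩
  have h8 : Phi (w ^ 3) := by
    rw [Phi] at h ⊢
    linear_combination h + (w + w ^ 4 + w ^ 2 + w ^ 7) * h5
  have e' := two_re (T := w ^ 2) (phi_norm h8) (by linear_combination h5)
  have e2 : 2 * (w ^ 3).re = -1 - 2 * w.re := by
    have : ((2 * (w ^ 3).re : ℝ) : ℂ) = -1 - ((2 * w.re : ℝ) : ℂ) := by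
      rw [e, e']
      rw [Phi] at h
      linear_combination h
    exact_mod_cast this
  obtain ⟨s, a, b, h2, h3, h4⟩ := pent_pos (P := Q) (Q := (starRingEnd ℂ) P) h8 hQ
    (by simpa using hP) (by nlinarith)
  refine ⟨s, a, b, h2, Or.inr ⟨?_, fun j hj => ⟨?_, ?_⟩⟩⟩
  · rw [← h3]
    rw [Phi] at h
    linear_combination h + (w ^ 7 + w ^ 2) * h5
  · rw [← (h4 j hj).2, ← re_conj, pow_mul, pow_mul (w ^ 3)]
    have : (starRingEnd ℂ) w = w ^ 4 := by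
      have := add_conj w
      rw [e] at this
      exact add_left_cancel this
    rw [this]
    congr 4
    ring
  · rw [← (h4 j hj).1, pow_mul, pow_mul (w ^ 3)]
    congr 4
    linear_combination -w ^ 4 * h5

/-- What the inequalities need at one complex place. -/
theorem arch {w : ℂ} (h : Phi w) (α : Fin 4 → ℂ) (hα : ∀ k, ‖α k‖ = 1) :
    ∃ (r : ℂ) (s C : ℝ) (a b : ℕ → ℝ), ‖r‖ = 1 ∧ Cf s a b ∧ |C| ≤ 2 ∧
    ((w + w ^ 4 = s ∧ ∀ j < 5, fA (tw w j α) (fun _ => 1) = r * ((C - b j : ℝ) : ℂ) ∧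
      fC (tw w j α) (fun _ => 1) = r * ((a j - C : ℝ) : ℂ)) ∨
     (w + w ^ 4 = -1 - s ∧ ∀ j < 5, fA (tw w j α) (fun _ => 1) = r * ((a j - C : ℝ) : ℂ) ∧
      fC (tw w j α) (fun _ => 1) = r * ((C - b j : ℝ) : ℂ))) := by
  obtain ⟨r, P, Q, C, h1, h2, h3, h4, h5⟩ := coords h α hα
  obtain ⟨s, a, b, h6, h7 | h7⟩ := pent h h2 h3
  · refine ⟨r, s, C, a, b, h1, h6, h4, Or.inl ⟨h7.1, fun j hj => ?_⟩⟩
    rw [← (h7.2 j hj).1, ← (h7.2 j hj).2]
    exact h5 j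
  · refine ⟨-r, s, C, a, b, by simpa using h1, h6, h4, Or.inr ⟨h7.1, fun j hj => ?_⟩⟩
    rw [← (h7.2 j hj).1, ← (h7.2 j hj).2, (h5 j).1, (h5 j).2]
    push_cast
    constructor <;> ring

end Pool.Agent.Lib.MP_f61260_nt.Ab
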