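import Mathlib

/-! An interval checker for products of linear forms on two circles and a segment. -/

set_option autoImplicit false

namespace Pool.Agent.Lib.MP_f61260_nt.Ab

noncomputable section

structure Bx where
  (m0 m1 m2 m3 m4 r0 r1 r2 r3 r4 : Nat)

structure Gm where
  (p0 p1 p2 p3 p4 n0 n1 n2 n3 n4 e : Nat)

def fN {α : Type} (n : Nat) (k : Nat → α) : α :=
  @Nat.rec (fun _ => α) (k 0) (fun m _ => k (Nat.succ m)) n

theorem fN_eq {α : Type} (n : Nat) (k : Nat → α) : fN n k = k n := by cases n <;> rfl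

def eP (f : Gm) (b : Bx) : Nat :=
  Nat.add (Nat.add (Nat.add (Nat.mul f.p0 b.m0) (Nat.mul f.p1 b.m1))
    (Nat.add (Nat.mul f.p2 b.m2) (Nat.mul f.p3 b.m3))) (Nat.mul f.p4 b.m4)

def eN (f : Gm) (b : Bx) : Nat :=
  Nat.add (Nat.add (Nat.add (Nat.mul f.n0 b.m0) (Nat.mul f.n1 b.m1))
    (Nat.add (Nat.mul f.n2 b.m2) (Nat.mul f.n3 b.m3))) (Nat.mul f.n4 b.m4)

def eR (f : Gm) (b : Bx) : Nat :=
  Nat.add (Nat.add (Nat.add (Nat.mul (Nat.add f.p0 f.n0) b.r0) (Nat.mul (Nat.add f.p1 f.n1) b.r1))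
    (Nat.add (Nat.mul (Nat.add f.p2 f.n2) b.r2) (Nat.mul (Nat.add f.p3 f.n3) b.r3)))
    (Nat.add (Nat.mul (Nat.add f.p4 f.n4) b.r4) f.e)

def eD (f : Gm) (b : Bx) : Nat :=
  fN (eP f b) fun P => fN (eN f b) fun N => Nat.add (Nat.sub P N) (Nat.sub N P)

def upL (b : Bx) (l : List (Gm × Nat)) : Nat :=
  @List.rec _ (fun _ => Nat) 1
    (fun x _ ih => Nat.mul (Nat.pow (Nat.add (eD x.1 b) (eR x.1 b)) x.2) ih) l

def nzL (b : Bx) (l : List (Gm × Nat)) : Bool :=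
  @List.rec _ (fun _ => Bool) true (fun x _ ih => Nat.blt (eR x.1 b) (eD x.1 b) && ih) l

def outL (b : Bx) (l : List (Gm × Nat)) : Bool :=
  @List.rec _ (fun _ => Bool) false
    (fun x _ ih => Nat.blt (Nat.add (eR x.1 b) 4398046511104) (eD x.1 b) || ih) l

def mulI (x : Int) (r : Nat) (y : Int × Nat) : Int × Nat :=
  (Int.mul x y.1, Nat.add (Nat.add (Nat.mul x.natAbs y.2) (Nat.mul y.1.natAbs r)) (Nat.mul r y.2))

def prI (b : Bx) (l : List (Gm × Nat)) : Int × Nat :=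
  @List.rec _ (fun _ => Int × Nat) (1, 0)
    (fun x _ ih => mulI (Int.subNatNat (eP x.1 b) (eN x.1 b)) (eR x.1 b) ih) l

def nzI (x y : Int × Nat) : Bool := Nat.blt (Nat.add x.2 y.2) (Int.add x.1 y.1).natAbs

def gy (x y : Int × Nat) : Bool :=
  nzI (mulI 1696632 1 x) (mulI 648056 1 y) && nzI (mulI 648056 1 x) (mulI 1696632 1 y)

def tst (K : Nat) (z g : Bool) (O L Z A C : List (Gm × Nat)) (b : Bx) : Bool :=
  outL b O || (Nat.ble (upL b L) K || (z && nzL b Z || g && gy (prI b A) (prI b C)))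

def uu (n : Nat) : Nat := Nat.div 2305843009213693952 (Nat.add 1099511627776 (Nat.mul n n))

def vv (n : Nat) : Nat := Nat.div (Nat.mul 2199023255552 n) (Nat.add 1099511627776 (Nat.mul n n))

def circ (n w : Nat) (k : Nat → Nat → Nat → Nat → Bool) : Bool :=
  fN (uu (Nat.add n w)) fun a => fN (Nat.succ (uu n)) fun a' => fN (vv n) fun b =>
    fN (Nat.succ (vv (Nat.add n w))) fun b' =>
      fN (Nat.sub (Nat.add a a') 2097152) fun m0 => fN (Nat.add b b') fun m1 =>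
        fN (Nat.sub a' a) fun r0 => fN (Nat.sub b' b) fun r1 => k m0 m1 r0 r1

def bx (T : Bx → Bool) (n1 w1 n2 w2 n3 w3 : Nat) : Bool :=
  circ n1 w1 fun m0 m1 r0 r1 => circ n2 w2 fun m2 m3 r2 r3 =>
    fN (Nat.add (Nat.mul 2 n3) w3) fun m4 => T ⟨m0, m1, m2, m3, m4, r0, r1, r2, r3, w3⟩

def spl (n w : Nat) (k : Nat → Nat → Bool) : Bool :=
  fN (Nat.div w 2) fun h => k n h && fN (Nat.add n h) fun n' => fN (Nat.sub w h) fun w' => k n' w'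

def rc (T : Bx → Bool) (three : Bool) (f : Nat) : Nat → Nat → Nat → Nat → Nat → Nat → Bool :=
  @Nat.rec (fun _ => Nat → Nat → Nat → Nat → Nat → Nat → Bool) (fun _ _ _ _ _ _ => false)
    (fun _ ih n1 w1 n2 w2 n3 w3 => bx T n1 w1 n2 w2 n3 w3 ||
      cond (three && Nat.ble (Nat.mul 2 w1) w3 && Nat.ble (Nat.mul 2 w2) w3)
        (spl n3 w3 fun n w => ih n1 w1 n2 w2 n w)
        (cond (Nat.ble w2 w1) (spl n1 w1 fun n w => ih n w n2 w2 n3 w3)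
          (spl n2 w2 fun n w => ih n1 w1 n w n3 w3))) f

/-- Symbolic linear forms with coefficients `x + y s`. -/
structure SF where
  (x0 y0 x1 y1 x2 y2 x3 y3 x4 y4 : Int)

def sg (s : Bool) (x : Int) : Int := cond s x (-x)

structure Sn where
  (s0 s1 s2 s3 s4 : Bool)

def enc (s : Sn) (f : SF) : Gm :=
  ⟨(sg s.s0 (f.x0 * 1048576 + f.y0 * 648056)).toNat, (sg s.s1 (f.x1 * 997255 + f.y1 * 616338)).toNat,
    (sg s.s2 (f.x2 * 1048576 + f.y2 * 648056)).toNat,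
    (sg s.s3 (f.x3 * 997255 + f.y3 * 616338)).toNat,
    (sg s.s4 (f.x4 * 1048576 + f.y4 * 648056)).toNat,
    (-sg s.s0 (f.x0 * 1048576 + f.y0 * 648056)).toNat,
    (-sg s.s1 (f.x1 * 997255 + f.y1 * 616338)).toNat,
    (-sg s.s2 (f.x2 * 1048576 + f.y2 * 648056)).toNat,
    (-sg s.s3 (f.x3 * 997255 + f.y3 * 616338)).toNat,
    (-sg s.s4 (f.x4 * 1048576 + f.y4 * 648056)).toNat,
    (f.y0.natAbs + (f.x1.natAbs + f.y1.natAbs) + f.y2.natAbs + (f.x3.natAbs + f.y3.natAbs) +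
      f.y4.natAbs) * 2097152⟩

def fG (g : Gm) (k : Gm → Bool) : Bool :=
  fN g.p0 fun p0 => fN g.p1 fun p1 => fN g.p2 fun p2 => fN g.p3 fun p3 => fN g.p4 fun p4 =>
    fN g.n0 fun n0 => fN g.n1 fun n1 => fN g.n2 fun n2 => fN g.n3 fun n3 => fN g.n4 fun n4 =>
      fN g.e fun e => k ⟨p0, p1, p2, p3, p4, n0, n1, n2, n3, n4, e⟩

theorem fG_eq (g : Gm) (k : Gm → Bool) : fG g k = k g := by simp only [fG, fN_eq]

def fL (s : Sn) (l : List (SF × Nat)) : (List (Gm × Nat) → Bool) → Bool :=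
  @List.rec _ (fun _ => (List (Gm × Nat) → Bool) → Bool) (fun k => k [])
    (fun x _ ih k => fG (enc s x.1) fun g => fN x.2 fun e => ih fun l' => k ((g, e) :: l')) l

def eL (s : Sn) (l : List (SF × Nat)) : List (Gm × Nat) := l.map fun x => (enc s x.1, x.2)

theorem fL_eq (s : Sn) (l : List (SF × Nat)) (k : List (Gm × Nat) → Bool) :
    fL s l k = k (eL s l) := by
  induction l generalizing k with
  | nil => rfl
  | cons x l ih =>
    show fG (enc s x.1) (fun g => fN x.2 fun e => fL s l fun l' => k ((g, e) :: l')) = _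
    rw [fG_eq, fN_eq, ih]
    rfl

structure Pb where
  (K : Nat)
  (three z g : Bool)
  (O L Z A C : List (SF × Nat))

def run (P : Pb) (s : Sn) : Bool :=
  fN P.K fun K => fL s P.O fun O => fL s P.L fun L => fL s P.Z fun Z => fL s P.A fun A =>
    fL s P.C fun C => rc (tst K P.z P.g O L Z A C) P.three 45 0 1048576 0 1048576 0 1048576

def SF.add (f g : SF) : SF :=
  ⟨f.x0 + g.x0, f.y0 + g.y0, f.x1 + g.x1, f.y1 + g.y1, f.x2 + g.x2, f.y2 + g.y2,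
    f.x3 + g.x3, f.y3 + g.y3, f.x4 + g.x4, f.y4 + g.y4⟩

def SF.neg (f : SF) : SF :=
  ⟨-f.x0, -f.y0, -f.x1, -f.y1, -f.x2, -f.y2, -f.x3, -f.y3, -f.x4, -f.y4⟩

def SF.ms (f : SF) : SF :=
  ⟨f.y0, f.x0 - f.y0, f.y1, f.x1 - f.y1, f.y2, f.x2 - f.y2, f.y3, f.x3 - f.y3, f.y4, f.x4 - f.y4⟩

def sa : Nat → SF
  | 0 => ⟨2, 0, 0, 0, 0, 0, 0, 0, 0, 0⟩
  | 1 => ⟨-1, -1, 0, 2, 0, 0, 0, 0, 0, 0⟩
  | 2 => ⟨0, 1, -2, 0, 0, 0, 0, 0, 0, 0⟩
  | 3 => ⟨0, 1, 2, 0, 0, 0, 0, 0, 0, 0⟩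
  | _ => ⟨-1, -1, 0, -2, 0, 0, 0, 0, 0, 0⟩

def sb : Nat → SF
  | 0 => ⟨0, 0, 0, 0, 2, 0, 0, 0, 0, 0⟩
  | 1 => ⟨0, 0, 0, 0, 0, 1, 2, 0, 0, 0⟩
  | 2 => ⟨0, 0, 0, 0, -1, -1, 0, 2, 0, 0⟩
  | 3 => ⟨0, 0, 0, 0, -1, -1, 0, -2, 0, 0⟩
  | _ => ⟨0, 0, 0, 0, 0, 1, -2, 0, 0, 0⟩

def c3 : SF := ⟨0, 0, 0, 0, 0, 0, 0, 0, 2, 0⟩

def c2 : SF := ⟨0, -2, 0, 0, 2, 2, 0, 0, 0, 0⟩

def sA (c : SF) (j : Nat) : SF := c.add (sb j).neg

def sC (c : SF) (j : Nat) : SF := (sa j).add c.neg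

def sB (j : Nat) : SF := (sa j).add (sb j).neg

def sP (c : SF) (j : Nat) : SF := (sA c j).add (sB j).ms

def sM (c : SF) (j : Nat) : SF := (sC c j).add (sB j).ms

def P1 : Pb :=
  ⟨13803 * 2 ^ 410, true, false, false, [], [(sP c3 0, 1), (sM c3 0, 1), (sP c3 1, 1), (sM c3 1, 1),
    (sP c3 2, 1), (sM c3 2, 1), (sP c3 3, 1), (sM c3 3, 1), (sP c3 4, 1), (sM c3 4, 1)], [], [], []⟩

def P2 : Pb :=
  ⟨67 * 2 ^ 200, false, true, false, [(c2, 1)],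
    [(sB 0, 1), (sB 1, 1), (sB 2, 1), (sB 3, 1), (sB 4, 1)], [(sP c2 1, 1), (sP c2 4, 1)], [], []⟩

def P3 : Pb :=
  ⟨33656 * 2 ^ 656, false, false, false, [(c2, 1)],
    [(sB 0, 4), (sB 2, 1), (sB 3, 1), (sP c2 1, 2), (sP c2 4, 2), (sM c2 1, 2), (sM c2 4, 2),
      (sM c2 2, 1), (sM c2 3, 1)], [], [], []⟩

def P4 : Pb :=
  ⟨761 * 2 ^ 943, false, true, true, [(c2, 1)],
    [(sB 0, 5), (sB 1, 3), (sB 4, 3), (sB 2, 4), (sB 3, 4), (sP c2 1, 2), (sP c2 4, 2)],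
    [(sM c2 1, 1), (sM c2 2, 1), (sM c2 3, 1), (sM c2 4, 1)],
    [(sA c2 0, 1), (sA c2 1, 1), (sA c2 2, 1), (sA c2 3, 1), (sA c2 4, 1)],
    [(sC c2 0, 1), (sC c2 1, 1), (sC c2 2, 1), (sC c2 3, 1), (sC c2 4, 1)]⟩

def all8 (P : Pb) (s4 : Bool) : Bool :=
  run P ⟨true, true, true, true, s4⟩ && run P ⟨true, true, true, false, s4⟩ &&
    run P ⟨true, true, false, true, s4⟩ && run P ⟨true, true, false, false, s4⟩ &&
    run P ⟨true, false, true, true, s4⟩ && run P ⟨true, false, true, false, s4⟩ &&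
    run P ⟨true, false, false, true, s4⟩ && run P ⟨true, false, false, false, s4⟩

end

end Pool.Agent.Lib.MP_f61260_nt.Ab
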