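import Pool.Agent.Lib.MP_f61260_nt.Ab.Arch

/-! Four conjugates at a level divisible by five. -/

set_option autoImplicit false
set_option linter.unusedSectionVars false
set_option linter.unusedSimpArgs false
set_option exponentiation.threshold 2000

namespace Pool.Agent.Lib.MP_f61260_nt.Ab

section

variable {R : Type*} [CommRing R] {ζ : R}

def tA (ζ : R) (x y : Fin 4 → R) (j : ℕ) : R := fA (tw ζ j x) y

def tC (ζ : R) (x y : Fin 4 → R) (j : ℕ) : R := fC (tw ζ j x) y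

def tB (ζ : R) (x y : Fin 4 → R) (j : ℕ) : R := tA ζ x y j + tC ζ x y j

def tP (ζ : R) (x y : Fin 4 → R) (j : ℕ) : R := tA ζ x y j + (ζ + ζ ^ 4) * tB ζ x y j

def tM (ζ : R) (x y : Fin 4 → R) (j : ℕ) : R := tC ζ x y j + (ζ + ζ ^ 4) * tB ζ x y j

def p5 (x : Fin 4 → R) : Fin 4 → R := fun k => x k ^ 5

theorem dd5 (h : Phi ζ) (x y : Fin 4 → R) (k l : Fin 4) {η : R} (h1 : Phi η)
    (h2 : ζ ^ ex l = ζ ^ ex k * η) :
    dd (tw ζ 0 x) y k l * dd (tw ζ 1 x) y k l * dd (tw ζ 2 x) y k l * dd (tw ζ 3 x) y k l *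
      dd (tw ζ 4 x) y k l = dd (p5 x) (p5 y) k l := by
  have hu : (ζ ^ ex k) ^ 5 = 1 := by rw [← pow_mul, mul_comm, pow_mul, h.five, one_pow]
  simp only [dd, tw, p5, pow_mul', h2]
  linear_combination (ζ ^ ex k) ^ 10 * prod5 h1 (x k * y l) (x l * y k) +
    ((x k * y l) ^ 5 - (x l * y k) ^ 5) * ((ζ ^ ex k) ^ 5 + 1) * hu

theorem Phi.pow3 (h : Phi ζ) : Phi (ζ ^ 3) := by
  have h5 := h.five
  rw [Phi] at h ⊢
  linear_combination h + (ζ + ζ ^ 4 + ζ ^ 2 + ζ ^ 7) * h5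

theorem prA (h : Phi ζ) (x y : Fin 4 → R) : fA (p5 x) (p5 y) =
    tA ζ x y 0 * tA ζ x y 1 * tA ζ x y 2 * tA ζ x y 3 * tA ζ x y 4 := by
  rw [fA, ← dd5 h x y 0 1 h (by simp [ex, sq]), ← dd5 h x y 2 3 h.pow.pow
    (by simp only [ex, Matrix.cons_val]; linear_combination -ζ ^ 3 * h.five)]
  simp only [tA, fA]
  ring

theorem prC (h : Phi ζ) (x y : Fin 4 → R) : fC (p5 x) (p5 y) =
    tC ζ x y 0 * tC ζ x y 1 * tC ζ x y 2 * tC ζ x y 3 * tC ζ x y 4 := by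
  rw [fC, ← dd5 h x y 0 3 h.pow (by simp only [ex, Matrix.cons_val]; ring), ← dd5 h x y 1 2 h.pow
    (by simp only [ex, Matrix.cons_val]; ring)]
  simp only [tC, fC]
  ring

theorem pl (x y : Fin 4 → R) : fA x y + fC x y = dd x y 0 2 * dd x y 1 3 := by
  simp only [fA, fC, dd]
  ring

theorem prB (h : Phi ζ) (x y : Fin 4 → R) : fA (p5 x) (p5 y) + fC (p5 x) (p5 y) =
    tB ζ x y 0 * tB ζ x y 1 * tB ζ x y 2 * tB ζ x y 3 * tB ζ x y 4 := by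
  rw [pl, ← dd5 h x y 0 2 h.pow3 (by simp only [ex, Matrix.cons_val]; ring), ← dd5 h x y 1 3 h
    (by simp only [ex, Matrix.cons_val]; ring)]
  simp only [tB, tA, tC, pl]
  ring

theorem tw_tw (ζ : R) (i j : ℕ) (x : Fin 4 → R) : tw ζ j (tw ζ i x) = tw ζ (j + i) x := by
  funext k
  simp only [tw]
  ring

theorem tw_sq (ζ : R) (j : ℕ) (x : Fin 4 → R) : tw (ζ ^ 2) j x = tw ζ (2 * j) x := by
  funext k
  simp only [tw]
  ring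

theorem p5_tw (h : Phi ζ) (j : ℕ) (x : Fin 4 → R) : p5 (tw ζ j x) = p5 x := by
  funext k
  simp only [p5, tw]
  rw [mul_pow, ← pow_mul, mul_comm _ 5, pow_mul, h.five, one_pow, one_mul]

def Wt (I : Ideal R) (μ a : R) (d e : ℕ) : Prop := a ∈ I ^ d ∧ μ ^ e ∣ a

theorem Wt.mul {I : Ideal R} {μ a b : R} {d e d' e' : ℕ} (h : Wt I μ a d e) (h' : Wt I μ b d' e') :
    Wt I μ (a * b) (d + d') (e + e') :=
  ⟨pow_add I d d' ▸ Ideal.mul_mem_mul h.1 h'.1, pow_add μ e e' ▸ mul_dvd_mul h.2 h'.2⟩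

theorem Wt.pow {I : Ideal R} {μ a : R} {d e : ℕ} (h : Wt I μ a d e) (n : ℕ) :
    Wt I μ (a ^ n) (d * n) (e * n) :=
  ⟨pow_mul I d n ▸ Ideal.pow_mem_pow h.1 n, pow_mul μ e n ▸ pow_dvd_pow_of_dvd h.2 n⟩

end

variable {R E : Type*} [CommRing R]

structure Hyp (em : E → R →+* ℂ) (ζ : R) (x y : Fin 4 → R) (J : Fin 4 → Ideal (R)) : Prop where
  phi : Phi ζ
  mx : ∀ k, x k ∈ J k
  my : ∀ k, y k ∈ J k
  y0 : ∀ σ k, em σ (y k) ≠ 0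
  un : ∀ σ k, ‖em σ (x k)‖ = ‖em σ (y k)‖
  dA : ∀ j, 1 + 2 * (ζ + ζ ^ 4) ∣ tA ζ x y j
  dC : ∀ j, 1 + 2 * (ζ + ζ ^ 4) ∣ tC ζ x y j
  dH : ∀ j, (5 : R) ∣ tA ζ x y j - tC ζ x y j
  nA : ∀ j, tA ζ x y j ≠ 0
  nC : ∀ j, tC ζ x y j ≠ 0
  d5 : (125 : R) ∣ fA (p5 x) (p5 y) - fC (p5 x) (p5 y)

variable {em : E → R →+* ℂ} {ζ : R} {x y : Fin 4 → R} {J : Fin 4 → Ideal (R)}

theorem phi_emb (h : Phi ζ) (σ : R →+* ℂ) : Phi (σ ζ) := by
  simpa [Phi] using congrArg σ h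

theorem Hyp.tw (h : Hyp em ζ x y J) (i : ℕ) : Hyp em ζ (tw ζ i x) y J where
  phi := h.phi
  mx k := Ideal.mul_mem_left _ _ (h.mx k)
  my := h.my
  y0 := h.y0
  un σ k := by simp [Ab.tw, phi_norm (phi_emb h.phi (em σ)), h.un]
  dA j := by simpa only [tA, tw_tw] using h.dA (j + i)
  dC j := by simpa only [tC, tw_tw] using h.dC (j + i)
  dH j := by simpa only [tA, tC, tw_tw] using h.dH (j + i)
  nA j := by simpa only [tA, tw_tw] using h.nA (j + i)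
  nC j := by simpa only [tC, tw_tw] using h.nC (j + i)
  d5 := by rw [p5_tw h.phi]; exact h.d5

theorem Hyp.sq (h : Hyp em ζ x y J) : Hyp em (ζ ^ 2) x y J := by
  have e : 1 + 2 * (ζ ^ 2 + (ζ ^ 2) ^ 4) = -(1 + 2 * (ζ + ζ ^ 4)) := by
    have h1 := h.phi
    have h5 := h1.five
    rw [Phi] at h1
    linear_combination 2 * h1 + 2 * ζ ^ 3 * h5
  refine ⟨h.phi.pow, h.mx, h.my, h.y0, h.un, fun j => ?_, fun j => ?_, fun j => ?_, fun j => ?_,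
    fun j => ?_, h.d5⟩
  · rw [e, neg_dvd]
    simpa only [tA, tw_sq] using h.dA (2 * j)
  · rw [e, neg_dvd]
    simpa only [tC, tw_sq] using h.dC (2 * j)
  · simpa only [tA, tC, tw_sq] using h.dH (2 * j)
  · simpa only [tA, tw_sq] using h.nA (2 * j)
  · simpa only [tC, tw_sq] using h.nC (2 * j)

theorem Hyp.wt (h : Hyp em ζ x y J) (j : ℕ) :
    Wt (J 0 * J 1 * J 2 * J 3) (1 + 2 * (ζ + ζ ^ 4)) (tA ζ x y j) 1 1 ∧
    Wt (J 0 * J 1 * J 2 * J 3) (1 + 2 * (ζ + ζ ^ 4)) (tC ζ x y j) 1 1 ∧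
    Wt (J 0 * J 1 * J 2 * J 3) (1 + 2 * (ζ + ζ ^ 4)) (tB ζ x y j) 1 1 ∧
    Wt (J 0 * J 1 * J 2 * J 3) (1 + 2 * (ζ + ζ ^ 4)) (tP ζ x y j) 1 2 ∧
    Wt (J 0 * J 1 * J 2 * J 3) (1 + 2 * (ζ + ζ ^ 4)) (tM ζ x y j) 1 2 := by
  have m : ∀ k l, dd (Ab.tw ζ j x) y k l ∈ J k * J l := fun k l =>
    sub_mem (Ideal.mul_mem_mul ((h.tw j).mx k) (h.my l))
      (Ideal.mul_mem_mul_rev (h.my k) ((h.tw j).mx l))
  have a : tA ζ x y j ∈ J 0 * J 1 * J 2 * J 3 := by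
    rw [mul_assoc (J 0 * J 1)]
    exact Ideal.mul_mem_mul (m 0 1) (m 2 3)
  have c : tC ζ x y j ∈ J 0 * J 1 * J 2 * J 3 := by
    rw [show J 0 * J 1 * J 2 * J 3 = J 0 * J 3 * (J 1 * J 2) by ring]
    exact Ideal.mul_mem_mul (m 0 3) (m 1 2)
  obtain ⟨u, hu⟩ := h.dH j
  obtain ⟨v, hv⟩ := h.dC j
  have e := h.phi.mu
  simp only [Wt, pow_one]
  refine ⟨⟨a, h.dA j⟩, ⟨c, h.dC j⟩, ⟨add_mem a c, dvd_add (h.dA j) (h.dC j)⟩,
    ⟨add_mem a (Ideal.mul_mem_left _ _ (add_mem a c)), (1 + (ζ + ζ ^ 4)) * u + v, ?_⟩,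
    ⟨add_mem c (Ideal.mul_mem_left _ _ (add_mem a c)), (ζ + ζ ^ 4) * u + v, ?_⟩⟩
  · simp only [tP, tB]
    linear_combination (1 + (ζ + ζ ^ 4)) * hu + (1 + 2 * (ζ + ζ ^ 4)) * hv -
      (1 + (ζ + ζ ^ 4)) * u * e
  · simp only [tM, tB]
    linear_combination (ζ + ζ ^ 4) * hu + (1 + 2 * (ζ + ζ ^ 4)) * hv - (ζ + ζ ^ 4) * u * e

noncomputable def nn (y : Fin 4 → R) (σ : R →+* ℂ) : ℝ :=
  ‖σ (y 0)‖ * ‖σ (y 1)‖ * ‖σ (y 2)‖ * ‖σ (y 3)‖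

theorem Hyp.pos (h : Hyp em ζ x y J) (τ : E) : 0 < nn y (em τ) := by
  have : ∀ k, 0 < ‖em τ (y k)‖ := fun k => norm_pos_iff.2 (h.y0 τ k)
  exact mul_pos (mul_pos (mul_pos (this 0) (this 1)) (this 2)) (this 3)

theorem Hyp.loc (h : Hyp em ζ x y J) (τ : E) {σ : R →+* ℂ} (hσ : σ = em τ) :
    ∃ (s C : ℝ) (a b : ℕ → ℝ), Cf s a b ∧ |C| ≤ 2 ∧
      (∀ j < 5, ‖σ (tB ζ x y j)‖ = nn y σ * |a j - b j| ∧
        ‖σ (tP ζ x y j)‖ = nn y σ * |gP s a b C j| ∧ ‖σ (tM ζ x y j)‖ = nn y σ * |gM s a b C j|) ∧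
      ∃ (r : ℂ) (α γ : ℝ), ‖r‖ = nn y σ ^ 5 ∧ σ (fA (p5 x) (p5 y) : R) = r * α ∧
        σ (fC (p5 x) (p5 y) : R) = r * γ ∧
        α ^ 2 + 3 * α * γ + γ ^ 2 = ((C - b 0) * (C - b 1) * (C - b 2) * (C - b 3) * (C - b 4)) ^ 2 +
          3 * ((C - b 0) * (C - b 1) * (C - b 2) * (C - b 3) * (C - b 4)) *
            ((a 0 - C) * (a 1 - C) * (a 2 - C) * (a 3 - C) * (a 4 - C)) +
          ((a 0 - C) * (a 1 - C) * (a 2 - C) * (a 3 - C) * (a 4 - C)) ^ 2 := by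
  have y0 : ∀ k, σ (y k) ≠ 0 := fun k => hσ ▸ h.y0 τ k
  obtain ⟨r, s, C, a, b, h1, h2, h3, h4⟩ := arch (phi_emb h.phi σ) (fun k => σ (x k) / σ (y k))
    fun k => by rw [norm_div, hσ, h.un, div_self (norm_ne_zero_iff.2 (h.y0 τ k))]
  obtain ⟨ρ, hρ⟩ : ∃ ρ, ρ = σ (y 0) * σ (y 1) * σ (y 2) * σ (y 3) * r := ⟨_, rfl⟩
  have nρ : ‖ρ‖ = nn y σ := by simp [hρ, nn, h1]
  have eA : ∀ j, σ (tA ζ x y j) = σ (y 0) * σ (y 1) * σ (y 2) * σ (y 3) *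
      fA (Ab.tw (σ ζ) j fun k => σ (x k) / σ (y k)) fun _ => 1 := by
    intro j
    have := y0 0; have := y0 1; have := y0 2; have := y0 3
    simp only [tA, fA, dd, Ab.tw, map_mul, map_sub, map_pow]
    field_simp
  have eC : ∀ j, σ (tC ζ x y j) = σ (y 0) * σ (y 1) * σ (y 2) * σ (y 3) *
      fC (Ab.tw (σ ζ) j fun k => σ (x k) / σ (y k)) fun _ => 1 := by
    intro j
    have := y0 0; have := y0 1; have := y0 2; have := y0 3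
    simp only [tC, fC, dd, Ab.tw, map_mul, map_sub, map_pow]
    field_simp
  have nr : ∀ (z : ℂ) (t : ℝ), z = ρ * t ∨ z = -(ρ * t) → ‖z‖ = nn y σ * |t| := by
    rintro z t (rfl | rfl) <;> simp [nρ]
  refine ⟨s, C, a, b, h2, h3, ?_⟩
  rw [prA h.phi, prC h.phi]
  rcases h4 with ⟨h4, h5⟩ | ⟨h4, h5⟩
  · have f1 : ∀ j < 5, σ (tA ζ x y j) = ρ * ((C - b j : ℝ) : ℂ) := fun j hj => by
      rw [eA, (h5 j hj).1, hρ]; ring
    have f2 : ∀ j < 5, σ (tC ζ x y j) = ρ * ((a j - C : ℝ) : ℂ) := fun j hj => by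
      rw [eC, (h5 j hj).2, hρ]; ring
    refine ⟨fun j hj => ⟨nr _ _ (Or.inl ?_), nr _ _ (Or.inl ?_), nr _ _ (Or.inl ?_)⟩, ρ ^ 5, _, _,
      by rw [norm_pow, nρ], ?_, ?_, rfl⟩
    rotate_left 3
    · simp only [map_mul, f1, Nat.ofNat_pos, Nat.one_lt_ofNat, Nat.reduceLT]
      push_cast
      ring
    · simp only [map_mul, f2, Nat.ofNat_pos, Nat.one_lt_ofNat, Nat.reduceLT]
      push_cast
      ring
    all_goals
      simp only [tP, tM, tB, gP, gM, map_add, map_mul, map_pow, f1 j hj, f2 j hj, h4]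
      push_cast
      ring
  · have f1 : ∀ j < 5, σ (tA ζ x y j) = ρ * ((a j - C : ℝ) : ℂ) := fun j hj => by
      rw [eA, (h5 j hj).1, hρ]; ring
    have f2 : ∀ j < 5, σ (tC ζ x y j) = ρ * ((C - b j : ℝ) : ℂ) := fun j hj => by
      rw [eC, (h5 j hj).2, hρ]; ring
    refine ⟨fun j hj => ⟨nr _ _ (Or.inl ?_), nr _ _ (Or.inr ?_), nr _ _ (Or.inr ?_)⟩, ρ ^ 5,
      (a 0 - C) * (a 1 - C) * (a 2 - C) * (a 3 - C) * (a 4 - C),
      (C - b 0) * (C - b 1) * (C - b 2) * (C - b 3) * (C - b 4),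
      by rw [norm_pow, nρ], ?_, ?_, by ring⟩
    rotate_left 3
    · simp only [map_mul, f1, Nat.ofNat_pos, Nat.one_lt_ofNat, Nat.reduceLT]
      push_cast
      ring
    · simp only [map_mul, f2, Nat.ofNat_pos, Nat.one_lt_ofNat, Nat.reduceLT]
      push_cast
      ring
    all_goals
      simp only [tP, tM, tB, gP, gM, map_add, map_mul, map_pow, f1 j hj, f2 j hj, h4]
      push_cast
      ring

theorem Hyp.d2 (h : Hyp em ζ x y J) (τ : E) (k l : Fin 4) :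
    ‖em τ (dd (p5 x) (p5 y) k l)‖ ≤ 2 * (‖em τ (y k)‖ * ‖em τ (y l)‖) ^ 5 := by
  simp only [dd, p5, map_sub, map_mul, map_pow]
  refine (norm_sub_le _ _).trans_eq ?_
  simp only [norm_mul, norm_pow, h.un]
  ring

theorem Hyp.d4 (h : Hyp em ζ x y J) (τ : E) :
    ‖em τ (fA (p5 x) (p5 y))‖ ≤ nn y (em τ) ^ 5 * 4 ∧
    ‖em τ (fC (p5 x) (p5 y))‖ ≤ nn y (em τ) ^ 5 * 4 ∧
    ‖em τ (fA (p5 x) (p5 y) + fC (p5 x) (p5 y))‖ ≤ nn y (em τ) ^ 5 * 4 := by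
  rw [pl]
  simp only [fA, fC, map_mul, norm_mul, nn]
  refine ⟨(mul_le_mul (h.d2 τ 0 1) (h.d2 τ 2 3) (norm_nonneg _) (by positivity)).trans_eq ?_,
    (mul_le_mul (h.d2 τ 0 3) (h.d2 τ 1 2) (norm_nonneg _) (by positivity)).trans_eq ?_,
    (mul_le_mul (h.d2 τ 0 2) (h.d2 τ 1 3) (norm_nonneg _) (by positivity)).trans_eq ?_⟩ <;> ring

def Ky (em : E → R →+* ℂ) (y : Fin 4 → R) (J : Fin 4 → Ideal R) (G : Prop) : Prop :=
  ∀ (μ W : R) (d e : ℕ) (S : ℝ), μ ^ 2 = 5 → W ≠ 0 → Wt (J 0 * J 1 * J 2 * J 3) μ W d e →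
    (∀ τ, ‖em τ W‖ ≤ S * nn y (em τ) ^ d) → d ≠ 0 → 0 < S →
    (179 / 25) ^ (2 * d) * S ^ 6 ≤ 5 ^ (3 * e) → G

def fG5 (x y : Fin 4 → R) : R :=
  fA (p5 x) (p5 y) ^ 2 + 3 * fA (p5 x) (p5 y) * fC (p5 x) (p5 y) + fC (p5 x) (p5 y) ^ 2

variable {G : Prop}

theorem Hyp.c0 (h : Hyp em ζ x y J) (hk : Ky em y J G) (h0 : fG5 x y ≠ 0) : G := by
  have a := prA h.phi x y ▸ ((((h.wt 0).1.mul (h.wt 1).1).mul (h.wt 2).1).mul (h.wt 3).1).mul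
    (h.wt 4).1
  have c := prC h.phi x y ▸ ((((h.wt 0).2.1.mul (h.wt 1).2.1).mul (h.wt 2).2.1).mul
    (h.wt 3).2.1).mul (h.wt 4).2.1
  refine hk _ _ 10 12 20 h.phi.mu h0 ⟨?_, ?_⟩ (fun τ => ?_) (by norm_num) (by norm_num)
    (by norm_num)
  · refine add_mem (add_mem (a.pow 2).1 ?_) (c.pow 2).1
    rw [mul_assoc 3]
    exact Ideal.mul_mem_left _ _ (a.mul c).1
  · obtain ⟨u, hu⟩ := h.d5
    obtain ⟨v, hv⟩ := (a.mul c).2
    have e := h.phi.mu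
    obtain ⟨μ, hμ⟩ : ∃ μ, μ = 1 + 2 * (ζ + ζ ^ 4) := ⟨_, rfl⟩
    rw [← hμ] at hv e ⊢
    refine ⟨u ^ 2 + v, ?_⟩
    have e12 : μ ^ 12 = 125 ^ 2 := by rw [show 12 = 2 * 6 by rfl, pow_mul, e]; norm_num
    rw [fG5]
    linear_combination (fA (p5 x) (p5 y) - fC (p5 x) (p5 y) + 125 * u) * hu + 5 * hv -
      u ^ 2 * e12 - μ ^ 10 * v * e
  · obtain ⟨s, C, a, b, -, -, -, r, α, γ, h1, h2, h3, -⟩ := h.loc τ rfl
    obtain ⟨h4, h5, h6⟩ := h.d4 τ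
    have p := pow_pos (h.pos τ) 5
    rw [map_add, h2, h3, ← mul_add, ← Complex.ofReal_add] at h6
    rw [h2] at h4
    rw [h3] at h5
    rw [norm_mul, h1, Complex.norm_real, Real.norm_eq_abs] at h4 h5 h6
    have := r0 (le_of_mul_le_mul_left h4 p) (le_of_mul_le_mul_left h5 p)
      (le_of_mul_le_mul_left h6 p)
    have e : em τ (fG5 x y) = r ^ 2 * ((α ^ 2 + 3 * α * γ + γ ^ 2 : ℝ) : ℂ) := by
      simp only [fG5, map_add, map_mul, map_pow, map_ofNat, h2, h3]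
      push_cast
      ring
    rw [e, norm_mul, norm_pow, h1, Complex.norm_real, Real.norm_eq_abs, ← pow_mul, mul_comm]
    exact mul_le_mul_of_nonneg_right this (pow_pos (h.pos τ) _).le

variable [IsDomain R]

theorem Hyp.c1 (h : Hyp em ζ x y J) (hk : Ky em y J G)
    (h0 : ∀ j, tP ζ x y j ≠ 0 ∧ tM ζ x y j ≠ 0) : G := by
  have w := fun j => (h.wt j).2.2.2.1.mul (h.wt j).2.2.2.2
  have n := fun j => mul_ne_zero (h0 j).1 (h0 j).2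
  refine hk _ _ _ _ 13803 h.phi.mu
    (mul_ne_zero (mul_ne_zero (mul_ne_zero (mul_ne_zero (n 0) (n 1)) (n 2)) (n 3)) (n 4))
    (((((w 0).mul (w 1)).mul (w 2)).mul (w 3)).mul (w 4)) (fun τ => ?_) (by norm_num) (by norm_num)
    (by norm_num)
  obtain ⟨s, C, a, b, h1, h2, h3, -⟩ := h.loc τ rfl
  simp only [map_mul, norm_mul, h3, Nat.ofNat_pos, Nat.one_lt_ofNat, Nat.reduceLT]
  refine le_of_eq_of_le ?_ (mul_le_mul_of_nonneg_right (r1 h1 h2) (pow_pos (h.pos τ) _).le)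
  ring

theorem Hyp.nB (h : Hyp em ζ x y J) (h0 : fG5 x y = 0) :
    tB ζ x y 0 ≠ 0 ∧ tB ζ x y 1 ≠ 0 ∧ tB ζ x y 2 ≠ 0 ∧ tB ζ x y 3 ≠ 0 ∧ tB ζ x y 4 ≠ 0 := by
  have h1 : fA (p5 x) (p5 y) + fC (p5 x) (p5 y) ≠ 0 := by
    intro h1
    have h2 : fA (p5 x) (p5 y) * fC (p5 x) (p5 y) = 0 := by
      rw [fG5] at h0
      linear_combination h0 - (fA (p5 x) (p5 y) + fC (p5 x) (p5 y)) * h1
    rw [prA h.phi, prC h.phi] at h2
    simp [h.nA, h.nC] at h2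
  rw [prB h.phi] at h1
  simp only [ne_eq, mul_eq_zero, not_or] at h1
  tauto

omit [IsDomain R] in
theorem Hyp.van (h : Hyp em ζ x y J) (τ : E) {W : R} {t : ℝ} (h0 : W = 0)
    (h1 : ‖em τ W‖ = nn y (em τ) * |t|) : t = 0 := by
  rw [h0, map_zero, norm_zero, eq_comm, mul_eq_zero, abs_eq_zero] at h1
  exact h1.resolve_left (h.pos τ).ne'

theorem Hyp.c2 (h : Hyp em ζ x y J) (hk : Ky em y J G) (h0 : fG5 x y = 0)
    (hP : tP ζ x y 0 = 0) : G := by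
  obtain ⟨n0, n1, n2, n3, n4⟩ := h.nB h0
  have wB := fun j => (h.wt j).2.2.1
  have wP := fun j => (h.wt j).2.2.2.1
  have wM := fun j => (h.wt j).2.2.2.2
  by_cases hz : tP ζ x y 1 = 0 ∨ tP ζ x y 4 = 0
  · refine hk _ _ _ _ (67 / 32) h.phi.mu
      (mul_ne_zero (mul_ne_zero (mul_ne_zero (mul_ne_zero n0 n1) n2) n3) n4)
      (((((wB 0).mul (wB 1)).mul (wB 2)).mul (wB 3)).mul (wB 4)) (fun τ => ?_) (by norm_num)
      (by norm_num) (by norm_num)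
    obtain ⟨s, C, a, b, h1, h2, h3, -⟩ := h.loc τ rfl
    simp only [map_mul, norm_mul, h3, Nat.ofNat_pos, Nat.one_lt_ofNat, Nat.reduceLT]
    refine le_of_eq_of_le ?_ (mul_le_mul_of_nonneg_right (r2 h1 h2
      (h.van τ hP (h3 0 (by norm_num)).2.1) (hz.imp (fun e => h.van τ e (h3 1 (by norm_num)).2.1)
        fun e => h.van τ e (h3 4 (by norm_num)).2.1)) (pow_pos (h.pos τ) _).le)
    ring
  obtain ⟨p1, p4⟩ := not_or.1 hz
  by_cases hm : tM ζ x y 1 = 0 ∨ tM ζ x y 2 = 0 ∨ tM ζ x y 3 = 0 ∨ tM ζ x y 4 = 0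
  · refine hk _ _ _ _ 761 h.phi.mu
      (mul_ne_zero (mul_ne_zero (mul_ne_zero (pow_ne_zero 5 n0)
        (pow_ne_zero 3 (mul_ne_zero n1 n4))) (pow_ne_zero 4 (mul_ne_zero n2 n3)))
        (pow_ne_zero 2 (mul_ne_zero p1 p4)))
      (((((wB 0).pow 5).mul (((wB 1).mul (wB 4)).pow 3)).mul (((wB 2).mul (wB 3)).pow 4)).mul
        (((wP 1).mul (wP 4)).pow 2)) (fun τ => ?_) (by norm_num) (by norm_num) (by norm_num)
    obtain ⟨s, C, a, b, h1, h2, h3, r, α, γ, h4, h5, h6, h7⟩ := h.loc τ rfl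
    have e : em τ (fG5 x y) = r ^ 2 * ((α ^ 2 + 3 * α * γ + γ ^ 2 : ℝ) : ℂ) := by
      simp only [fG5, map_add, map_mul, map_pow, map_ofNat, h5, h6]
      push_cast
      ring
    have r0 : r ≠ 0 := norm_ne_zero_iff.1 (h4 ▸ (pow_pos (h.pos τ) 5).ne')
    rw [h0, map_zero, eq_comm, mul_eq_zero, Complex.ofReal_eq_zero, h7] at e
    simp only [map_mul, map_pow, norm_mul, norm_pow, h3, Nat.ofNat_pos, Nat.one_lt_ofNat,
      Nat.reduceLT]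
    refine le_of_eq_of_le ?_ (mul_le_mul_of_nonneg_right (r4 h1 h2
      (h.van τ hP (h3 0 (by norm_num)).2.1) (hm.imp (fun e => h.van τ e (h3 1 (by norm_num)).2.2)
        (Or.imp (fun e => h.van τ e (h3 2 (by norm_num)).2.2)
          (Or.imp (fun e => h.van τ e (h3 3 (by norm_num)).2.2)
            fun e => h.van τ e (h3 4 (by norm_num)).2.2))) rfl rfl
      (e.resolve_left (pow_ne_zero 2 r0))) (pow_pos (h.pos τ) _).le)
    ring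
  · simp only [not_or] at hm
    obtain ⟨m1, m2, m3, m4⟩ := hm
    refine hk _ _ _ _ 33656 h.phi.mu
      (mul_ne_zero (mul_ne_zero (mul_ne_zero (mul_ne_zero (mul_ne_zero (pow_ne_zero 4 n0) n2) n3)
        (pow_ne_zero 2 (mul_ne_zero (mul_ne_zero (mul_ne_zero p1 p4) m1) m4))) m2) m3)
      (((((((wB 0).pow 4).mul (wB 2)).mul (wB 3)).mul
        (((((wP 1).mul (wP 4)).mul (wM 1)).mul (wM 4)).pow 2)).mul (wM 2)).mul (wM 3))
      (fun τ => ?_) (by norm_num) (by norm_num) (by norm_num)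
    obtain ⟨s, C, a, b, h1, h2, h3, -⟩ := h.loc τ rfl
    simp only [map_mul, map_pow, norm_mul, norm_pow, h3, Nat.ofNat_pos, Nat.one_lt_ofNat,
      Nat.reduceLT]
    refine le_of_eq_of_le ?_ (mul_le_mul_of_nonneg_right (r3 h1 h2
      (h.van τ hP (h3 0 (by norm_num)).2.1)) (pow_pos (h.pos τ) _).le)
    ring

theorem Hyp.core (h : Hyp em ζ x y J) (hk : Ky em y J G) : G := by
  by_cases h0 : fG5 x y = 0
  swap
  · exact h.c0 hk h0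
  by_cases h1 : ∀ j, tP ζ x y j ≠ 0 ∧ tM ζ x y j ≠ 0
  · exact h.c1 hk h1
  obtain ⟨j, hj⟩ := not_forall.1 h1
  have h2 : fG5 (Ab.tw ζ j x) y = 0 := by rwa [fG5, p5_tw h.phi]
  by_cases h3 : tP ζ x y j = 0
  · refine (h.tw j).c2 hk h2 ?_
    simpa only [tP, tB, tA, tC, tw_tw, zero_add] using h3
  · have h4 : tM ζ x y j = 0 := by tauto
    refine (h.tw j).sq.c2 hk h2 ?_
    have h5 := h.phi.five
    have h6 := h.phi
    simp only [tP, tM, tB, tA, tC, tw_sq, tw_tw, mul_zero, zero_add] at h4 ⊢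
    rw [Phi] at h6
    linear_combination -h4 + (fA (Ab.tw ζ j x) y + fC (Ab.tw ζ j x) y) * (h6 + ζ ^ 3 * h5)

end Pool.Agent.Lib.MP_f61260_nt.Ab
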