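import Pool.Agent.Lib.MP_f61260_nt.Ab.Main

/-! The least value of degree times height when the relative norm is not a root of unity. -/

set_option autoImplicit false

open NumberField IntermediateField Polynomial

namespace Pool.Agent.Lib.MP_f61260_nt.Ab

theorem absH_conj {α β : ℂ} (hα : IsIntegral ℚ α) (h : aeval β (minpoly ℚ α) = 0) :
    IsIntegral ℚ β ∧ absLogHeight₁ β = absLogHeight₁ α := by
  have := adjoin.finiteDimensional hα
  have : NumberField ℚ⟮α⟯ := {}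
  let f : ℚ⟮α⟯ →ₐ[ℚ] ℂ := (adjoin.powerBasis hα).lift β (by
    rwa [adjoin.powerBasis_gen, minpoly_gen])
  have e : f (AdjoinSimple.gen ℚ α) = β := (adjoin.powerBasis hα).lift_gen β _
  refine ⟨⟨_, minpoly.monic hα, h⟩, ?_⟩
  rw [← e]
  exact (absH_map f.toRingHom _).trans (absH_map (algebraMap ℚ⟮α⟯ ℂ) (AdjoinSimple.gen ℚ α)).symm

theorem absH_multi (s : Multiset ℂ) {c : ℝ} (h : ∀ β ∈ s, IsIntegral ℚ β ∧ absLogHeight₁ β = c) :
    IsIntegral ℚ s.prod ∧ absLogHeight₁ s.prod ≤ s.card * c := by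
  induction s using Multiset.induction_on with
  | empty => exact ⟨isIntegral_one, by simpa using (absH_root one_ne_zero (one_pow (M := ℂ) 1)).le⟩
  | cons a s ih =>
    obtain ⟨h1, h2⟩ := ih fun β hβ => h β (Multiset.mem_cons_of_mem hβ)
    obtain ⟨h3, h4⟩ := h a (Multiset.mem_cons_self a s)
    rw [Multiset.prod_cons, Multiset.card_cons]
    refine ⟨h3.mul h1, (absH_mul_le h3 h1).trans ?_⟩
    push_cast
    linarith

theorem absH_neg {x : ℂ} (hx : IsIntegral ℚ x) (n : ℕ) :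
    absLogHeight₁ ((-1) ^ n * x) ≤ absLogHeight₁ x := by
  have e : ((-1 : ℂ) ^ n) ^ 2 = 1 := by rw [← pow_mul, mul_comm, pow_mul]; simp
  have := absH_mul_le (isIntegral_of_pow_eq_one two_ne_zero e) hx
  rwa [absH_root two_ne_zero e, zero_add] at this

/-- The constant term of the minimal polynomial as a product of roots. -/
theorem const_eq (F : IntermediateField ℚ ℂ) {α : ℂ} (hα : IsIntegral F α) :
    (((minpoly F α).coeff 0 : F) : ℂ) =
        (-1) ^ (minpoly F α).natDegree * ((minpoly F α).aroots ℂ).prod ∧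
      ((minpoly F α).aroots ℂ).card = (minpoly F α).natDegree := by
  have hm := (minpoly.monic hα).map (algebraMap F ℂ)
  have hs := IsAlgClosed.splits ((minpoly F α).map (algebraMap F ℂ))
  have h1 := hs.coeff_zero_eq_prod_roots_of_monic hm
  have h2 := hs.natDegree_eq_card_roots
  rw [natDegree_map] at h1 h2
  rw [coeff_map] at h1
  exact ⟨h1, h2.symm⟩

theorem norm_le (F : IntermediateField ℚ ℂ) {α : ℂ} (hα : IsIntegral ℚ α) :
    absLogHeight₁ (((minpoly F α).coeff 0 : F) : ℂ) ≤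
      (minpoly F α).natDegree * absLogHeight₁ α := by
  obtain ⟨h1, h2⟩ := const_eq F (hα.tower_top (A := F))
  obtain ⟨h3, h4⟩ := absH_multi ((minpoly F α).aroots ℂ) (c := absLogHeight₁ α) fun β hβ => by
    refine absH_conj hα ?_
    obtain ⟨q, hq⟩ := minpoly.dvd_map_of_isScalarTower ℚ F α
    rw [← aeval_map_algebraMap F, hq, map_mul, (mem_aroots.1 hβ).2, zero_mul]
  rw [h1, ← h2]
  exact (absH_neg h3 _).trans h4

theorem least' {α : ℂ} (h : α ∈ adjoin ℚ {z : ℂ | ∃ n : ℕ, 1 ≤ n ∧ z ^ n = 1}) (h0 : α ≠ 0)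
    (ht : ∀ n : ℕ, 1 ≤ n → α ^ n ≠ 1) : Real.log 7 / 12 ≤ absLogHeight₁ α := by
  rcases lt_or_ge (absLogHeight₁ α) (41 / 250) with h1 | h1
  · exact ((bottom α _).1 ⟨h, h0, ht, rfl, h1⟩).1.ge
  · exact lg2.le.trans h1

theorem bottomD {ν : ℂ} {D : ℕ} {t : ℝ} (h0 : ν ≠ 0) (h1 : ∀ n : ℕ, 1 ≤ n → ν ^ n ≠ 1)
    (hD : 1 ≤ D) (ht : t < 41 / 250) :
    (∃ α : ℂ, IsAlgebraic ℚ α ∧
      (minpoly (adjoin ℚ {z : ℂ | ∃ n : ℕ, 1 ≤ n ∧ z ^ n = 1}) α).natDegree = D ∧
      ((minpoly (adjoin ℚ {z : ℂ | ∃ n : ℕ, 1 ≤ n ∧ z ^ n = 1}) α).coeff 0 : ℂ) = ν ∧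
      D * absLogHeight₁ α ≤ t) ↔
    (Real.log 7 / 12 ≤ t ∧ ∃ ζ : ℂ, (∃ n : ℕ, 1 ≤ n ∧ ζ ^ n = 1) ∧
      7 * (ζ * ν) ^ 12 - 13 * (ζ * ν) ^ 6 + 7 = 0) := by
  generalize hF : adjoin ℚ {z : ℂ | ∃ n : ℕ, 1 ≤ n ∧ z ^ n = 1} = F
  constructor
  · rintro ⟨α, a1, rfl, rfl, a4⟩
    have h2 := (norm_le F a1.isIntegral).trans a4
    have h3 := (bottom _ _).1 ⟨hF ▸ ((minpoly F α).coeff 0).2, h0, h1, rfl, h2.trans_lt ht⟩
    exact ⟨h3.1 ▸ h2, h3.2⟩
  · rintro ⟨a0, ζ, ⟨n, a1, a2⟩, a3⟩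
    obtain ⟨b1, -, -, b4⟩ := back a1 a2 a3
    rw [hF] at b1
    have iν : IsIntegral ℚ ν := by
      have z0 : ζ ≠ 0 := fun e => by simp [e] at a3
      have : ν = ζ ^ (n - 1) * (ζ * ν) := by
        rw [← mul_assoc, ← pow_succ, Nat.sub_add_cancel a1, a2, one_mul]
      rw [this]
      exact ((isIntegral_of_pow_eq_one (by omega) a2).pow _).mul (root_int a3)
    obtain ⟨α, hα⟩ := IsAlgClosed.exists_pow_nat_eq (-ν) (show 0 < D from hD)
    have iα : IsIntegral ℚ α := IsIntegral.of_pow (show 0 < D from hD) (hα ▸ iν.neg)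
    have iF : IsIntegral F α := iα.tower_top
    have hh : D * absLogHeight₁ α ≤ Real.log 7 / 12 := by
      rw [← absH_pow iα, hα, ← b4]
      simpa using absH_neg iν 1
    have hm : (X ^ D + C (⟨ν, b1⟩ : F)).Monic := monic_X_pow_add_C _ (by omega)
    have hr : aeval α (X ^ D + C (⟨ν, b1⟩ : F)) = 0 := by simp [hα]
    have hd := minpoly.dvd F α hr
    have hdeg : D ≤ (minpoly F α).natDegree := by
      obtain ⟨c1, c2⟩ := const_eq F iF
      have d0 := minpoly.natDegree_pos iF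
      have c3 : ((minpoly F α).aroots ℂ).prod ^ D = (-ν) ^ (minpoly F α).natDegree := by
        have r : ∀ β ∈ (minpoly F α).aroots ℂ, id β ^ D = -ν := fun β hβ => by
          obtain ⟨q, hq⟩ := hd
          have := congrArg (aeval β) hq
          rw [map_mul, (mem_aroots.1 hβ).2, zero_mul] at this
          simpa [add_eq_zero_iff_eq_neg] using this
        rw [← Multiset.map_id ((minpoly F α).aroots ℂ), ← Multiset.prod_map_pow,
          Multiset.map_congr rfl r, Multiset.map_const', Multiset.prod_replicate, c2]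
      have c4 : (((minpoly F α).coeff 0 : F) : ℂ) ^ (D * 2) = ν ^ ((minpoly F α).natDegree * 2) := by
        rw [c1, mul_pow, mul_comm D 2, ← pow_mul, mul_left_comm, pow_mul, neg_one_sq, one_pow,
          one_mul, mul_comm 2 D, pow_mul, c3, ← pow_mul, mul_comm _ 2, pow_mul, pow_mul, neg_sq]
      have c5 := least' (α := (((minpoly F α).coeff 0 : F) : ℂ)) (hF ▸ ((minpoly F α).coeff 0).2)
        (fun e => by
          rw [e, zero_pow (by omega)] at c4
          exact pow_ne_zero _ h0 c4.symm)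
        fun k hk e => h1 ((minpoly F α).natDegree * 2 * k) (Nat.mul_pos (by omega) hk) (by
          rw [pow_mul, ← c4, ← pow_mul, mul_comm, pow_mul, e, one_pow])
      have c6 := c5.trans (norm_le F iα)
      have l7 : 0 < Real.log 7 / 12 := div_pos (Real.log_pos (by norm_num)) (by norm_num)
      have p0 : 0 < absLogHeight₁ α := by
        by_contra hn
        have := mul_nonpos_of_nonneg_of_nonpos (Nat.cast_nonneg (α := ℝ) (minpoly F α).natDegree)
          (not_lt.1 hn)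
        linarith
      exact_mod_cast le_of_mul_le_mul_right (hh.trans c6) p0
    have e := eq_of_monic_of_dvd_of_natDegree_le (minpoly.monic iF) hm hd (by
      rwa [natDegree_X_pow_add_C])
    refine ⟨α, iα.isAlgebraic, by rw [← e, natDegree_X_pow_add_C], ?_, hh.trans a0⟩
    rw [← e, coeff_add, coeff_X_pow, if_neg (by omega), coeff_C_zero, zero_add]

/-- In degree one the element `-a` has constant term `a`. -/
theorem deg_one {a : ℂ} (h : a ∈ adjoin ℚ {z : ℂ | ∃ n : ℕ, 1 ≤ n ∧ z ^ n = 1}) :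
    IsAlgebraic ℚ (-a) ∧
      (minpoly (adjoin ℚ {z : ℂ | ∃ n : ℕ, 1 ≤ n ∧ z ^ n = 1}) (-a)).natDegree = 1 ∧
      ((minpoly (adjoin ℚ {z : ℂ | ∃ n : ℕ, 1 ≤ n ∧ z ^ n = 1}) (-a)).coeff 0 : ℂ) = a ∧
      (1 : ℕ) * absLogHeight₁ (-a) ≤ absLogHeight₁ a := by
  have := isAlgebraic_adjoin (K := ℚ) (S := {z : ℂ | ∃ n : ℕ, 1 ≤ n ∧ z ^ n = 1})
    fun x ⟨n, h1, h2⟩ => isIntegral_of_pow_eq_one (by omega) h2
  generalize adjoin ℚ {z : ℂ | ∃ n : ℕ, 1 ≤ n ∧ z ^ n = 1} = F at h this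
  have h1 : IsIntegral ℚ a := (this.isAlgebraic (⟨a, h⟩ : F)).isIntegral.map F.val
  have h2 : minpoly F (-a) = X - C (-⟨a, h⟩ : F) := minpoly.eq_X_sub_C ℂ (-⟨a, h⟩ : F)
  refine ⟨h1.neg.isAlgebraic, by rw [h2, natDegree_X_sub_C], by simp [h2], ?_⟩
  simpa using absH_neg h1 1

end Pool.Agent.Lib.MP_f61260_nt.Ab
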