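import Pool.Agent.Lib.MP_f61260_nt.RadAD

/-! The norm inequality, the reduction to the unit circle, and the levels prime to five. -/

set_option autoImplicit false
set_option linter.unusedSectionVars false

open Module NumberField Polynomial Height

namespace Pool.Agent.Lib.MP_f61260_nt.Ab

variable {K : Type*} [Field K] [NumberField K]

theorem key {I : Ideal (𝓞 K)} (hI : IsCoprime (Ideal.span {((5 : ℕ) : 𝓞 K)}) I)
    {N : (K →+* ℂ) → ℝ} {H : ℝ} (hN : H * Ideal.absNorm I = ∏ σ, N σ) {W : 𝓞 K} (h0 : W ≠ 0)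
    {d e : ℕ} (h1 : W ∈ I ^ d) (h2 : (5 : 𝓞 K) ^ e ∣ W) {S : ℝ}
    (h3 : ∀ σ : K →+* ℂ, ‖σ W‖ ≤ S * N σ ^ d) :
    ((5 : ℝ) ^ e) ^ finrank ℚ K ≤ S ^ finrank ℚ K * H ^ d := by
  have a2 : Ideal.span {((5 : ℕ) : 𝓞 K)} ^ e ∣ Ideal.span {W} := by
    rw [Ideal.span_singleton_pow, Ideal.dvd_span_singleton, Ideal.mem_span_singleton]
    exact_mod_cast h2
  have a3 : I ^ d ∣ Ideal.span {W} := Ideal.dvd_span_singleton.2 h1
  have a0 : Ideal.absNorm (Ideal.span {W}) ≠ 0 := by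
    rw [Ne, Ideal.absNorm_eq_zero_iff, Ideal.span_singleton_eq_bot]
    exact h0
  have a1 : (0 : ℝ) < (Ideal.absNorm I : ℝ) ^ d := by
    have := ne_zero_of_dvd_ne_zero a0 (map_dvd Ideal.absNorm a3)
    rw [map_pow] at this
    exact_mod_cast Nat.pos_of_ne_zero this
  have h4 := Nat.le_of_dvd (Nat.pos_of_ne_zero a0) (map_dvd Ideal.absNorm (hI.pow.mul_dvd a2 a3))
  rw [map_mul, map_pow, map_pow, Ideal.absNorm_span_natCast,
    RingOfIntegers.rank, Ideal.absNorm_span_singleton, ← Nat.cast_le (α := ℝ), natAbs_norm] at h4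
  have h7 : ∏ σ : K →+* ℂ, ‖σ W‖ ≤ S ^ finrank ℚ K * (∏ σ, N σ) ^ d := by
    rw [← Embeddings.card K ℂ, ← Finset.card_univ, ← Finset.prod_const, ← Finset.prod_pow,
      ← Finset.prod_mul_distrib]
    exact Finset.prod_le_prod (fun _ _ => norm_nonneg _) fun σ _ => h3 σ
  have h9 := h4.trans h7
  rw [← hN] at h9
  push_cast at h9
  refine le_of_mul_le_mul_right (le_of_eq_of_le ?_ (h9.trans_eq ?_)) a1
  · ring
  · ring

theorem fin7 {n d e : ℕ} {S H T : ℝ} (hT : 0 < T) (hd : d ≠ 0) (hS : 0 < S) (hH : 0 ≤ H)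
    (h : ((5 : ℝ) ^ e) ^ n ≤ (S ^ 2) ^ n * H ^ (d * 2)) (h' : T ^ (2 * d) * S ^ 6 ≤ 5 ^ (3 * e)) :
    T ^ n ≤ H ^ 3 := by
  have h1 := pow_le_pow_left₀ (by positivity) h 3
  have h2 := pow_le_pow_left₀ (by positivity) h' n
  have h3 : (S ^ 6) ^ n * (T ^ n) ^ (2 * d) ≤ (S ^ 6) ^ n * (H ^ 3) ^ (2 * d) :=
    le_of_eq_of_le (by ring) ((h2.trans_eq (by ring)).trans (h1.trans_eq (by ring)))
  exact (pow_le_pow_iff_left₀ (by positivity) (by positivity) (by omega)).1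
    (le_of_mul_le_mul_left h3 (by positivity))

theorem key2 {I : Ideal (𝓞 K)} (hI : IsCoprime (Ideal.span {((5 : ℕ) : 𝓞 K)}) I)
    {N : (K →+* ℂ) → ℝ} {H : ℝ} (hH : 0 ≤ H) (hN : H * Ideal.absNorm I = ∏ σ, N σ) {μ W : 𝓞 K}
    (hμ : μ ^ 2 = 5) (h0 : W ≠ 0) (d e : ℕ) (S : ℝ) (h1 : W ∈ I ^ d) (h2 : μ ^ e ∣ W)
    (h3 : ∀ σ : K →+* ℂ, ‖σ W‖ ≤ S * N σ ^ d) (hd : d ≠ 0) (hS : 0 < S)
    (h' : (179 / 25) ^ (2 * d) * S ^ 6 ≤ 5 ^ (3 * e)) : (179 / 25) ^ finrank ℚ K ≤ H ^ 3 := by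
  refine fin7 (by norm_num) hd hS hH (key hI hN (pow_ne_zero 2 h0) ?_ ?_ fun σ => ?_) h'
  · rw [pow_mul]
    exact Ideal.pow_mem_pow h1 2
  · rw [← hμ, ← pow_mul, mul_comm, pow_mul]
    exact pow_dvd_pow_of_dvd h2 2
  · push_cast
    rw [map_pow, norm_pow, pow_mul, ← mul_pow]
    exact pow_le_pow_left₀ (norm_nonneg _) (h3 σ) 2

theorem cop_map (s : K →+* K) {p : ℕ} {x y : 𝓞 K}
    (hc : IsCoprime (Ideal.span {(p : 𝓞 K)}) (Ideal.span {x, y})) :
    IsCoprime (Ideal.span {(p : 𝓞 K)})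
      (Ideal.span {RingOfIntegers.mapRingHom s x, RingOfIntegers.mapRingHom s y}) := by
  have := hc.map (Ideal.mapHom (RingOfIntegers.mapRingHom s))
  simpa [Ideal.map_span, Set.image_pair] using this

theorem ht_map (s : K →+* K) (x y : 𝓞 K) (hy : y ≠ 0) :
    mulHeight₁ ((x : K) / y) * Ideal.absNorm (Ideal.span
      {RingOfIntegers.mapRingHom s x, RingOfIntegers.mapRingHom s y}) =
      ∏ σ : K →+* ℂ, max ‖σ (s x)‖ ‖σ (s y)‖ := by
  have hy' : (y : K) ≠ 0 := by exact_mod_cast hy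
  have hty' : (RingOfIntegers.mapRingHom s y : K) ≠ 0 := (_root_.map_ne_zero s).2 hy'
  have h6 := height_eq (RingOfIntegers.mapRingHom s x) (RingOfIntegers.mapRingHom s y)
    (by exact_mod_cast hty')
  rw [show (RingOfIntegers.mapRingHom s x : K) / RingOfIntegers.mapRingHom s y = s (x / y) from
    (map_div₀ s _ _).symm, mulHeight₁_map] at h6
  exact h6

theorem ml {R : Type*} [CommRing R] (x y : R) : x ∈ Ideal.span {x, y} := Ideal.subset_span (by simp)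

theorem mr {R : Type*} [CommRing R] (x y : R) : y ∈ Ideal.span {x, y} := Ideal.subset_span (by simp)

theorem sch (t r : ℝ) (ht : 0 ≤ t) (hr : 0 ≤ r) :
    |t ^ 2 - r ^ 2| * t ^ 2 * r ^ 2 ≤ 1 / 4 * (max t r * max t r) ^ 3 := by
  wlog h : t ≤ r generalizing t r
  · have := this r t hr ht (le_of_not_ge h)
    rw [abs_sub_comm, max_comm] at this
    linarith
  rw [max_eq_right h, abs_sub_comm, abs_of_nonneg (by nlinarith)]
  nlinarith [mul_nonneg (sq_nonneg r) (sq_nonneg (r ^ 2 - 2 * t ^ 2))]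

theorem circle (b : K →+* K) (hb : ∀ (σ : K →+* ℂ) z, σ (b z) = (starRingEnd ℂ) (σ z))
    {x y : 𝓞 K} (hx : x ≠ 0) (hy : y ≠ 0)
    (hc : IsCoprime (Ideal.span {((5 : ℕ) : 𝓞 K)}) (Ideal.span {x, y})) :
    (179 / 25) ^ finrank ℚ K ≤ mulHeight₁ ((x : K) / y) ^ 12 ∨
      ∀ σ : K →+* ℂ, ‖σ x‖ = ‖σ y‖ := by
  set t := RingOfIntegers.mapRingHom b with ht
  have hn : ∀ (σ : K →+* ℂ) (z : 𝓞 K), σ (z * t z : 𝓞 K) = ((‖σ z‖ ^ 2 : ℝ) : ℂ) := by
    intro σ z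
    rw [← Complex.normSq_eq_norm_sq, ← Complex.mul_conj, ← hb]
    exact map_mul σ _ _
  have hz : ∀ z : 𝓞 K, z ≠ 0 → z * t z ≠ 0 := fun z h => mul_ne_zero h (by
    have : (t z : K) ≠ 0 := (_root_.map_ne_zero b).2 (by exact_mod_cast h)
    exact_mod_cast this)
  by_cases h : x * t x = y * t y
  · refine Or.inr fun σ => ?_
    have := (hn σ x).symm.trans (h ▸ hn σ y)
    exact (pow_left_inj₀ (norm_nonneg _) (norm_nonneg _) two_ne_zero).1 (by exact_mod_cast this)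
  left
  have m1 := Ideal.mul_mem_mul (ml x y) (ml (t x) (t y))
  have m2 := Ideal.mul_mem_mul (mr x y) (mr (t x) (t y))
  have := key (hc.mul_right (cop_map b hc)) (H := mulHeight₁ ((x : K) / y) ^ 2)
    (N := fun σ => max ‖σ x‖ ‖σ y‖ * max ‖σ x‖ ‖σ y‖) (by
      have h1 := ht_map b x y hy
      simp only [hb, Complex.norm_conj] at h1
      rw [Finset.prod_mul_distrib, map_mul, Nat.cast_mul]
      nth_rewrite 1 [← height_eq x y hy]
      rw [← h1]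
      ring)
    (W := (x * t x - y * t y) * (x * t x) * (y * t y))
    (mul_ne_zero (mul_ne_zero (sub_ne_zero.2 h) (hz x hx)) (hz y hy)) (d := 3) (e := 0)
    (by
      rw [pow_succ, pow_succ, pow_one]
      exact Ideal.mul_mem_mul (Ideal.mul_mem_mul (sub_mem m1 m2) m1) m2) (by simp) (S := 1 / 4)
    (fun σ => by
      have h1 := hn σ x
      have h2 := hn σ y
      push_cast at h1 h2 ⊢
      rw [map_mul, map_mul, map_sub, h1, h2, norm_mul, norm_mul]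
      refine le_of_eq_of_le ?_ (sch _ _ (norm_nonneg (σ x)) (norm_nonneg (σ y)))
      rw [← Real.norm_eq_abs, ← Complex.norm_real]
      simp)
  have h1 : (4 : ℝ) ^ finrank ℚ K ≤ mulHeight₁ ((x : K) / y) ^ 6 := by
    have h2 := mul_le_mul_of_nonneg_left this (show (0 : ℝ) ≤ 4 ^ finrank ℚ K by positivity)
    rw [← mul_assoc, ← mul_pow, ← mul_pow, ← pow_mul] at h2
    simpa using h2
  calc (179 / 25 : ℝ) ^ finrank ℚ K ≤ (4 ^ 2) ^ finrank ℚ K := by gcongr; norm_num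
    _ = (4 ^ finrank ℚ K) ^ 2 := by rw [← pow_mul, ← pow_mul, mul_comm]
    _ ≤ (mulHeight₁ ((x : K) / y) ^ 6) ^ 2 := by gcongr
    _ = _ := by ring

theorem q5 {z : ℝ} (h : 0 ≤ z) : z ^ 4 * (5 - 4 * z) ≤ 1 := by
  have : 0 ≤ (z - 1) ^ 2 * (4 * z ^ 3 + 3 * z ^ 2 + 2 * z + 1) := by positivity
  nlinarith

theorem p8 {v : ℝ} (v0 : 0 ≤ v) (v4 : v ≤ 4) :
    v ^ 8 * ((25 - 6 * v) * |25 - 7 * v|) ≤ 204800 := by
  have p := pow_nonneg v0 4
  rcases le_total (7 * v) 25 with h | h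
  · rw [abs_of_nonneg (by linarith)]
    have h1 := q5 (z := 73 / 220 * v) (by positivity)
    have h2 : v ^ 4 * (275 - 73 * v) ≤ 4540 := by linarith
    have h3 := pow_le_pow_left₀ (mul_nonneg p (by linarith)) h2 2
    linarith [mul_nonneg (pow_nonneg v0 8) (sq_nonneg (75 - 25 * v))]
  · rw [abs_of_nonpos (by linarith)]
    have h1 := q5 (z := 1 / 4 * v) (by positivity)
    have h2 : v ^ 4 * (25 - 5 * v) ≤ 1280 := by linarith
    have h3 := pow_le_pow_left₀ (mul_nonneg p (by linarith)) h2 2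
    linarith [mul_nonneg (pow_nonneg v0 8) (sq_nonneg (75 - 19 * v))]

theorem amgm {a b : ℂ} {N : ℝ} (ha : ‖a‖ = N) (hb : ‖b‖ = N) (hN : 0 < N) :
    25 * (a * b) + 6 * (a - b) ^ 2 ≠ 0 ∧
      ‖(a - b) ^ 16 * ((25 * (a * b) + 6 * (a - b) ^ 2) * (25 * (a * b) + 7 * (a - b) ^ 2))‖ ≤
        204800 * N ^ 20 := by
  have a0 : a ≠ 0 := by rintro rfl; simp at ha; linarith
  have b0 : b ≠ 0 := by rintro rfl; simp at hb; linarith
  have N0 : (N : ℂ) ≠ 0 := by exact_mod_cast hN.ne'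
  have h1 : (starRingEnd ℂ) a = N ^ 2 / a := by
    rw [eq_div_iff a0, mul_comm, Complex.mul_conj, Complex.normSq_eq_norm_sq, ha]; simp
  have h2 : (starRingEnd ℂ) b = N ^ 2 / b := by
    rw [eq_div_iff b0, mul_comm, Complex.mul_conj, Complex.normSq_eq_norm_sq, hb]; simp
  obtain ⟨v, hv⟩ : ∃ v : ℝ, v = ‖a - b‖ ^ 2 / N ^ 2 := ⟨_, rfl⟩
  have h3 : (v : ℂ) * N ^ 2 = (a - b) * (N ^ 2 / a - N ^ 2 / b) := by
    rw [← h1, ← h2, ← map_sub, Complex.mul_conj, Complex.normSq_eq_norm_sq, hv]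
    push_cast
    field_simp
  have h4 : 25 * (a * b) + 6 * (a - b) ^ 2 = a * b * ((25 - 6 * v : ℝ) : ℂ) := by
    push_cast
    field_simp at h3
    linear_combination 6 * h3
  have h4' : 25 * (a * b) + 7 * (a - b) ^ 2 = a * b * ((25 - 7 * v : ℝ) : ℂ) := by
    push_cast
    field_simp at h3
    linear_combination 7 * h3
  have v0 : 0 ≤ v := by rw [hv]; positivity
  have h5 : ‖a - b‖ ^ 2 = v * N ^ 2 := by rw [hv]; field_simp
  have v4 : v ≤ 4 := by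
    have := norm_sub_le a b
    rw [hv, div_le_iff₀ (by positivity)]
    nlinarith [norm_nonneg (a - b)]
  rw [h4, h4']
  refine ⟨mul_ne_zero (mul_ne_zero a0 b0) (by exact_mod_cast (by linarith : 25 - 6 * v ≠ 0)), ?_⟩
  simp only [norm_mul, norm_pow, ha, hb, Complex.norm_real, Real.norm_eq_abs]
  rw [show 16 = 2 * 8 by rfl, pow_mul, h5, abs_of_nonneg (by linarith : 0 ≤ 25 - 6 * v)]
  exact le_of_eq_of_le (by ring) (mul_le_mul_of_nonneg_right (p8 v0 v4) (pow_pos hN 20).le)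

theorem exc (s : K →+* K)
    (hs : ∀ z : 𝓞 K, (5 : 𝓞 K) ∣ z ^ 5 - RingOfIntegers.mapRingHom s z) {α β : K}
    (hβ : 7 * β ^ 2 + 11 * β + 7 = 0) (h : s α * β = α ^ 5) :
    s (α ^ 6 / β) = (α ^ 6 / β) ^ 5 := by
  obtain ⟨o, ho⟩ : ∃ o, o = -(8 + 7 * β) / 5 := ⟨_, rfl⟩
  have h1 : o ^ 2 + o + 1 = 0 := by rw [ho]; linear_combination (7 / 25) * hβ
  have h2 : s o ^ 2 + s o + 1 = 0 := by simpa using congrArg s h1
  have h3 : o ^ 3 = 1 := by linear_combination (o - 1) * h1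
  have h4 : s o + o + 1 = 0 := by
    refine (mul_eq_zero.1 (show (s o - o) * (s o + o + 1) = 0 by
      linear_combination h2 - h1)).resolve_left fun e => ?_
    obtain ⟨O, hO⟩ : ∃ O : 𝓞 K, (O : K) = o :=
      ⟨⟨o, IsIntegral.of_pow (n := 3) (by norm_num) (h3 ▸ isIntegral_one)⟩, rfl⟩
    obtain ⟨c, hc⟩ := hs O
    have h5 : o ^ 5 - s o = 5 * (c : K) := by
      rw [← hO]
      exact congrArg (fun z : 𝓞 K => (z : K)) hc
    have h6 : ((5 : ℕ) : 𝓞 K) * (-1 - 10 * c ^ 2) = 1 := by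
      have : (5 : K) * (-1 - 10 * (c : K) ^ 2) = 1 := by
        have h7 : o ^ 2 - o = 5 * (c : K) := by linear_combination h5 + e - o ^ 2 * h3
        linear_combination 2 * (o ^ 2 - o + 5 * (c : K)) * h7 - 2 * (o ^ 2 - 3 * o + 3) * h1
      refine RingOfIntegers.ext ?_
      simpa [map_ofNat] using this
    have h7 := Ideal.absNorm_span_natCast (S := 𝓞 K) 5
    rw [Ideal.span_singleton_eq_top.2 (IsUnit.of_mul_eq_one _ h6), Ideal.absNorm_top,
      RingOfIntegers.rank] at h7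
    exact (Nat.one_lt_pow finrank_pos.ne' (by norm_num)).ne h7
  have h5 : s β * β = 1 := by
    have e : β = -(5 * o + 8) / 7 := by rw [ho]; ring
    have e' : s β = -(5 * s o + 8) / 7 := by rw [e]; simp [map_ofNat]
    rw [e', e]
    linear_combination (5 * (5 * o + 8) / 49) * h4 - (25 / 49) * h1
  have b0 : β ≠ 0 := right_ne_zero_of_mul_eq_one h5
  rw [map_div₀, map_pow, eq_div_of_mul_eq b0 h, eq_div_of_mul_eq b0 h5]
  field_simp

theorem unram (s : K →+* K)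
    (hs : ∀ z : 𝓞 K, (5 : 𝓞 K) ∣ z ^ 5 - RingOfIntegers.mapRingHom s z) {x y : 𝓞 K} (hy : y ≠ 0)
    (hc : IsCoprime (Ideal.span {((5 : ℕ) : 𝓞 K)}) (Ideal.span {x, y}))
    (hu : ∀ σ : K →+* ℂ, ‖σ x‖ = ‖σ y‖) (h : ((x : K) / y) ^ 5 ≠ s (x / y)) (hx : x ≠ 0) :
    (179 / 25) ^ finrank ℚ K ≤ mulHeight₁ ((x : K) / y) ^ 12 ∨ ∃ β : K,
      7 * β ^ 2 + 11 * β + 7 = 0 ∧ s (((x : K) / y) ^ 6 / β) = (((x : K) / y) ^ 6 / β) ^ 5 := by
  set t := RingOfIntegers.mapRingHom s with ht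
  have hy' : (y : K) ≠ 0 := by exact_mod_cast hy
  have hty : s y ≠ 0 := (_root_.map_ne_zero s).2 hy'
  have hu' : ∀ σ : K →+* ℂ, ‖σ (s x)‖ = ‖σ (s y)‖ := fun σ => hu (σ.comp s)
  obtain ⟨a, ha⟩ : ∃ a, a = x ^ 5 * t y := ⟨_, rfl⟩
  obtain ⟨b, hb⟩ : ∃ b, b = y ^ 5 * t x := ⟨_, rfl⟩
  have hA : ∀ σ : K →+* ℂ, _ := fun σ => amgm (a := σ a) (b := σ b) (N := ‖σ y‖ ^ 5 * ‖σ (s y)‖)
    (by rw [ha, ← hu]; simp [ht]) (by rw [hb, ← hu']; simp [ht])
    (mul_pos (pow_pos (norm_pos_iff.2 ((_root_.map_ne_zero σ).2 hy')) _)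
      (norm_pos_iff.2 ((_root_.map_ne_zero σ).2 hty)))
  have h0 : a - b ≠ 0 := by
    intro h0
    apply h
    have h1 : (x : K) ^ 5 * s y = (y : K) ^ 5 * s x := by
      have := congrArg (fun z : 𝓞 K => (z : K)) (ha.symm.trans ((sub_eq_zero.1 h0).trans hb))
      simpa [ht] using this
    rw [map_div₀, div_pow]
    exact (div_eq_div_iff (pow_ne_zero _ hy') hty).2 (h1.trans (mul_comm _ _))
  have h1 : 25 * (a * b) + 6 * (a - b) ^ 2 ≠ 0 := by
    intro h1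
    obtain ⟨σ⟩ : Nonempty (K →+* ℂ) := inferInstance
    have := congrArg (fun z : 𝓞 K => σ (z : K)) h1
    refine (hA σ).1 ?_
    simpa [map_ofNat] using this
  by_cases h7 : 25 * (a * b) + 7 * (a - b) ^ 2 = 0
  · have htx : s x ≠ 0 := (_root_.map_ne_zero s).2 (by exact_mod_cast hx)
    have e : 7 * (((x : K) / y) ^ 5 / s (x / y)) ^ 2 + 11 * (((x : K) / y) ^ 5 / s (x / y)) + 7
        = 0 := by
      have : 25 * ((x : K) ^ 5 * s y * ((y : K) ^ 5 * s x)) +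
          7 * ((x : K) ^ 5 * s y - (y : K) ^ 5 * s x) ^ 2 = 0 := by
        rw [ha, hb] at h7
        exact congrArg (fun z : 𝓞 K => (z : K)) h7
      rw [map_div₀]
      field_simp
      linear_combination this
    refine Or.inr ⟨_, e, exc s hs e (mul_div_cancel₀ _ ?_)⟩
    rw [map_div₀]
    exact div_ne_zero htx hty
  left
  obtain ⟨c, hc5⟩ : (5 : 𝓞 K) ∣ a - b := by
    rw [show a - b = (x ^ 5 - t x) * t y - (y ^ 5 - t y) * t x by rw [ha, hb]; ring]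
    exact dvd_sub ((hs x).mul_right _) ((hs y).mul_right _)
  have m1 : a ∈ Ideal.span {x, y} ^ 5 * Ideal.span {t x, t y} :=
    ha ▸ Ideal.mul_mem_mul (Ideal.pow_mem_pow (ml x y) 5) (mr _ _)
  have m2 : b ∈ Ideal.span {x, y} ^ 5 * Ideal.span {t x, t y} :=
    hb ▸ Ideal.mul_mem_mul (Ideal.pow_mem_pow (mr x y) 5) (ml _ _)
  have := key ((hc.pow_right (n := 5)).mul_right (cop_map s hc)) (H := mulHeight₁ ((x : K) / y) ^ 6)
    (N := fun σ => ‖σ y‖ ^ 5 * ‖σ (s y)‖) (by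
      have h1 := ht_map s x y hy
      have h2 := height_eq x y hy
      simp only [hu, hu', max_self] at h1 h2
      rw [Finset.prod_mul_distrib, Finset.prod_pow, map_mul, map_pow, Nat.cast_mul, Nat.cast_pow,
        ← h1, ← h2]
      ring)
    (W := (a - b) ^ 16 * ((25 * (a * b) + 6 * (a - b) ^ 2) * (25 * (a * b) + 7 * (a - b) ^ 2)))
    (mul_ne_zero (pow_ne_zero _ h0) (mul_ne_zero h1 h7)) (d := 20) (e := 20)
    (by
      have m3 := sq (Ideal.span {x, y} ^ 5 * Ideal.span {t x, t y}) ▸ Ideal.mul_mem_mul m1 m2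
      have m4 := Ideal.pow_mem_pow (sub_mem m1 m2) 2
      rw [show 20 = 16 + (2 + 2) by rfl, pow_add, pow_add]
      exact Ideal.mul_mem_mul (Ideal.pow_mem_pow (sub_mem m1 m2) _) (Ideal.mul_mem_mul
        (add_mem (Ideal.mul_mem_left _ _ m3) (Ideal.mul_mem_left _ _ m4))
        (add_mem (Ideal.mul_mem_left _ _ m3) (Ideal.mul_mem_left _ _ m4))))
    ⟨c ^ 16 * ((a * b + 6 * c ^ 2) * (a * b + 7 * c ^ 2)), by rw [hc5]; ring⟩ (S := 204800)
    (fun σ => by simpa [map_ofNat] using (hA σ).2)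
  have h2 : ((179 / 25 : ℝ) ^ finrank ℚ K) ^ 10 ≤ (mulHeight₁ ((x : K) / y) ^ 12) ^ 10 := by
    refine le_of_mul_le_mul_left (le_trans ?_ (this.trans_eq (by ring)))
      (show (0 : ℝ) < 204800 ^ finrank ℚ K by positivity)
    rw [← pow_mul (179 / 25 : ℝ), mul_comm _ 10, pow_mul (179 / 25 : ℝ), ← mul_pow]
    exact pow_le_pow_left₀ (by positivity) (by norm_num) _
  exact (pow_le_pow_iff_left₀ (by positivity) (pow_nonneg (mulHeight₁_pos _).le _)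
    (by norm_num)).1 h2

end Pool.Agent.Lib.MP_f61260_nt.Ab
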