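import Pool.Agent.Lib.MP_f61260_nt.Ab.Core
import Pool.Agent.Lib.MP_f61260_nt.Ab.Key
import Pool.Agent.Lib.MP_f61260_nt.RadAbs

/-! Automorphisms of cyclotomic fields, descent on the level, and the lower bound. -/

set_option autoImplicit false
set_option linter.unusedSectionVars false
set_option linter.unusedSimpArgs false

open Module NumberField Polynomial Height IntermediateField

namespace Pool.Agent.Lib.MP_f61260_nt.Ab

theorem Phi.of_mod {R : Type*} [CommRing R] {ζ : R} (h : Phi ζ) {n : ℕ} (hn : ¬ 5 ∣ n) :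
    Phi (ζ ^ n) := by
  rw [← Nat.div_add_mod n 5, pow_add, pow_mul, h.five, one_pow, one_mul]
  have : n % 5 = 1 ∨ n % 5 = 2 ∨ n % 5 = 3 ∨ n % 5 = 4 := by omega
  rcases this with e | e | e | e <;> rw [e]
  · rwa [pow_one]
  · exact h.pow
  · exact h.pow3
  · exact (pow_mul ζ 2 2) ▸ h.pow.pow

variable {K : Type} [Field K] [NumberField K]

theorem avg (F : IntermediateField ℚ K) {ζ ρ : K} (h : Phi ζ) (h5 : ρ ^ 5 ∈ F) (f : ℚ[X]) :
    aeval ρ f + aeval (ρ * ζ ^ 1) f + aeval (ρ * ζ ^ 2) f + aeval (ρ * ζ ^ 4) f +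
      aeval (ρ * ζ ^ 3) f ∈ F := by
  induction f using Polynomial.induction_on' with
  | add p q hp hq =>
    simp only [map_add]
    have := add_mem hp hq
    rwa [add_add_add_comm, add_add_add_comm _ (aeval (ρ * ζ ^ 4) p), add_add_add_comm _
      (aeval (ρ * ζ ^ 2) p), add_add_add_comm _ (aeval (ρ * ζ ^ 1) p)] at this
  | monomial n a =>
    simp only [aeval_monomial, mul_pow, pow_right_comm ζ _ n]
    by_cases hn : 5 ∣ n
    · obtain ⟨c, rfl⟩ := hn
      rw [pow_mul ζ, h.five, pow_mul ρ]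
      simp only [one_pow, mul_one]
      have := mul_mem (F.algebraMap_mem a) (pow_mem h5 c)
      exact add_mem (add_mem (add_mem (add_mem this this) this) this) this
    · have := h.of_mod hn
      rw [Phi] at this
      refine (congrArg (· ∈ F) (?_ : _ = (0 : K))).mpr (zero_mem F)
      linear_combination (algebraMap ℚ K a * ρ ^ n) * this

variable {m : ℕ} [NeZero m] [IsCyclotomicExtension {m} ℚ K]

theorem hom_ext {Ω : Type} [Field Ω] [CharZero Ω] {ω : K} (hω : IsPrimitiveRoot ω m)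
    (f g : K →+* Ω) (h : f ω = g ω) (z : K) : f z = g z :=
  AlgHom.congr_fun ((hω.powerBasis ℚ).algHom_ext (f := f.toRatAlgHom) (g := g.toRatAlgHom)
    (by simpa using h)) z

theorem ex_poly {ω : K} (hω : IsPrimitiveRoot ω m) (z : K) : ∃ f : ℚ[X], z = aeval ω f := by
  simpa using (hω.powerBasis ℚ).exists_eq_aeval' z

theorem ex_aut {μ : K} (h : IsPrimitiveRoot μ m) :
    ∃ s : K ≃ₐ[ℚ] K, s (IsCyclotomicExtension.zeta m ℚ K) = μ :=
  ⟨IsCyclotomicExtension.fromZetaAut h (cyclotomic.irreducible_rat (NeZero.pos m)),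
    IsCyclotomicExtension.fromZetaAut_spec _ _⟩

theorem desc {ω ρ ζ : K} (hω : IsPrimitiveRoot ω m) (h : Phi ζ) (t : Fin 4 → K ≃ₐ[ℚ] K)
    (ht : ∀ k, t k ω = ρ * ζ ^ ex k) (hρ : ρ = ω ∨ ρ ∈ ℚ⟮ω ^ 5⟯) {β : K} (hβ : ∀ k, t k β = β) :
    β ∈ ℚ⟮ω ^ 5⟯ := by
  obtain ⟨f, hf⟩ := ex_poly hω β
  have e : ∀ k, aeval (ρ * ζ ^ ex k) f = β := fun k => by
    rw [← ht, aeval_algHom_apply, ← hf, hβ]
  have h1 := avg ℚ⟮ω ^ 5⟯ h (ρ := ρ)
    (hρ.elim (fun e => e ▸ mem_adjoin_simple_self ℚ _) fun e => pow_mem e 5) f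
  rw [show aeval (ρ * ζ ^ 1) f = β from e 0, show aeval (ρ * ζ ^ 2) f = β from e 1,
    show aeval (ρ * ζ ^ 4) f = β from e 2, show aeval (ρ * ζ ^ 3) f = β from e 3] at h1
  rcases hρ with rfl | hρ
  · rw [← hf] at h1
    have := mul_mem (ℚ⟮ρ ^ 5⟯.algebraMap_mem (1 / 5)) h1
    rwa [show algebraMap ℚ K (1 / 5) * (β + β + β + β + β) = β by simp; ring] at this
  · have h2 : aeval ρ f ∈ ℚ⟮ω ^ 5⟯ := by
      have := aeval_algHom_apply ℚ⟮ω ^ 5⟯.val ⟨ρ, hρ⟩ f
      exact (show aeval ρ f = _ from this) ▸ Subtype.property _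
    have := mul_mem (ℚ⟮ω ^ 5⟯.algebraMap_mem (1 / 4)) (sub_mem h1 h2)
    rwa [show algebraMap ℚ K (1 / 4) * (aeval ρ f + β + β + β + β - aeval ρ f) = β by
      simp; ring] at this

theorem level {m' : ℕ} (hm : m = 5 * m') {ω : K} (hz : ω = IsCyclotomicExtension.zeta m ℚ K) :
    ∃ (t : Fin 4 → K ≃ₐ[ℚ] K) (A B : ℕ), Phi (ω ^ B) ∧ (∀ k, t k ω = ω ^ A * (ω ^ B) ^ ex k) ∧
      ∀ β, t 0 β = t 1 β ∨ t 2 β = t 3 β ∨ t 0 β = t 3 β ∨ t 1 β = t 2 β → β ∈ ℚ⟮ω ^ 5⟯ := by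
  have hω : IsPrimitiveRoot ω m := hz ▸ IsCyclotomicExtension.zeta_spec m ℚ K
  have m0 : 0 < m' := by have := NeZero.pos m; omega
  have p1 : Phi (ω ^ m') := by
    have h5 : (ω ^ m') ^ 5 = 1 := by rw [← pow_mul, mul_comm, ← hm, hω.pow_eq_one]
    have h1 : ω ^ m' - 1 ≠ 0 := sub_ne_zero.2 (hω.pow_ne_one_of_pos_of_lt m0.ne' (by omega))
    exact mul_left_cancel₀ h1 (by linear_combination h5)
  have aut : ∀ c, ¬ 5 ∣ 1 + m' * c → ∃ T : K ≃ₐ[ℚ] K, T ω = ω * ω ^ (m' * c) := by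
    intro c hc
    have : (1 + m' * c).Coprime m := by
      rw [hm]
      exact Nat.Coprime.mul_right ((Nat.Prime.coprime_iff_not_dvd (by norm_num)).2 hc).symm
        (by simp)
    obtain ⟨T, hT⟩ := ex_aut (hω.pow_of_coprime _ this)
    exact ⟨T, by rw [← hz] at hT; rw [hT, pow_add, pow_one]⟩
  by_cases h5 : 5 ∣ m'
  · obtain ⟨T, hT⟩ := aut 1 (by omega)
    rw [mul_one] at hT
    have h1 : T (ω ^ m') = ω ^ m' := by
      obtain ⟨c, hc⟩ := h5
      rw [map_pow, hT, mul_pow]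
      nth_rewrite 3 [hc]
      rw [pow_mul, p1.five, one_pow, mul_one]
    have h2 : ∀ n, (T ^ n) ω = ω * (ω ^ m') ^ n := by
      intro n
      induction n with
      | zero => simp
      | succ n ih => rw [pow_succ', AlgEquiv.mul_apply, ih, map_mul, map_pow, h1, hT]; ring
    have h3 : ∀ z, T (T (T (T (T z)))) = z := fun z =>
      hom_ext hω (T ^ 5 : K ≃ₐ[ℚ] K) (RingHom.id K) (by simp [h2, p1.five]) z
    refine ⟨fun k => T ^ ex k, 1, m', p1, fun k => by rw [h2, pow_one], fun β hβ => ?_⟩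
    have h4 : T β = β := by
      rcases hβ with h | h | h | h
      · exact (T.injective h).symm
      · exact T.injective (T.injective (T.injective h))
      · have h : β = T (T β) := T.injective h
        have := h3 β
        rwa [← h, ← h] at this
      · have h : β = T (T β) := T.injective (T.injective h)
        have := h3 β
        rwa [← h, ← h] at this
    refine desc hω p1 (fun k => T ^ ex k) (fun k => h2 _) (Or.inl rfl) fun k => ?_
    fin_cases k <;> simp [ex, pow_succ, h4]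
  · obtain ⟨c, d, hc⟩ : ∃ c d, m' * c = 5 * d + 1 := by
      have : m' % 5 = 1 ∨ m' % 5 = 2 ∨ m' % 5 = 3 ∨ m' % 5 = 4 := by omega
      rcases this with e | e | e | e
      exacts [⟨1, m' / 5, by omega⟩, ⟨3, m' * 3 / 5, by omega⟩, ⟨2, m' * 2 / 5, by omega⟩,
        ⟨4, m' * 4 / 5, by omega⟩]
    obtain ⟨T, hT⟩ := aut c (by omega)
    have p2 : Phi (ω ^ (m' * c)) := by
      rw [pow_mul]
      refine p1.of_mod fun h => ?_
      have := h.mul_left m'
      omega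
    obtain ⟨ζ, hζ⟩ : ∃ ζ, ζ = ω ^ (m' * c) := ⟨_, rfl⟩
    have e5 : ζ ^ 5 = 1 := hζ ▸ p2.five
    have h1 : T ζ = ζ ^ 2 := by
      nth_rewrite 1 [hζ]
      rw [map_pow, hT, mul_pow, ← hζ, hc, pow_add, pow_mul, e5]
      ring
    have h0 : ω ^ (1 + m' * c * 4) = ω * ζ ^ 4 := by rw [pow_add, pow_one, pow_mul, hζ]
    rw [← hζ] at hT
    have a1 : T (T ω) = ω * ζ ^ 3 := by rw [hT, map_mul, hT, h1]; ring
    have a2 : T (T (T ω)) = ω * ζ ^ 7 := by rw [a1, map_mul, map_pow, hT, h1]; ring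
    have h2 : ∀ k : Fin 4, (T ^ (k : ℕ)) ω = ω ^ (1 + m' * c * 4) * (ω ^ (m' * c)) ^ ex k := by
      intro k
      rw [h0, ← hζ]
      fin_cases k
      · show ω = ω * ζ ^ 4 * ζ ^ 1
        linear_combination -ω * e5
      · show T ω = ω * ζ ^ 4 * ζ ^ 2
        linear_combination hT - ω * ζ * e5
      · show T (T ω) = ω * ζ ^ 4 * ζ ^ 4
        linear_combination a1 - ω * ζ ^ 3 * e5
      · show T (T (T ω)) = ω * ζ ^ 4 * ζ ^ 3
        linear_combination a2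
    have h3 : ∀ z, T (T (T (T z))) = z := fun z =>
      hom_ext hω (T ^ 4 : K ≃ₐ[ℚ] K) (RingHom.id K) (by
        show T (T (T (T ω))) = ω
        rw [a2, map_mul, map_pow, hT, h1]
        linear_combination ω * (ζ ^ 10 + ζ ^ 5 + 1) * e5) z
    refine ⟨fun k => T ^ (k : ℕ), _, _, p2, h2, fun β hβ => ?_⟩
    have h4 : T β = β := by
      rcases hβ with h | h | h | h
      · exact h.symm
      · exact (T.injective (T.injective h)).symm
      · have h : β = T (T (T β)) := h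
        have := h3 β
        rwa [← h] at this
      · exact (T.injective h).symm
    refine desc hω p2 (fun k => T ^ (k : ℕ)) h2 (Or.inr ?_) fun k => ?_
    · rw [show 1 + m' * c * 4 = 5 * (4 * d + 1) by omega, pow_mul]
      exact pow_mem (mem_adjoin_simple_self ℚ _) _
    · fin_cases k <;> simp [pow_succ, h4]

theorem int_poly {ω : K} (hω : IsPrimitiveRoot ω m) (z : 𝓞 K) : ∃ f : ℤ[X],
    z = aeval hω.toInteger f ∧ ∀ s : K →+* K,
      RingOfIntegers.mapRingHom s z = aeval (RingOfIntegers.mapRingHom s hω.toInteger) f := by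
  have h2 : z ∈ Algebra.adjoin ℤ {hω.toInteger} :=
    IsCyclotomicExtension.Rat.adjoin_singleton_eq_top hω ▸ Algebra.mem_top
  rw [Algebra.adjoin_singleton_eq_range_aeval] at h2
  obtain ⟨P, rfl⟩ := h2
  exact ⟨P, rfl, fun s => (aeval_algHom_apply (RingOfIntegers.mapRingHom s).toIntAlgHom _ P).symm⟩

theorem ram {m' : ℕ} (hm : m = 5 * m') {ω : K} (hz : ω = IsCyclotomicExtension.zeta m ℚ K)
    {x y : 𝓞 K} (hy : y ≠ 0)
    (hc : IsCoprime (Ideal.span {((5 : ℕ) : 𝓞 K)}) (Ideal.span {x, y}))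
    (hu : ∀ σ : K →+* ℂ, ‖σ x‖ = ‖σ y‖) (hn : ∀ j : ℕ, ω ^ j * (x / y) ∉ ℚ⟮ω ^ 5⟯) :
    (179 / 25) ^ finrank ℚ K ≤ mulHeight₁ ((x : K) / y) ^ 12 := by
  have hω : IsPrimitiveRoot ω m := hz ▸ IsCyclotomicExtension.zeta_spec m ℚ K
  obtain ⟨t, A, B, h1, h2, h3⟩ := level hm hz
  obtain ⟨T, hT⟩ : ∃ T : Fin 4 → 𝓞 K →+* 𝓞 K,
    T = fun k => RingOfIntegers.mapRingHom (t k : K →+* K) := ⟨_, rfl⟩
  have cT : ∀ k (z : 𝓞 K), (T k z : K) = t k z := fun k z => by rw [hT]; rfl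
  obtain ⟨ζ, hζ⟩ : ∃ ζ : 𝓞 K, ζ = hω.toInteger ^ B := ⟨_, rfl⟩
  have cζ : (ζ : K) = ω ^ B := by rw [hζ]; rfl
  have p : Phi ζ := by
    rw [← cζ, Phi] at h1
    rw [Phi]
    exact_mod_cast h1
  have ad : ∀ z : 𝓞 K, Ad5 ζ fun k => T k z := by
    intro z
    obtain ⟨f, -, hf⟩ := int_poly hω z
    have e : ∀ k, T k z = aeval (hω.toInteger ^ A * ζ ^ ex k) f := fun k => by
      rw [hT]
      refine (hf _).trans ?_
      congr 2
      refine Subtype.ext ((h2 k).trans ?_)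
      rw [hζ]
      rfl
    simp only [e]
    exact ad5_poly p _ f
  have hy' : (y : K) ≠ 0 := by exact_mod_cast hy
  have y0 : ∀ k, t k y ≠ 0 := fun k => (_root_.map_ne_zero _).2 hy'
  have nd : ∀ j k l, dd (tw ζ j fun k => T k x) (fun k => T k y) k l = 0 →
      t k (ω ^ j * (x / y)) = t l (ω ^ j * (x / y)) := by
    intro j k l h
    have := congrArg (fun z : 𝓞 K => (z : K)) h
    simp only [dd, tw] at this
    push_cast at this
    simp only [cT, cζ] at this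
    have := y0 k
    have := y0 l
    simp only [map_mul, map_pow, map_div₀, h2, mul_pow, ← pow_mul (ω ^ B), mul_comm (ex _) j]
    field_simp
    linear_combination (ω ^ A) ^ j * ‹_ - _ = (0 : K)›
  have H : Hyp (fun σ : K →+* ℂ => σ.comp (algebraMap (𝓞 K) K)) ζ (fun k => T k x)
      (fun k => T k y) fun k => Ideal.span {T k x, T k y} := by
    refine ⟨p, fun k => ml _ _, fun k => mr _ _, fun σ k => ?_, fun σ k => ?_,
      fun j => mu_A p ((ad x).1.tw j) (ad y).1, fun j => mu_C p ((ad x).1.tw j) (ad y).1,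
      fun j => ((ad x).1.tw j).harm p (ad y).1, fun j h => hn j (h3 _ ?_),
      fun j h => hn j (h3 _ ?_), harm5 p (ad x) (ad y)⟩
    · exact (_root_.map_ne_zero σ).2 ((cT k y).trans_ne (y0 k))
    · show ‖σ (T k x)‖ = ‖σ (T k y)‖
      rw [cT, cT]
      exact hu (σ.comp (t k : K →+* K))
    · exact (mul_eq_zero.1 h).elim (fun h => Or.inl (nd _ _ _ h))
        fun h => Or.inr (Or.inl (nd _ _ _ h))
    · exact (mul_eq_zero.1 h).elim (fun h => Or.inr (Or.inr (Or.inl (nd _ _ _ h))))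
        fun h => Or.inr (Or.inr (Or.inr (nd _ _ _ h)))
  have cp : ∀ k, IsCoprime (Ideal.span {((5 : ℕ) : 𝓞 K)}) (Ideal.span {T k x, T k y}) :=
    fun k => by rw [hT]; exact cop_map _ hc
  have hh : ∀ k, mulHeight₁ ((x : K) / y) * Ideal.absNorm (Ideal.span {T k x, T k y}) =
      ∏ σ : K →+* ℂ, ‖σ (T k y)‖ := fun k => by
    rw [hT]
    refine (ht_map _ x y hy).trans (Finset.prod_congr rfl fun σ _ => ?_)
    exact max_eq_right (hu (σ.comp (t k : K →+* K))).le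
  rw [show 12 = 4 * 3 by rfl, pow_mul]
  refine H.core fun μ W d e S a1 a2 a3 a4 a5 a6 a7 => key2
    ((((cp 0).mul_right (cp 1)).mul_right (cp 2)).mul_right (cp 3))
    (pow_nonneg (mulHeight₁_pos _).le _) ?_ a1 a2 d e S a3.1 a3.2 a4 a5 a6 a7
  simp only [nn, Finset.prod_mul_distrib, map_mul, Nat.cast_mul]
  show _ = (∏ σ : K →+* ℂ, ‖σ (T 0 y)‖) * (∏ σ : K →+* ℂ, ‖σ (T 1 y)‖) *
    (∏ σ : K →+* ℂ, ‖σ (T 2 y)‖) * ∏ σ : K →+* ℂ, ‖σ (T 3 y)‖
  rw [← hh, ← hh, ← hh, ← hh]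
  ring

theorem tors (s : K ≃ₐ[ℚ] K) {β : K} (h0 : β ≠ 0) (h : s β = β ^ 5) :
    ∃ n, 0 < n ∧ β ^ n = 1 := by
  have h1 : ∀ j : ℕ, (s ^ j) β = β ^ 5 ^ j := by
    intro j
    induction j with
    | zero => simp
    | succ j ih => rw [pow_succ', AlgEquiv.mul_apply, ih, map_pow, h, ← pow_mul, ← pow_succ']
  have h2 := h1 (orderOf s)
  have h3 : 1 < 5 ^ orderOf s := Nat.one_lt_pow (orderOf_pos s).ne' (by norm_num)
  rw [pow_orderOf_eq_one, AlgEquiv.one_apply, ← Nat.sub_add_cancel h3.le, pow_succ, eq_comm,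
    mul_eq_right₀ h0] at h2
  exact ⟨_, by omega, h2⟩

/-- The sixth power is a root of `7 X^2 - 13 X + 7` up to a root of unity. -/
def Ex {L : Type} [Field L] (α : L) : Prop :=
  ∃ (δ : L) (n : ℕ), 0 < n ∧ 7 * δ ^ 2 - 13 * δ + 7 = 0 ∧ (α ^ 6) ^ n = δ ^ n

theorem Ex.map {L L' : Type} [Field L] [Field L'] (f : L →+* L') {α : L} (h : Ex α) :
    Ex (f α) := by
  obtain ⟨δ, n, h1, h2, h3⟩ := h
  exact ⟨f δ, n, h1, by simpa [map_ofNat] using congrArg f h2, by simpa using congrArg f h3⟩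

theorem step {α : K} (h0 : α ≠ 0) (ht : ∀ n, 0 < n → α ^ n ≠ 1) {ω : K}
    (hz : ω = IsCyclotomicExtension.zeta m ℚ K) :
    ((179 / 25) ^ finrank ℚ K ≤ mulHeight₁ α ^ 12 ∨ Ex α) ∨
      ∃ m', m = 5 * m' ∧ ∃ j : ℕ, ω ^ j * α ∈ ℚ⟮ω ^ 5⟯ := by
  have hω : IsPrimitiveRoot ω m := hz ▸ IsCyclotomicExtension.zeta_spec m ℚ K
  obtain ⟨x, y, hy, rfl, hc⟩ := exists_frac_coprime α ((5 : ℕ) : 𝓞 K) (by simp)
  have hx : x ≠ 0 := by
    rintro rfl
    simp at h0
  obtain ⟨b, hb⟩ := ex_aut hω.inv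
  rw [← hz] at hb
  rcases circle (b : K →+* K) (fun σ => hom_ext hω (σ.comp (b : K →+* K))
    ((starRingEnd ℂ).comp σ) (by
      have : ‖σ ω‖ = 1 := (hω.map_of_injective σ.injective).norm'_eq_one (NeZero.ne m)
      simp [hb, Complex.inv_eq_conj this])) hx hy hc with h | hu
  · exact Or.inl (Or.inl h)
  by_cases h5 : 5 ∣ m
  · obtain ⟨m', hm⟩ := h5
    by_cases hn : ∀ j : ℕ, ω ^ j * (x / y) ∉ ℚ⟮ω ^ 5⟯
    · exact Or.inl (Or.inl (ram hm hz hy hc hu hn))
    · exact Or.inr ⟨m', hm, by simpa using hn⟩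
  left
  obtain ⟨s, hs⟩ := ex_aut (hω.pow_of_coprime 5
    ((Nat.Prime.coprime_iff_not_dvd (by norm_num)).2 h5))
  rw [← hz] at hs
  refine (unram (s : K →+* K) (fun z => ?_) hy hc hu (fun h => ?_) hx).imp_right ?_
  · obtain ⟨f, h1, h2⟩ := int_poly hω z
    have := Fact.mk Nat.prime_five
    have h4 : C ((5 : ℕ) : ℤ) ∣ f ^ 5 - expand ℤ 5 f := by
      rw [C_dvd_iff_dvd_coeff]
      intro i
      rw [← ZMod.intCast_zmod_eq_zero_iff_dvd, ← eq_intCast (Int.castRingHom (ZMod 5)),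
        ← coeff_map, Polynomial.map_sub, Polynomial.map_pow, map_expand, ZMod.expand_card,
        sub_self, coeff_zero]
    have h5 := map_dvd (aeval hω.toInteger) h4
    rw [map_sub, map_pow, expand_aeval, ← h1] at h5
    rw [h2, show RingOfIntegers.mapRingHom (s : K →+* K) hω.toInteger = hω.toInteger ^ 5 from
      Subtype.ext hs]
    simpa [map_ofNat] using h5
  · obtain ⟨n, h1, h2⟩ := tors s h0 h.symm
    exact ht n h1 h2
  · rintro ⟨β, h1, h2⟩
    have b0 : β ≠ 0 := by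
      rintro rfl
      simp at h1
    obtain ⟨n, h3, h4⟩ := tors s (div_ne_zero (pow_ne_zero 6 h0) b0) h2
    rw [div_pow, div_eq_one_iff_eq (pow_ne_zero _ b0)] at h4
    refine ⟨(3 * β + 7) / 5, n * 3, by omega, by linear_combination (9 / 25) * h1, ?_⟩
    rw [pow_mul, h4, pow_right_comm, mul_comm n, pow_mul]
    congr 1
    linear_combination ((14 * β - 49) / 125) * h1

theorem lg1 : (41 / 250 : ℝ) * 12 ≤ Real.log (179 / 25) := by
  rw [Real.le_log_iff_exp_le (by norm_num)]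
  have h1 : Real.exp (41 / 250 * 12) * Real.exp (4 / 125) = Real.exp 1 * Real.exp 1 := by
    rw [← Real.exp_add, ← Real.exp_add]
    norm_num
  have h2 := Real.add_one_le_exp (4 / 125)
  have h3 := Real.exp_one_lt_d9
  have h4 := Real.exp_pos 1
  have h5 := Real.exp_pos (41 / 250 * 12)
  nlinarith

theorem lg2 : Real.log 7 / 12 < 41 / 250 := by
  rw [div_lt_iff₀ (by norm_num), Real.log_lt_iff_lt_exp (by norm_num)]
  have h1 : Real.exp (41 / 250 * 12) = Real.exp 1 * Real.exp 1 * Real.exp (-4 / 125) := by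
    rw [← Real.exp_add, ← Real.exp_add]
    norm_num
  have h2 := Real.add_one_le_exp (-4 / 125)
  have h3 := Real.exp_one_gt_d9
  have h4 : 7.38 ≤ Real.exp 1 * Real.exp 1 := by nlinarith
  nlinarith

theorem lower (m : ℕ) : ∀ (K : Type) [Field K] [NumberField K] [NeZero m]
    [IsCyclotomicExtension {m} ℚ K] (α : K), α ≠ 0 → (∀ n, 0 < n → α ^ n ≠ 1) →
    41 / 250 ≤ absLogHeight₁ α ∨ Ex α := by
  induction m using Nat.strong_induction_on with
  | _ m ih =>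
  intro K _ _ _ _ α h0 ht
  have hω := IsCyclotomicExtension.zeta_spec m ℚ K
  rcases step (m := m) h0 ht rfl with (h | h) | ⟨m', hm, j, h⟩
  · left
    have hD : (0 : ℝ) < finrank ℚ K := by exact_mod_cast finrank_pos
    have h5 := Real.log_le_log (by positivity) h
    rw [Real.log_pow, Real.log_pow] at h5
    rw [absH_self, le_div_iff₀ hD, logHeight₁]
    push_cast at h5
    linarith [mul_le_mul_of_nonneg_left lg1 hD.le]
  · exact Or.inr h
  obtain ⟨ω, hz⟩ : ∃ ω, ω = IsCyclotomicExtension.zeta m ℚ K := ⟨_, rfl⟩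
  rw [← hz] at h hω
  have m0 := NeZero.pos m
  have : NeZero m' := ⟨by omega⟩
  have : IsCyclotomicExtension {m'} ℚ ℚ⟮ω ^ 5⟯ :=
    (hω.pow m0 hm).intermediateField_adjoin_isCyclotomicExtension ℚ
  have e : (ω ^ j) ^ m = 1 := by rw [pow_right_comm, hω.pow_eq_one, one_pow]
  have w0 : ω ^ j ≠ 0 := fun h => by simp [h, m0.ne'] at e
  have h1 := ih m' (by omega) ℚ⟮ω ^ 5⟯ ⟨_, h⟩
    (fun e => mul_ne_zero w0 h0 (congrArg Subtype.val e)) fun n hn e' => ht (n * m)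
      (Nat.mul_pos hn m0) (by
        have : (ω ^ j * α) ^ n = 1 := congrArg Subtype.val e'
        have h2 : (ω ^ j * α) ^ (n * m) = 1 := by rw [pow_mul, this, one_pow]
        rwa [mul_pow, mul_comm n, pow_mul, e, one_pow, one_mul, mul_comm m] at h2)
  refine h1.imp (fun h1 => ?_) fun h1 => ?_
  · rw [← absH_map (algebraMap ℚ⟮ω ^ 5⟯ K)] at h1
    refine h1.trans
      ((absH_mul_le (x := ω ^ j) (y := α) (.of_finite ℚ _) (.of_finite ℚ _)).trans ?_)
    rw [absH_root m0.ne' e, zero_add]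
  · obtain ⟨δ, n, h2, h3, h4⟩ : Ex (ω ^ j * α) := h1.map (algebraMap ℚ⟮ω ^ 5⟯ K)
    refine ⟨δ, n * m, Nat.mul_pos h2 m0, h3, ?_⟩
    rw [pow_mul δ, ← h4]
    linear_combination (α ^ 6) ^ (n * m) * (congrArg (· ^ (6 * n)) e).symm

end Pool.Agent.Lib.MP_f61260_nt.Ab
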