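import Mathlib

/-! The element of `ℚ(ζ₂₁)` of height `log 7 / 12`. -/

set_option autoImplicit false

namespace Pool.Agent.Lib.MP_f61260_nt.Ab

open Height NumberField Module

lemma sq_inf {K : Type*} [Field K] (v : InfinitePlace K) {p : K} (h : p ^ 2 - p + 7 = 0) :
    v p ^ 2 = 7 := by
  have h1 : v.embedding p ^ 2 - v.embedding p + 7 = 0 := by
    simpa [map_ofNat] using congrArg v.embedding h
  rw [← v.norm_embedding_eq, Complex.sq_norm, Complex.normSq_apply]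
  have h2 := congrArg Complex.re h1
  have h3 := congrArg Complex.im h1
  simp [sq] at h2 h3
  rcases mul_eq_zero.1 (show (v.embedding p).im * (2 * (v.embedding p).re - 1) = 0 by linarith)
    with e | e
  · rw [e] at h2
    nlinarith [sq_nonneg ((v.embedding p).re - 1 / 2)]
  · nlinarith

lemma le_fin {K : Type*} [Field K] [NumberField K] (v : FinitePlace K) {p : K}
    (h : p ^ 2 - p + 7 = 0) : v p ≤ 1 := by
  by_contra h0
  have h1 : 1 < v p := not_le.1 h0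
  have h2 : v (p ^ 2) ≤ max (v p) (v (-7)) := by
    rw [show p ^ 2 = p + -7 by linear_combination h]
    exact v.add_le _ _
  have h3 : v (-7) ≤ 1 := by
    have := IsNonarchimedean.apply_intCast_le_one (f := v.1) (n := -7) (FinitePlace.add_le v)
    simpa [← FinitePlace.coe_apply] using this
  rw [map_pow, max_eq_left (h3.trans h1.le)] at h2
  nlinarith

/-- The relative height of a root of `7 X^12 - 13 X^6 + 7`. -/
theorem rel_sharp {K : Type*} [Field K] [NumberField K] {a : K}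
    (h : 7 * a ^ 12 - 13 * a ^ 6 + 7 = 0) : mulHeight₁ a ^ 12 = 7 ^ finrank ℚ K := by
  have h1 : a ^ 6 - 1 ≠ 0 := fun e => by
    have : (1 : K) = 0 := by linear_combination h - (7 * a ^ 6 - 6) * e
    exact one_ne_zero this
  obtain ⟨q, hq⟩ : ∃ q, q * (a ^ 6 - 1) = 1 := ⟨_, inv_mul_cancel₀ h1⟩
  have hp : (1 + q) ^ 2 - (1 + q) + 7 = 0 := by
    linear_combination q ^ 2 * h - (7 * q * (a ^ 6 - 1) + 7 + q) * hq
  have hq' : (-q) ^ 2 - (-q) + 7 = 0 := by linear_combination hp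
  have hq0 : q ≠ 0 := left_ne_zero_of_mul_eq_one hq
  have h2 : a ^ 6 = (1 + q) / q := by
    rw [eq_div_iff hq0]
    linear_combination hq
  have h3 : ∀ v : FinitePlace K, ⨆ i, v (![1 + q, q] i) = 1 := fun v => by
    have a1 := le_fin v hp
    have a2 : v q ≤ 1 := by simpa using le_fin v hq'
    have a3 := v.add_le (1 + q) (-q)
    refine le_antisymm (ciSup_le fun i => by fin_cases i <;> assumption) ?_
    rw [add_neg_cancel_right, map_one, le_max_iff] at a3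
    rcases a3 with e | e
    · exact le_ciSup_of_le (Finite.bddAbove_range _) 0 e
    · exact le_ciSup_of_le (Finite.bddAbove_range _) 1 (by simpa using e)
  have h5 : ∀ v : InfinitePlace K, v q ^ 2 = 7 := fun v => by
    rw [← sq_inf v hq', ← map_pow, ← map_pow, neg_sq]
  have h4 : ∀ v : InfinitePlace K, ⨆ i, v (![1 + q, q] i) = v q := fun v => by
    have a1 : v (1 + q) = v q := by
      rw [← sq_eq_sq₀ (apply_nonneg _ _) (apply_nonneg _ _), sq_inf v hp, h5]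
    rw [← ciSup_const (ι := Fin 2) (a := v q)]
    exact congrArg _ (funext fun i => by fin_cases i <;> simp [a1])
  rw [show 12 = 6 * 2 from rfl, pow_mul, ← mulHeight₁_pow, h2, mulHeight₁_div_eq_mulHeight,
    NumberField.mulHeight_eq (fun e => hq0 (congrFun e 1))]
  simp only [h3, h4, finprod_one, mul_one]
  rw [← Finset.prod_pow, ← InfinitePlace.sum_mult_eq, ← Finset.prod_pow_eq_pow_sum]
  refine Finset.prod_congr rfl fun v _ => ?_
  rw [← pow_mul, mul_comm, pow_mul, h5]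

/-- A root of `7 X^12 - 13 X^6 + 7` built from roots of unity of orders 7 and 3. -/
theorem root_sharp {K : Type*} [Field K] [CharZero K] {z o : K} (hz : IsPrimitiveRoot z 7)
    (ho : IsPrimitiveRoot o 3) {a : K}
    (ha : a = (z + z ^ 6 + o * (z ^ 3 + z ^ 4) + o ^ 2 * (z ^ 2 + z ^ 5)) /
      (1 + 2 * (z + z ^ 2 + z ^ 4))) : 7 * a ^ 12 - 13 * a ^ 6 + 7 = 0 := by
  have h1 := hz.geom_sum_eq_zero (by norm_num)
  have h2 := ho.geom_sum_eq_zero (by norm_num)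
  simp only [Finset.sum_range_succ, Finset.range_zero, Finset.sum_empty] at h1 h2
  have h3 : (z + z ^ 6 + o * (z ^ 3 + z ^ 4) + o ^ 2 * (z ^ 2 + z ^ 5)) ^ 3 = -7 - 21 * o := by
    linear_combination (7 + 21 * o - 7 * z - 21 * z * o + z ^ 3 - 4 * z ^ 4 - 3 * z ^ 4 * o + 3 * z ^ 5 + 9 * z ^
      5 * o + 7 * z ^ 6 - 3 * z ^ 6 * o - 3 * z ^ 7 + 9 * z ^ 7 * o - 10 * z ^ 8 - 12 * z ^ 8 *
      o + 7 * z ^ 9 - 3 * z ^ 9 * o + 3 * z ^ 10 + 9 * z ^ 10 * o - 4 * z ^ 11 - 3 * z ^ 11 * o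
      + z ^ 12) * h1 +
      (3 * z ^ 4 - 3 * z ^ 5 * o + 3 * z ^ 5 * o ^ 2 - 7 * z ^ 6 + 7 * z ^ 6 * o - z ^ 6 * o ^ 3
      + z ^ 6 * o ^ 4 + 3 * z ^ 7 + 6 * z ^ 7 * o - 3 * z ^ 7 * o ^ 2 + 3 * z ^ 7 * o ^ 3 + 9 *
      z ^ 8 - 9 * z ^ 8 * o + 6 * z ^ 8 * o ^ 2 + 3 * z ^ 8 * o ^ 3 - z ^ 9 + 4 * z ^ 9 * o + 6
      * z ^ 9 * o ^ 2 - 3 * z ^ 9 * o ^ 3 + 3 * z ^ 9 * o ^ 4 - 3 * z ^ 10 + 3 * z ^ 10 * o + 6
      * z ^ 10 * o ^ 3 - 3 * z ^ 11 + 3 * z ^ 11 * o + 6 * z ^ 11 * o ^ 3 - z ^ 12 + 4 * z ^ 12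
      * o + 6 * z ^ 12 * o ^ 2 - 3 * z ^ 12 * o ^ 3 + 3 * z ^ 12 * o ^ 4 + 9 * z ^ 13 - 9 * z ^
      13 * o + 6 * z ^ 13 * o ^ 2 + 3 * z ^ 13 * o ^ 3 + 3 * z ^ 14 + 6 * z ^ 14 * o - 3 * z ^
      14 * o ^ 2 + 3 * z ^ 14 * o ^ 3 - 7 * z ^ 15 + 7 * z ^ 15 * o - z ^ 15 * o ^ 3 + z ^ 15 *
      o ^ 4 - 3 * z ^ 16 * o + 3 * z ^ 16 * o ^ 2 + 3 * z ^ 17) * h2
  have h4 : (1 + 2 * (z + z ^ 2 + z ^ 4)) ^ 2 = -7 := by
    linear_combination (8 - 4 * z + 4 * z ^ 2) * h1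
  have h5 : a ^ 6 = (8 + 3 * o) / 7 := by
    rw [ha, div_pow, pow_mul _ 3 2, h3, pow_mul _ 2 3, h4]
    linear_combination (-9 / 7) * h2
  rw [pow_mul a 6 2, h5]
  linear_combination (9 / 7) * h2

theorem root_int {a : ℂ} (h : 7 * a ^ 12 - 13 * a ^ 6 + 7 = 0) : IsIntegral ℚ a :=
  IsAlgebraic.isIntegral
    ⟨Polynomial.C 7 * Polynomial.X ^ 12 - Polynomial.C 13 * Polynomial.X ^ 6 + Polynomial.C 7,
      fun e => by simpa using congrArg (Polynomial.eval 0) e, by simpa using h⟩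

theorem root_facts {a : ℂ} (h : 7 * a ^ 12 - 13 * a ^ 6 + 7 = 0) :
    a ≠ 0 ∧ (∀ n : ℕ, 0 < n → a ^ n ≠ 1) ∧ absLogHeight₁ a = Real.log 7 / 12 := by
  have hi := root_int h
  have := IntermediateField.adjoin.finiteDimensional hi
  have : NumberField (IntermediateField.adjoin ℚ {a}) := {}
  have h1 := rel_sharp (a := IntermediateField.AdjoinSimple.gen ℚ a) (Subtype.ext h)
  have h2 := finrank_pos (R := ℚ) (M := IntermediateField.adjoin ℚ {a})
  refine ⟨fun e => by simp [e] at h, fun n hn e => ?_, ?_⟩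
  · have h3 := mulHeight₁_pow (IntermediateField.AdjoinSimple.gen ℚ a) n
    rw [show IntermediateField.AdjoinSimple.gen ℚ a ^ n = 1 from Subtype.ext (by simpa using e),
      mulHeight₁_one, eq_comm, pow_eq_one_iff_of_nonneg (mulHeight₁_nonneg _) hn.ne'] at h3
    rw [h3, one_pow] at h1
    exact (one_lt_pow₀ (by norm_num) h2.ne').ne h1
  · have h3 := congrArg Real.log h1
    rw [Real.log_pow, Real.log_pow] at h3
    rw [absLogHeight₁, absMulHeight₁, dif_pos hi, Real.log_rpow (mulHeight₁_pos _),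
      inv_mul_eq_div, div_eq_div_iff (by exact_mod_cast h2.ne') (by norm_num)]
    push_cast at h3
    linarith

/-- One root lies in the field generated by the roots of unity. -/
theorem sharp : ∃ a ∈ IntermediateField.adjoin ℚ {z : ℂ | ∃ n : ℕ, 0 < n ∧ z ^ n = 1},
    7 * a ^ 12 - 13 * a ^ 6 + 7 = 0 := by
  have hz := Complex.isPrimitiveRoot_exp 7 (by norm_num)
  have ho := Complex.isPrimitiveRoot_exp 3 (by norm_num)
  have mz := IntermediateField.subset_adjoin ℚ {z : ℂ | ∃ n : ℕ, 0 < n ∧ z ^ n = 1}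
    ⟨7, by norm_num, hz.pow_eq_one⟩
  have mo := IntermediateField.subset_adjoin ℚ {z : ℂ | ∃ n : ℕ, 0 < n ∧ z ^ n = 1}
    ⟨3, by norm_num, ho.pow_eq_one⟩
  refine ⟨_, ?_, root_sharp hz ho rfl⟩
  exact div_mem (add_mem (add_mem (add_mem mz (pow_mem mz 6)) (mul_mem mo (add_mem (pow_mem mz 3)
    (pow_mem mz 4)))) (mul_mem (pow_mem mo 2) (add_mem (pow_mem mz 2) (pow_mem mz 5))))
    (add_mem (one_mem _) (mul_mem (ofNat_mem _ 2)
      (add_mem (add_mem mz (pow_mem mz 2)) (pow_mem mz 4))))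

/-- Every root lies in the field generated by the roots of unity. -/
theorem root_mem {r : ℂ} (h : 7 * r ^ 12 - 13 * r ^ 6 + 7 = 0) :
    r ∈ IntermediateField.adjoin ℚ {z : ℂ | ∃ n : ℕ, 0 < n ∧ z ^ n = 1} := by
  obtain ⟨a, h1, h2⟩ := sharp
  have a0 := (root_facts h2).1
  have h3 : (r ^ 6 - a ^ 6) * ((r * a) ^ 6 - 1) = 0 := by
    linear_combination (a ^ 6 / 7) * h - (r ^ 6 / 7) * h2
  rcases mul_eq_zero.1 h3 with e | e
  · rw [← div_mul_cancel₀ r a0]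
    exact mul_mem (IntermediateField.subset_adjoin ℚ _ ⟨6, by norm_num, by
      rw [div_pow, sub_eq_zero.1 e, div_self (pow_ne_zero 6 a0)]⟩) h1
  · rw [← mul_div_cancel_right₀ r a0]
    exact div_mem (IntermediateField.subset_adjoin ℚ _ ⟨6, by norm_num, sub_eq_zero.1 e⟩) h1

end Pool.Agent.Lib.MP_f61260_nt.Ab
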