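import Pool.Agent.Lib.MP_f61260_nt.Ab.Level
import Pool.Agent.Lib.MP_f61260_nt.Ab.Sharp

/-! The bottom of the height spectrum of the field generated by all roots of unity. -/

set_option autoImplicit false

open NumberField IntermediateField

namespace Pool.Agent.Lib.MP_f61260_nt.Ab

theorem lowerC {α : ℂ} (h : α ∈ adjoin ℚ {z : ℂ | ∃ n : ℕ, 1 ≤ n ∧ z ^ n = 1}) (h0 : α ≠ 0)
    (ht : ∀ n : ℕ, 1 ≤ n → α ^ n ≠ 1) : 41 / 250 ≤ absLogHeight₁ α ∨ Ex α := by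
  classical
  obtain ⟨T, h1, h2⟩ := exists_finset_of_mem_adjoin h
  have h1' : ∀ t ∈ T, ∃ n : ℕ, 1 ≤ n ∧ t ^ n = 1 := fun t ht => h1 ht
  choose! n n1 n2 using h1'
  obtain ⟨N, hN⟩ : ∃ N, N = ∏ t ∈ T, n t := ⟨_, rfl⟩
  have N0 : 0 < N := hN ▸ Finset.prod_pos n1
  have : NeZero N := ⟨N0.ne'⟩
  have hζ := Complex.isPrimitiveRoot_exp N N0.ne'
  generalize Complex.exp _ = ζ at hζ
  have hi : IsIntegral ℚ ζ := isIntegral_of_pow_eq_one N0.ne' hζ.pow_eq_one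
  have h3 : α ∈ ℚ⟮ζ⟯ := by
    refine adjoin_le_iff.2 (fun t ht => ?_) h2
    obtain ⟨c, hc⟩ := Finset.dvd_prod_of_mem n ht
    obtain ⟨i, -, rfl⟩ := hζ.eq_pow_of_pow_eq_one (ξ := t) (by
      rw [hN, hc, pow_mul, n2 t ht, one_pow])
    exact pow_mem (mem_adjoin_simple_self ℚ ζ) i
  have := adjoin.finiteDimensional hi
  have : NumberField ℚ⟮ζ⟯ := {}
  have : IsCyclotomicExtension {N} ℚ ℚ⟮ζ⟯ := by
    change IsCyclotomicExtension {N} ℚ ℚ⟮ζ⟯.toSubalgebra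
    rw [adjoin_simple_toSubalgebra_of_isAlgebraic hi.isAlgebraic]
    exact hζ.adjoin_isCyclotomicExtension ℚ
  have h4 := lower N ℚ⟮ζ⟯ ⟨α, h3⟩ (fun e => h0 (congrArg Subtype.val e))
    fun k hk e => ht k hk (congrArg Subtype.val e)
  rw [← absH_map (algebraMap ℚ⟮ζ⟯ ℂ)] at h4
  exact h4.imp_right fun h => h.map (algebraMap ℚ⟮ζ⟯ ℂ)

theorem back {α ζ : ℂ} {n : ℕ} (hn : 1 ≤ n) (hζ : ζ ^ n = 1)
    (h : 7 * (ζ * α) ^ 12 - 13 * (ζ * α) ^ 6 + 7 = 0) :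
    α ∈ adjoin ℚ {z : ℂ | ∃ n : ℕ, 1 ≤ n ∧ z ^ n = 1} ∧ α ≠ 0 ∧ (∀ n : ℕ, 1 ≤ n → α ^ n ≠ 1) ∧
      absLogHeight₁ α = Real.log 7 / 12 := by
  obtain ⟨h1, h2, h3⟩ := root_facts h
  have n0 : n ≠ 0 := by omega
  have z0 : ζ ≠ 0 := left_ne_zero_of_mul h1
  have hζ' : ζ⁻¹ ^ n = 1 := by rw [inv_pow, hζ, inv_one]
  have e : α = ζ⁻¹ * (ζ * α) := (inv_mul_cancel_left₀ z0 α).symm
  have i1 := isIntegral_of_pow_eq_one n0 hζ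
  have i2 := isIntegral_of_pow_eq_one n0 hζ'
  have i3 := root_int h
  have i4 : IsIntegral ℚ α := e ▸ i2.mul i3
  refine ⟨e ▸ mul_mem (subset_adjoin ℚ _ ⟨n, hn, hζ'⟩) (root_mem h), right_ne_zero_of_mul h1,
    fun k hk e' => h2 (n * k) (Nat.mul_pos hn hk) ?_, le_antisymm ?_ ?_⟩
  · rw [mul_pow, pow_mul, hζ, mul_comm n, pow_mul α, e', one_pow, one_pow, one_mul]
  · have := absH_mul_le i2 i3
    rwa [← e, absH_root n0 hζ', zero_add, h3] at this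
  · have := absH_mul_le i1 i4
    rwa [absH_root n0 hζ, zero_add, h3] at this

theorem bottom (α : ℂ) (t : ℝ) :
    (α ∈ adjoin ℚ {z : ℂ | ∃ n : ℕ, 1 ≤ n ∧ z ^ n = 1} ∧ α ≠ 0 ∧ (∀ n : ℕ, 1 ≤ n → α ^ n ≠ 1) ∧
      absLogHeight₁ α = t ∧ t < 41 / 250) ↔
    (t = Real.log 7 / 12 ∧ ∃ ζ : ℂ, (∃ n : ℕ, 1 ≤ n ∧ ζ ^ n = 1) ∧
      7 * (ζ * α) ^ 12 - 13 * (ζ * α) ^ 6 + 7 = 0) := by
  constructor
  · rintro ⟨h1, h2, h3, rfl, h5⟩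
    obtain ⟨δ, n, a1, a2, a3⟩ := (lowerC h1 h2 h3).resolve_left h5.not_ge
    obtain ⟨ζ, hζ⟩ := IsAlgClosed.exists_pow_nat_eq (δ / α ^ 6) (show 0 < 6 by norm_num)
    have e1 : ζ ^ (6 * n) = 1 := by
      rw [pow_mul, hζ, div_pow, ← a3, div_self (pow_ne_zero _ (pow_ne_zero _ h2))]
    have e2 : (ζ * α) ^ 6 = δ := by rw [mul_pow, hζ, div_mul_cancel₀ _ (pow_ne_zero _ h2)]
    have e3 : 7 * (ζ * α) ^ 12 - 13 * (ζ * α) ^ 6 + 7 = 0 := by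
      rw [← e2] at a2
      linear_combination a2
    exact ⟨(back (by omega) e1 e3).2.2.2, ζ, ⟨6 * n, by omega, e1⟩, e3⟩
  · rintro ⟨rfl, ζ, ⟨n, h1, h2⟩, h3⟩
    obtain ⟨a1, a2, a3, a4⟩ := back h1 h2 h3
    exact ⟨a1, a2, a3, a4, lg2⟩

end Pool.Agent.Lib.MP_f61260_nt.Ab
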