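import Pool.Agent.Lib.MP_f61260_nt.Ab.Chk

set_option autoImplicit false
set_option maxRecDepth 100000

namespace Pool.Agent.Lib.MP_f61260_nt.Ab

theorem run1f : all8 P1 false = true := by decide +kernel

end Pool.Agent.Lib.MP_f61260_nt.Ab
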