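import Pool.Agent.Lib.MP_f61260_nt.Ab.Snd
import Pool.Agent.Lib.MP_f61260_nt.Ab.Run1
import Pool.Agent.Lib.MP_f61260_nt.Ab.Run2
import Pool.Agent.Lib.MP_f61260_nt.Ab.Run3

/-! The four real inequalities. -/

set_option autoImplicit false
set_option exponentiation.threshold 2000
set_option linter.unusedSimpArgs false

namespace Pool.Agent.Lib.MP_f61260_nt.Ab

def ra (s σ u v : ℝ) (j : ℕ) : ℝ := val s σ u v 0 0 0 (sa j)

def rb (s σ p q : ℝ) (j : ℕ) : ℝ := val s σ 0 0 p q 0 (sb j)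

variable {s σ u v p q z : ℝ}

theorem val_add (f g : SF) :
    val s σ u v p q z (f.add g) = val s σ u v p q z f + val s σ u v p q z g := by
  simp only [val, SF.add]
  push_cast
  ring

theorem val_neg (f : SF) : val s σ u v p q z f.neg = -val s σ u v p q z f := by
  simp only [val, SF.neg]
  push_cast
  ring

theorem val_ms (h : s ^ 2 + s = 1) (f : SF) :
    val s σ u v p q z f.ms = s * val s σ u v p q z f := by
  simp only [val, SF.ms]
  push_cast
  linear_combination -(f.y0 * u + f.y1 * σ * v + f.y2 * p + f.y3 * σ * q + f.y4 * z) * h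

theorem val_sa (j : ℕ) : val s σ u v p q z (sa j) = ra s σ u v j := by
  rcases j with _ | _ | _ | _ | j <;> simp [ra, val, sa]

theorem val_sb (j : ℕ) : val s σ u v p q z (sb j) = rb s σ p q j := by
  rcases j with _ | _ | _ | _ | j <;> simp [rb, val, sb]

theorem val_c3 : val s σ u v p q z c3 = 2 * z := by simp [val, c3]

theorem val_c2 : val s σ u v p q z c2 = (1 + s) * rb s σ p q 0 - s * ra s σ u v 0 := by
  simp [val, c2, ra, rb, sa, sb]
  ring

theorem cs_of (h : s ^ 2 + s = 1) (h0 : 0 < s) (h1 : 4 * σ ^ 2 = 3 + s) (h2 : 0 < σ) : Cs s σ := by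
  have a1 : 0.6180339 < s := by nlinarith
  have a2 : s < 0.618034 := by nlinarith
  have a3 : 0.9510565 < σ := by nlinarith
  have a4 : σ < 0.9510566 := by nlinarith
  refine ⟨abs_le.2 ⟨by linarith, by linarith⟩, abs_le.2 ⟨by linarith, by linarith⟩,
    abs_le.2 ⟨by nlinarith, by nlinarith⟩⟩

/-- The real data at a complex place: two pentagons and a number. -/
structure Cf (s : ℝ) (a b : ℕ → ℝ) : Prop where
  ss : s ^ 2 + s = 1
  ex : ∃ σ u v p q : ℝ, Cs s σ ∧ u ^ 2 + v ^ 2 = 1 ∧ p ^ 2 + q ^ 2 = 1 ∧ a = ra s σ u v ∧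
    b = rb s σ p q

def gP (s : ℝ) (a b : ℕ → ℝ) (C : ℝ) (j : ℕ) : ℝ := C - b j + s * (a j - b j)

def gM (s : ℝ) (a b : ℕ → ℝ) (C : ℝ) (j : ℕ) : ℝ := a j - C + s * (a j - b j)

variable {a b : ℕ → ℝ} {C : ℝ}

theorem r1 (h : Cf s a b) (hC : |C| ≤ 2) :
    |gP s a b C 0| * |gM s a b C 0| * (|gP s a b C 1| * |gM s a b C 1|) *
      (|gP s a b C 2| * |gM s a b C 2|) * (|gP s a b C 3| * |gM s a b C 3|) *
      (|gP s a b C 4| * |gM s a b C 4|) ≤ 13803 := by
  obtain ⟨hs, σ, u, v, p, q, h0, h1, h2, rfl, rfl⟩ := h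
  have := all_s (c := C / 2) h0 P1 rfl run1t (Or.inr run1f) h1 h2
    (by rw [abs_div, abs_two]; linarith)
  simp only [Ph, P1, sP, sM, sA, sC, sB, val_add, val_neg, val_ms hs, val_sa, val_sb, val_c3,
    List.not_mem_nil, false_and, exists_false, Bool.false_eq_true, or_false, false_or,
    List.map_cons, List.map_nil, List.prod_cons, List.prod_nil, ← sub_eq_add_neg,
    show 2 * (C / 2) = C by ring] at this
  simp only [gP, gM]
  refine le_of_mul_le_mul_left (le_of_eq_of_le ?_ (this.trans_eq ?_))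
    (show (0 : ℝ) < 2199023255552 ^ 10 by positivity)
  · ring
  · norm_num

theorem r2 (h : Cf s a b) (hC : |C| ≤ 2) (h0 : gP s a b C 0 = 0)
    (hz : gP s a b C 1 = 0 ∨ gP s a b C 4 = 0) :
    |a 0 - b 0| * |a 1 - b 1| * |a 2 - b 2| * |a 3 - b 3| * |a 4 - b 4| ≤ 67 / 32 := by
  obtain ⟨hs, σ, u, v, p, q, h3, h1, h2, rfl, rfl⟩ := h
  have e : (1 + s) * rb s σ p q 0 - s * ra s σ u v 0 = C := by
    rw [gP] at h0
    linarith
  have := all_s (c := 0) h3 P2 rfl run2t (Or.inl rfl) h1 h2 (by simp)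
  simp only [Ph, P2, sP, sM, sA, sC, sB, val_add, val_neg, val_ms hs, val_sa, val_sb, val_c2, e,
    List.mem_cons, List.not_mem_nil, false_and, Bool.false_eq_true, or_false, exists_eq_left,
    forall_eq_or_imp, forall_eq, true_and,
    List.map_cons, List.map_nil, List.prod_cons, List.prod_nil, ← sub_eq_add_neg] at this
  rcases this with this | this | this
  · linarith
  · refine le_of_mul_le_mul_left (le_of_eq_of_le ?_ (this.trans_eq ?_))
      (show (0 : ℝ) < 2199023255552 ^ 5 by positivity)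
    · ring
    · norm_num
  · exact absurd hz (not_or.2 this)

theorem r3 (h : Cf s a b) (hC : |C| ≤ 2) (h0 : gP s a b C 0 = 0) :
    |a 0 - b 0| ^ 4 * |a 2 - b 2| * |a 3 - b 3| *
      (|gP s a b C 1| * |gP s a b C 4| * |gM s a b C 1| * |gM s a b C 4|) ^ 2 *
      |gM s a b C 2| * |gM s a b C 3| ≤ 33656 := by
  obtain ⟨hs, σ, u, v, p, q, h3, h1, h2, rfl, rfl⟩ := h
  have e : (1 + s) * rb s σ p q 0 - s * ra s σ u v 0 = C := by
    rw [gP] at h0
    linarith
  have := all_s (c := 0) h3 P3 rfl run3t (Or.inl rfl) h1 h2 (by simp)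
  simp only [Ph, P3, sP, sM, sA, sC, sB, val_add, val_neg, val_ms hs, val_sa, val_sb, val_c2, e,
    List.mem_cons, List.not_mem_nil, false_and, Bool.false_eq_true, or_false, exists_eq_left,
    List.map_cons, List.map_nil, List.prod_cons, List.prod_nil, ← sub_eq_add_neg] at this
  rcases this with this | this
  · linarith
  · simp only [gP, gM]
    refine le_of_mul_le_mul_left (le_of_eq_of_le ?_ (this.trans_eq ?_))
      (show (0 : ℝ) < 2199023255552 ^ 16 by positivity)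
    · ring
    · norm_num

theorem r4 (h : Cf s a b) (hC : |C| ≤ 2) (h0 : gP s a b C 0 = 0)
    (hz : gM s a b C 1 = 0 ∨ gM s a b C 2 = 0 ∨ gM s a b C 3 = 0 ∨ gM s a b C 4 = 0) {α γ : ℝ}
    (hα : α = (C - b 0) * (C - b 1) * (C - b 2) * (C - b 3) * (C - b 4))
    (hγ : γ = (a 0 - C) * (a 1 - C) * (a 2 - C) * (a 3 - C) * (a 4 - C))
    (hG : α ^ 2 + 3 * α * γ + γ ^ 2 = 0) :
    |a 0 - b 0| ^ 5 * (|a 1 - b 1| * |a 4 - b 4|) ^ 3 * (|a 2 - b 2| * |a 3 - b 3|) ^ 4 *
      (|gP s a b C 1| * |gP s a b C 4|) ^ 2 ≤ 761 := by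
  obtain ⟨hs, σ, u, v, p, q, h3, h1, h2, rfl, rfl⟩ := h
  have e : (1 + s) * rb s σ p q 0 - s * ra s σ u v 0 = C := by
    rw [gP] at h0
    linarith
  have := all_s (c := 0) h3 P4 rfl run4t (Or.inl rfl) h1 h2 (by simp)
  simp only [Ph, P4, sP, sM, sA, sC, sB, val_add, val_neg, val_ms hs, val_sa, val_sb, val_c2, e,
    List.mem_cons, List.not_mem_nil, or_false, exists_eq_left,
    forall_eq_or_imp, forall_eq, true_and,
    List.map_cons, List.map_nil, List.prod_cons, List.prod_nil, ← sub_eq_add_neg] at this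
  rcases this with this | this | this | this
  · linarith
  · simp only [gP]
    refine le_of_mul_le_mul_left (le_of_eq_of_le ?_ (this.trans_eq ?_))
      (show (0 : ℝ) < 2199023255552 ^ 23 by positivity)
    · ring
    · norm_num
  · simp only [gM] at hz
    tauto
  · exfalso
    have h4 : ((1 + s) * α + s * γ) * (s * α + (1 + s) * γ) = 0 := by
      linear_combination hG + (α ^ 2 + 2 * α * γ + γ ^ 2) * hs
    rcases mul_eq_zero.1 h4 with h4 | h4
    · refine this.1 ?_
      rw [hα, hγ] at h4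
      linear_combination 2199023255552 ^ 5 * h4
    · refine this.2 ?_
      rw [hα, hγ] at h4
      linear_combination 2199023255552 ^ 5 * h4

theorem r0 {α γ : ℝ} (h1 : |α| ≤ 4) (h2 : |γ| ≤ 4) (h3 : |α + γ| ≤ 4) :
    |α ^ 2 + 3 * α * γ + γ ^ 2| ≤ 20 := by
  rw [abs_le] at *
  constructor <;> nlinarith [h1.1, h1.2, h2.1, h2.2, h3.1, h3.2, sq_nonneg (α + γ),
    sq_nonneg (α - γ), mul_nonneg (sub_nonneg.2 h3.1) (sub_nonneg.2 h3.2)]

end Pool.Agent.Lib.MP_f61260_nt.Ab
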