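import Pool.Agent.Lib.MP_f61260_nt.Ab.Chk

/-! Soundness of the interval checker. -/

set_option autoImplicit false

namespace Pool.Agent.Lib.MP_f61260_nt.Ab

def val (s σ : ℝ) (u v p q c : ℝ) (f : SF) : ℝ :=
  (f.x0 + f.y0 * s) * u + (f.x1 + f.y1 * s) * σ * v + (f.x2 + f.y2 * s) * p +
    (f.x3 + f.y3 * s) * σ * q + (f.x4 + f.y4 * s) * c

def sr (b : Bool) : ℝ := cond b 1 (-1)

def In1 (x : ℝ) (m r : ℕ) : Prop := 0 ≤ x ∧ x ≤ 1 ∧ |2097152 * x - m| ≤ r

def InB (b : Bx) (u v p q c : ℝ) : Prop :=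
  In1 u b.m0 b.r0 ∧ In1 v b.m1 b.r1 ∧ In1 p b.m2 b.r2 ∧ In1 q b.m3 b.r3 ∧ In1 c b.m4 b.r4

def Cs (s σ : ℝ) : Prop :=
  |1048576 * s - 648056| ≤ 1 ∧ |1048576 * σ - 997255| ≤ 1 ∧ |1048576 * (s * σ) - 616338| ≤ 1

theorem term {κ x ε : ℝ} {k : ℤ} {m r : ℕ} (t : Bool) (h : |1048576 * κ - k| ≤ ε) (hx : In1 x m r) :
    |2199023255552 * (κ * (sr t * x)) - (((sg t k).toNat : ℝ) * m - ((-sg t k).toNat : ℝ) * m)| ≤
      (((sg t k).toNat : ℝ) + ((-sg t k).toNat : ℝ)) * r + ε * 2097152 := by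
  obtain ⟨h0, h1, h2⟩ := hx
  have e1 : (((sg t k).toNat : ℝ) - ((-sg t k).toNat : ℝ)) = sr t * k := by
    have := congrArg (Int.cast : ℤ → ℝ) (Int.toNat_sub_toNat_neg (sg t k))
    push_cast at this
    rw [this]
    cases t <;> simp [sg, sr]
  have e2 : (((sg t k).toNat : ℝ) + ((-sg t k).toNat : ℝ)) = |(k : ℝ)| := by
    have := congrArg (Nat.cast : ℕ → ℝ) (Int.toNat_add_toNat_neg_eq_natAbs (sg t k))
    push_cast at this
    rw [this, Nat.cast_natAbs]
    cases t <;> simp [sg]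
  have e3 : |sr t| = 1 := by cases t <;> simp [sr]
  rw [e2, ← sub_mul, e1, show 2199023255552 * (κ * (sr t * x)) - sr t * k * m =
    sr t * (k * (2097152 * x - m) + (1048576 * κ - k) * (2097152 * x)) by ring, abs_mul, e3, one_mul]
  refine (abs_add_le _ _).trans (add_le_add ?_ ?_)
  · rw [abs_mul]
    exact mul_le_mul_of_nonneg_left h2 (abs_nonneg _)
  · rw [abs_mul, abs_of_nonneg (show 0 ≤ 2097152 * x by positivity)]
    exact mul_le_mul h (by linarith) (by positivity) ((abs_nonneg _).trans h)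

theorem co1 {s σ : ℝ} (h : Cs s σ) (x y : ℤ) :
    |1048576 * (x + y * s) - ((x * 1048576 + y * 648056 : ℤ) : ℝ)| ≤ (y.natAbs : ℝ) := by
  rw [Nat.cast_natAbs]
  push_cast
  rw [show 1048576 * (x + y * s) - (x * 1048576 + y * 648056) = y * (1048576 * s - 648056) by ring,
    abs_mul]
  exact mul_le_of_le_one_right (abs_nonneg _) h.1

theorem co2 {s σ : ℝ} (h : Cs s σ) (x y : ℤ) :
    |1048576 * ((x + y * s) * σ) - ((x * 997255 + y * 616338 : ℤ) : ℝ)| ≤
      (x.natAbs : ℝ) + (y.natAbs : ℝ) := by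
  rw [Nat.cast_natAbs, Nat.cast_natAbs]
  push_cast
  rw [show 1048576 * ((x + y * s) * σ) - (x * 997255 + y * 616338) =
    x * (1048576 * σ - 997255) + y * (1048576 * (s * σ) - 616338) by ring]
  refine (abs_add_le _ _).trans (add_le_add ?_ ?_)
  · rw [abs_mul]
    exact mul_le_of_le_one_right (abs_nonneg _) h.2.1
  · rw [abs_mul]
    exact mul_le_of_le_one_right (abs_nonneg _) h.2.2

def Enc (V : SF → ℝ) (t : Sn) (b : Bx) : Prop :=
  ∀ f, |2199023255552 * V f - ((eP (enc t f) b : ℝ) - eN (enc t f) b)| ≤ eR (enc t f) b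

theorem enc_sound {s σ u v p q c : ℝ} (h : Cs s σ) (t : Sn) {b : Bx} (hb : InB b u v p q c) :
    Enc (val s σ (sr t.s0 * u) (sr t.s1 * v) (sr t.s2 * p) (sr t.s3 * q) (sr t.s4 * c)) t b := by
  intro f
  obtain ⟨h0, h1, h2, h3, h4⟩ := hb
  have a0 := abs_le.1 (term t.s0 (co1 h f.x0 f.y0) h0)
  have a1 := abs_le.1 (term t.s1 (co2 h f.x1 f.y1) h1)
  have a2 := abs_le.1 (term t.s2 (co1 h f.x2 f.y2) h2)
  have a3 := abs_le.1 (term t.s3 (co2 h f.x3 f.y3) h3)
  have a4 := abs_le.1 (term t.s4 (co1 h f.x4 f.y4) h4)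
  simp only [val, eP, eN, eR, enc, Nat.add_eq, Nat.mul_eq, Nat.cast_add, Nat.cast_mul,
    Nat.cast_ofNat]
  rw [abs_le]
  constructor <;> linarith [a0.1, a0.2, a1.1, a1.2, a2.1, a2.2, a3.1, a3.2, a4.1, a4.2]

theorem eD_eq (f : Gm) (b : Bx) : (eD f b : ℝ) = |(eP f b : ℝ) - eN f b| := by
  simp only [eD, fN_eq, Nat.add_eq, Nat.sub_eq]
  rcases le_total (eP f b) (eN f b) with h | h
  · rw [Nat.sub_eq_zero_of_le h, zero_add, Nat.cast_sub h, abs_sub_comm,
      abs_of_nonneg (sub_nonneg.2 (by exact_mod_cast h))]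
  · rw [Nat.sub_eq_zero_of_le h, add_zero, Nat.cast_sub h,
      abs_of_nonneg (sub_nonneg.2 (by exact_mod_cast h))]

variable {V : SF → ℝ} {t : Sn} {b : Bx}

theorem upL_s (h : Enc V t b) (l : List (SF × ℕ)) :
    (l.map fun x => (2199023255552 * |V x.1|) ^ x.2).prod ≤ upL b (eL t l) := by
  induction l with
  | nil => simp [upL, eL]
  | cons x l ih =>
    show _ ≤ ((Nat.mul (Nat.pow (Nat.add (eD (enc t x.1) b) (eR (enc t x.1) b)) x.2)
      (upL b (eL t l)) : ℕ) : ℝ)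
    simp only [List.map_cons, List.prod_cons, Nat.add_eq, Nat.mul_eq, Nat.pow_eq, Nat.cast_mul,
      Nat.cast_pow, Nat.cast_add]
    refine mul_le_mul (pow_le_pow_left₀ (by positivity) ?_ _) ih
      (List.prod_nonneg fun y hy => by
        obtain ⟨z, _, rfl⟩ := List.mem_map.1 hy
        positivity) (by positivity)
    have h1 := h x.1
    have h2 := abs_sub_abs_le_abs_sub (2199023255552 * V x.1)
      ((eP (enc t x.1) b : ℝ) - eN (enc t x.1) b)
    rw [abs_mul, abs_of_pos (show (0 : ℝ) < 2199023255552 by norm_num)] at h2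
    rw [eD_eq]
    linarith

theorem low (h : Enc V t b) (f : SF) :
    (eD (enc t f) b : ℝ) - eR (enc t f) b ≤ 2199023255552 * |V f| := by
  have h1 := h f
  have h2 := abs_sub_abs_le_abs_sub ((eP (enc t f) b : ℝ) - eN (enc t f) b) (2199023255552 * V f)
  rw [abs_mul, abs_of_pos (show (0 : ℝ) < 2199023255552 by norm_num), abs_sub_comm _ (_ * _)] at h2
  rw [eD_eq]
  linarith

theorem nzL_s (h : Enc V t b) (l : List (SF × ℕ)) (hl : nzL b (eL t l) = true) :
    ∀ x ∈ l, V x.1 ≠ 0 := by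
  induction l with
  | nil => simp
  | cons x l ih =>
    have h1 : (Nat.blt (eR (enc t x.1) b) (eD (enc t x.1) b) && nzL b (eL t l)) = true := hl
    rw [Bool.and_eq_true, Nat.blt_eq] at h1
    intro y hy
    rcases List.mem_cons.1 hy with rfl | hy
    · intro h0
      have h2 := low h y.1
      have h3 : (eR (enc t y.1) b : ℝ) < eD (enc t y.1) b := by exact_mod_cast h1.1
      rw [h0, abs_zero, mul_zero] at h2
      linarith
    · exact ih h1.2 y hy

theorem outL_s (h : Enc V t b) (l : List (SF × ℕ)) (hl : outL b (eL t l) = true) :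
    ∃ x ∈ l, 2 < |V x.1| := by
  induction l with
  | nil => exact absurd hl (by simp [outL, eL])
  | cons x l ih =>
    have h1 : (Nat.blt (Nat.add (eR (enc t x.1) b) 4398046511104) (eD (enc t x.1) b) ||
      outL b (eL t l)) = true := hl
    rw [Bool.or_eq_true, Nat.blt_eq, Nat.add_eq] at h1
    rcases h1 with h1 | h1
    · have h2 := low h x.1
      have h3 : (eR (enc t x.1) b : ℝ) + 4398046511104 < eD (enc t x.1) b := by exact_mod_cast h1
      exact ⟨x, by simp, by linarith⟩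
    · obtain ⟨y, hy, h2⟩ := ih h1
      exact ⟨y, List.mem_cons_of_mem _ hy, h2⟩

theorem mulI_s {x y : ℝ} {m : ℤ} {r : ℕ} {J : ℤ × ℕ} (hx : |x - m| ≤ r) (hy : |y - J.1| ≤ J.2) :
    |x * y - (mulI m r J).1| ≤ (mulI m r J).2 := by
  simp only [mulI, Nat.add_eq, Nat.mul_eq, Int.mul_def, Nat.cast_add, Nat.cast_mul, Nat.cast_natAbs,
    Int.cast_mul, Int.cast_abs]
  rw [show x * y - m * J.1 = m * (y - J.1) + J.1 * (x - m) + (x - m) * (y - J.1) by ring]
  refine (abs_add_three _ _ _).trans ?_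
  rw [abs_mul, abs_mul, abs_mul]
  gcongr

theorem prI_s (h : Enc V t b) (l : List (SF × ℕ)) :
    |(l.map fun x => 2199023255552 * V x.1).prod - (prI b (eL t l)).1| ≤ (prI b (eL t l)).2 := by
  induction l with
  | nil => simp [prI, eL]
  | cons x l ih =>
    rw [List.map_cons, List.prod_cons]
    refine mulI_s (m := Int.subNatNat (eP (enc t x.1) b) (eN (enc t x.1) b)) ?_ ih
    rw [Int.subNatNat_eq_coe]
    push_cast
    exact h x.1

theorem nzI_s {x y : ℝ} {I J : ℤ × ℕ} (hx : |x - I.1| ≤ I.2) (hy : |y - J.1| ≤ J.2)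
    (h : nzI I J = true) : x + y ≠ 0 := by
  intro h0
  rw [nzI, Nat.blt_eq, Nat.add_eq, Int.add_def, ← Nat.cast_lt (α := ℝ), Nat.cast_natAbs] at h
  push_cast at h
  have h1 : (I.1 : ℝ) + J.1 = -(x - I.1) + -(y - J.1) := by linarith
  have h2 := abs_add_le (-(x - I.1)) (-(y - J.1))
  rw [abs_neg, abs_neg, ← h1] at h2
  linarith

def Ph (P : Pb) (s : ℝ) (V : SF → ℝ) : Prop :=
  (∃ x ∈ P.O, 2 < |V x.1|) ∨ (P.L.map fun x => (2199023255552 * |V x.1|) ^ x.2).prod ≤ P.K ∨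
    (P.z = true ∧ ∀ x ∈ P.Z, V x.1 ≠ 0) ∨ (P.g = true ∧
      (1 + s) * (P.A.map fun x => 2199023255552 * V x.1).prod +
        s * (P.C.map fun x => 2199023255552 * V x.1).prod ≠ 0 ∧
      s * (P.A.map fun x => 2199023255552 * V x.1).prod +
        (1 + s) * (P.C.map fun x => 2199023255552 * V x.1).prod ≠ 0)

theorem tst_s {s σ : ℝ} (hs : Cs s σ) (P : Pb) (h : Enc V t b)
    (ht : tst P.K P.z P.g (eL t P.O) (eL t P.L) (eL t P.Z) (eL t P.A) (eL t P.C) b = true) :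
    Ph P s V := by
  simp only [tst, gy, Bool.or_eq_true, Bool.and_eq_true, Nat.ble_eq] at ht
  rcases ht with ht | ht | ht | ht
  · exact Or.inl (outL_s h _ ht)
  · exact Or.inr (Or.inl ((upL_s h _).trans (by exact_mod_cast ht)))
  · exact Or.inr (Or.inr (Or.inl ⟨ht.1, nzL_s h _ ht.2⟩))
  · have e1 : |1048576 * s - (648056 : ℤ)| ≤ (1 : ℕ) := by simpa using hs.1
    have e2 : |1048576 * (1 + s) - (1696632 : ℤ)| ≤ (1 : ℕ) := by
      have := hs.1
      rw [show 1048576 * s - 648056 = 1048576 * (1 + s) - 1696632 by ring] at this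
      simpa using this
    have a := prI_s h P.A
    have c := prI_s h P.C
    refine Or.inr (Or.inr (Or.inr ⟨ht.1, fun h0 => ?_, fun h0 => ?_⟩))
    · exact nzI_s (mulI_s e2 a) (mulI_s e1 c) ht.2.1 (by linear_combination 1048576 * h0)
    · exact nzI_s (mulI_s e1 a) (mulI_s e2 c) ht.2.2 (by linear_combination 1048576 * h0)

noncomputable def U (t : ℝ) : ℝ := 2 / (1 + t ^ 2) - 1

noncomputable def W (t : ℝ) : ℝ := 2 * t / (1 + t ^ 2)

def Rg (x : ℝ) (n w : ℕ) : Prop := (n : ℝ) ≤ 1048576 * x ∧ 1048576 * x ≤ n + w ∧ n + w ≤ 1048576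

theorem uu_s (n : ℕ) : (uu n : ℝ) ≤ 1048576 * (U (n / 1048576) + 1) ∧
    1048576 * (U (n / 1048576) + 1) ≤ uu n + 1 := by
  have e : 1048576 * (U (n / 1048576) + 1) =
      ((2305843009213693952 : ℕ) : ℝ) / ((1099511627776 + n * n : ℕ) : ℝ) := by
    simp only [U]
    push_cast
    field_simp
    ring
  rw [e]
  refine ⟨Nat.cast_div_le, ?_⟩
  rw [show uu n = 2305843009213693952 / (1099511627776 + n * n) from rfl, ← Nat.floor_div_eq_div (K := ℝ)]
  exact (Nat.lt_floor_add_one _).le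

theorem vv_s (n : ℕ) : (vv n : ℝ) ≤ 1048576 * W (n / 1048576) ∧
    1048576 * W (n / 1048576) ≤ vv n + 1 := by
  have e : 1048576 * W (n / 1048576) =
      ((2199023255552 * n : ℕ) : ℝ) / ((1099511627776 + n * n : ℕ) : ℝ) := by
    simp only [W]
    push_cast
    field_simp
    ring
  rw [e]
  refine ⟨Nat.cast_div_le, ?_⟩
  rw [show vv n = 2199023255552 * n / (1099511627776 + n * n) from rfl, ← Nat.floor_div_eq_div (K := ℝ)]
  exact (Nat.lt_floor_add_one _).le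

theorem U_anti {x y : ℝ} (h0 : 0 ≤ x) (h : x ≤ y) : U y ≤ U x := by
  simp only [U]
  gcongr

theorem W_mono {x y : ℝ} (h0 : 0 ≤ x) (h : x ≤ y) (h1 : y ≤ 1) : W x ≤ W y := by
  simp only [W]
  rw [div_le_div_iff₀ (by positivity) (by positivity)]
  have : 0 ≤ (y - x) * (1 - x * y) := mul_nonneg (by linarith) (by nlinarith)
  nlinarith

theorem circ_s {x : ℝ} {n w : ℕ} (h : Rg x n w) {k : ℕ → ℕ → ℕ → ℕ → Bool}
    (hk : circ n w k = true) :
    ∃ m0 m1 r0 r1, In1 (U x) m0 r0 ∧ In1 (W x) m1 r1 ∧ k m0 m1 r0 r1 = true := by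
  simp only [circ, fN_eq, Nat.add_eq, Nat.sub_eq, Nat.succ_eq_add_one] at hk
  obtain ⟨h1, h2, h3⟩ := h
  have h3' : (n : ℝ) + w ≤ 1048576 := by exact_mod_cast h3
  have n0 : (0 : ℝ) ≤ n / 1048576 := by positivity
  have a1 : (n : ℝ) / 1048576 ≤ x := by rw [div_le_iff₀ (by norm_num)]; linarith
  have a2 : x ≤ ((n + w : ℕ) : ℝ) / 1048576 := by
    rw [le_div_iff₀ (by norm_num)]; push_cast; linarith
  have a3 : ((n + w : ℕ) : ℝ) / 1048576 ≤ 1 := by
    rw [div_le_iff₀ (by norm_num)]; push_cast; linarith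
  have x0 := n0.trans a1
  have x1 := a2.trans a3
  have u1 := U_anti n0 a1
  have u2 := U_anti x0 a2
  have u3 : 0 ≤ U x := (show (0 : ℝ) ≤ U 1 by norm_num [U]).trans (U_anti x0 x1)
  have u4 : U x ≤ 1 := (U_anti le_rfl x0).trans (by norm_num [U])
  have u5 : 1048576 ≤ uu (n + w) := by
    have : 1099511627776 + (n + w) * (n + w) ≤ 2199023255552 := by nlinarith
    show 1048576 ≤ 2305843009213693952 / (1099511627776 + (n + w) * (n + w))
    exact (Nat.le_div_iff_mul_le (by omega)).2 (by omega)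
  have w1 := W_mono n0 a1 x1
  have w2 := W_mono x0 a2 a3
  have w3 : 0 ≤ W x := by simp only [W]; positivity
  have w4 : W x ≤ 1 := (W_mono x0 x1 le_rfl).trans (by norm_num [W])
  have b1 := uu_s n
  have b2 := uu_s (n + w)
  have b3 := vv_s n
  have b4 := vv_s (n + w)
  have c1 : uu (n + w) ≤ uu n + 1 := by
    rw [← Nat.cast_le (α := ℝ)]; push_cast at *; linarith [b1.2, b2.1]
  have c2 : vv n ≤ vv (n + w) + 1 := by
    rw [← Nat.cast_le (α := ℝ)]; push_cast at *; linarith [b3.1, b4.2]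
  refine ⟨_, _, _, _, ⟨u3, u4, ?_⟩, ⟨w3, w4, ?_⟩, hk⟩
  · rw [Nat.cast_sub c1, Nat.cast_sub (by omega), abs_le]
    push_cast at *
    constructor <;> linarith [b1.2, b2.1]
  · rw [Nat.cast_sub c2, abs_le]
    push_cast at *
    constructor <;> linarith [b3.1, b4.2]

theorem spl_s {x : ℝ} {n w : ℕ} (h : Rg x n w) {k : ℕ → ℕ → Bool} (hk : spl n w k = true) :
    ∃ n' w', Rg x n' w' ∧ k n' w' = true := by
  simp only [spl, fN_eq, Nat.add_eq, Nat.sub_eq, Bool.and_eq_true] at hk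
  have h0 : Nat.div w 2 ≤ w := Nat.div_le_self w 2
  obtain ⟨h1, h2, h3⟩ := h
  rcases le_total (1048576 * x) (n + (Nat.div w 2 : ℕ)) with h4 | h4
  · exact ⟨_, _, ⟨h1, h4, by omega⟩, hk.1⟩
  · refine ⟨_, _, ⟨by push_cast; exact h4, ?_, by omega⟩, hk.2⟩
    rw [Nat.cast_sub h0]
    push_cast
    linarith

theorem rc_s {T : Bx → Bool} {three : Bool} {x y z : ℝ} (f : ℕ) : ∀ n1 w1 n2 w2 n3 w3,
    Rg x n1 w1 → Rg y n2 w2 → Rg z n3 w3 → rc T three f n1 w1 n2 w2 n3 w3 = true →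
    ∃ b, InB b (U x) (W x) (U y) (W y) z ∧ T b = true := by
  induction f with
  | zero => intro _ _ _ _ _ _ _ _ _ h; exact absurd h (by simp [rc])
  | succ f ih =>
    intro n1 w1 n2 w2 n3 w3 h1 h2 h3 h
    have h' : (bx T n1 w1 n2 w2 n3 w3 ||
      cond (three && Nat.ble (Nat.mul 2 w1) w3 && Nat.ble (Nat.mul 2 w2) w3)
        (spl n3 w3 fun n w => rc T three f n1 w1 n2 w2 n w)
        (cond (Nat.ble w2 w1) (spl n1 w1 fun n w => rc T three f n w n2 w2 n3 w3)
          (spl n2 w2 fun n w => rc T three f n1 w1 n w n3 w3))) = true := h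
    rw [Bool.or_eq_true] at h'
    rcases h' with h' | h'
    · obtain ⟨m0, m1, r0, r1, a0, a1, h'⟩ := circ_s h1 h'
      obtain ⟨m2, m3, r2, r3, a2, a3, h'⟩ := circ_s h2 h'
      rw [fN_eq] at h'
      refine ⟨_, ⟨a0, a1, a2, a3, ?_, ?_, ?_⟩, h'⟩
      · linarith [h3.1, Nat.cast_nonneg (α := ℝ) n3]
      · have : (n3 : ℝ) + w3 ≤ 1048576 := by exact_mod_cast h3.2.2
        linarith [h3.2.1]
      · simp only [Nat.add_eq, Nat.mul_eq]
        push_cast
        rw [abs_le]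
        constructor <;> linarith [h3.1, h3.2.1]
    · cases hc : (three && Nat.ble (Nat.mul 2 w1) w3 && Nat.ble (Nat.mul 2 w2) w3)
      · rw [hc, cond_false] at h'
        cases hd : Nat.ble w2 w1
        · rw [hd, cond_false] at h'
          obtain ⟨n, w, a, h'⟩ := spl_s h2 h'
          exact ih _ _ _ _ _ _ h1 a h3 h'
        · rw [hd, cond_true] at h'
          obtain ⟨n, w, a, h'⟩ := spl_s h1 h'
          exact ih _ _ _ _ _ _ a h2 h3 h'
      · rw [hc, cond_true] at h'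
        obtain ⟨n, w, a, h'⟩ := spl_s h3 h'
        exact ih _ _ _ _ _ _ h1 h2 a h'

theorem par {u v : ℝ} (h : u ^ 2 + v ^ 2 = 1) :
    ∃ x, Rg x 0 1048576 ∧ U x = |u| ∧ W x = |v| := by
  have h0 := abs_nonneg u
  have h1 := abs_nonneg v
  have h2 : |u| ^ 2 + |v| ^ 2 = 1 := by rw [sq_abs, sq_abs, h]
  have h3 : 1 + (|v| / (1 + |u|)) ^ 2 = 2 / (1 + |u|) := by
    field_simp
    linear_combination h2
  refine ⟨|v| / (1 + |u|), ⟨by simp; positivity, ?_, le_rfl⟩, ?_, ?_⟩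
  · have : |v| / (1 + |u|) ≤ 1 := by
      rw [div_le_one (by positivity)]
      nlinarith
    push_cast
    linarith
  · rw [U, h3]
    field_simp
    ring
  · rw [W, h3]
    field_simp

theorem sr_abs (x : ℝ) : ∃ t, sr t * |x| = x := by
  rcases le_total 0 x with h | h
  · exact ⟨true, by simp [sr, abs_of_nonneg h]⟩
  · exact ⟨false, by simp [sr, abs_of_nonpos h]⟩

theorem run_s {s σ u v p q c : ℝ} (hs : Cs s σ) (P : Pb) (t : Sn) (h : run P t = true)
    (h1 : u ^ 2 + v ^ 2 = 1) (h2 : p ^ 2 + q ^ 2 = 1) (h3 : |c| ≤ 1) :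
    Ph P s (val s σ (sr t.s0 * |u|) (sr t.s1 * |v|) (sr t.s2 * |p|) (sr t.s3 * |q|)
      (sr t.s4 * |c|)) := by
  simp only [run, fN_eq, fL_eq] at h
  obtain ⟨x, hx, e1, e2⟩ := par h1
  obtain ⟨y, hy, e3, e4⟩ := par h2
  obtain ⟨b, hb, hT⟩ := rc_s (z := |c|) 45 _ _ _ _ _ _ hx hy
    ⟨by simp, by push_cast; linarith, le_rfl⟩ h
  rw [e1, e2, e3, e4] at hb
  exact tst_s hs P (enc_sound hs t hb) hT

theorem all8_s {s σ u v p q c : ℝ} (hs : Cs s σ) (P : Pb) (t4 : Bool) (h : all8 P t4 = true)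
    (h1 : u ^ 2 + v ^ 2 = 1) (h2 : p ^ 2 + q ^ 2 = 1) (h3 : |c| ≤ 1) (hu : 0 ≤ u)
    (hc : sr t4 * |c| = c) : Ph P s (val s σ u v p q c) := by
  obtain ⟨t1, e1⟩ := sr_abs v
  obtain ⟨t2, e2⟩ := sr_abs p
  obtain ⟨t3, e3⟩ := sr_abs q
  have e0 : sr true * |u| = u := by simp [sr, abs_of_nonneg hu]
  have := run_s hs P ⟨true, t1, t2, t3, t4⟩ (by
    simp only [all8, Bool.and_eq_true] at h
    cases t1 <;> cases t2 <;> cases t3 <;> tauto) h1 h2 h3
  rwa [e0, e1, e2, e3, hc] at this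

theorem Ph.neg {P : Pb} {s : ℝ} (h : Ph P s V) (hl : P.A.length = P.C.length) :
    Ph P s fun f => -V f := by
  have e : ∀ l : List (SF × ℕ), (l.map fun x => 2199023255552 * -V x.1).prod =
      (-1) ^ l.length * (l.map fun x => 2199023255552 * V x.1).prod := by
    intro l
    induction l with
    | nil => simp
    | cons x l ih => rw [List.map_cons, List.map_cons, List.prod_cons, List.prod_cons, ih,
        List.length_cons]; ring
  have e' : ((-1 : ℝ)) ^ P.C.length ≠ 0 := pow_ne_zero _ (by norm_num)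
  simp only [Ph, abs_neg, e, hl, neg_ne_zero]
  refine h.imp id (Or.imp id (Or.imp id fun h => ⟨h.1, fun h0 => h.2.1 ?_, fun h0 => h.2.2 ?_⟩))
  · exact mul_left_cancel₀ e' (by linear_combination h0)
  · exact mul_left_cancel₀ e' (by linear_combination h0)

theorem all_s {s σ u v p q c : ℝ} (hs : Cs s σ) (P : Pb) (hl : P.A.length = P.C.length)
    (h : all8 P true = true) (h' : c = 0 ∨ all8 P false = true)
    (h1 : u ^ 2 + v ^ 2 = 1) (h2 : p ^ 2 + q ^ 2 = 1) (h3 : |c| ≤ 1) :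
    Ph P s (val s σ u v p q c) := by
  have key : ∀ u v p q c : ℝ, (c = 0 ∨ all8 P false = true) → u ^ 2 + v ^ 2 = 1 →
      p ^ 2 + q ^ 2 = 1 → |c| ≤ 1 → 0 ≤ u → Ph P s (val s σ u v p q c) := by
    intro u v p q c h' h1 h2 h3 hu
    rcases h' with rfl | h'
    · exact all8_s hs P true h h1 h2 h3 hu (by simp)
    · obtain ⟨t, e⟩ := sr_abs c
      exact all8_s hs P t (by cases t <;> assumption) h1 h2 h3 hu e
  rcases le_total 0 u with hu | hu
  · exact key u v p q c h' h1 h2 h3 hu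
  · have := (key (-u) (-v) (-p) (-q) (-c) (h'.imp (fun h => by simp [h]) id) (by simpa using h1)
      (by simpa using h2) (by simpa using h3) (by linarith)).neg hl
    rwa [show (fun f => -val s σ (-u) (-v) (-p) (-q) (-c) f) = val s σ u v p q c from
      funext fun f => by simp only [val]; ring] at this

end Pool.Agent.Lib.MP_f61260_nt.Ab
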